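import Pool.Agent.W_448t6_h94.TsO
import Pool.Agent.W_448st_h88.MgI
import Pool.Agent.W_448win_h16.EtG

/-! The first order identity at `s = -1`, final forms (MP_448cb3_co). -/

namespace Pool.Agent.GaussPoset.Win

open Finset

namespace T6N

set_option linter.unusedSectionVars false

universe u

variable {P : Type u} [Fintype P] [PartialOrder P] [DecidableEq P] {r : ℕ} {i : ℕ}

/-- sum over the fibres of a map to pairs -/
lemma sum_fibre {S V : Finset P} {g : P → Finset P} (hg : ∀ x ∈ S, g x ∈ V.powersetCard 2)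
    (f : Finset P → ℤ) :
    ∑ x ∈ S, f (g x) =
      ∑ e ∈ V.powersetCard 2, ((S.filter (fun x => g x = e)).card : ℤ) * f e := by
  rw [← sum_fiberwise_of_maps_to hg]
  refine sum_congr rfl fun e _ => ?_
  have h1 : ∀ x ∈ S.filter (fun x => g x = e), f (g x) = f e := by
    intro x hx
    rw [(mem_filter.1 hx).2]
  rw [sum_congr rfl h1, sum_const, nsmul_eq_mul]

lemma dbl_pair (H : Gr P r) {x : P} (hx : x ∈ dbL P i ∪ dbU P i) :
    ns i x ∈ (lv P i).powersetCard 2 := by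
  rw [mem_powersetCard]
  refine ⟨fun v hv => ?_, ns_card hx⟩
  rw [mem_lv]
  exact ns_lv H (dbl_near hx) hv

lemma Bf_card (T : Finset P) :
    (((dbL P i ∪ dbU P i).filter (fun x => ns i x = T)).card : ℤ) = St.Bf i T := by
  have h1 : (dbL P i ∪ dbU P i).filter (fun x => ns i x = T) = CoreC_L i T ∪ CoreC_U i T := by
    ext x
    rw [mem_filter, mem_union, mem_union, mem_CoreC_L, mem_CoreC_U]
    constructor
    · rintro ⟨h | h, h2⟩
      · rw [ns_L h] at h2
        exact Or.inl ⟨h, h2⟩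
      · rw [ns_U h] at h2
        exact Or.inr ⟨h, h2⟩
    · rintro (⟨h, h2⟩ | ⟨h, h2⟩)
      · exact ⟨Or.inl h, by rw [ns_L h]; exact h2⟩
      · exact ⟨Or.inr h, by rw [ns_U h]; exact h2⟩
  have h2 : Disjoint (CoreC_L i T) (CoreC_U i T) := by
    rw [disjoint_left]
    intro x hx hy
    have h3 := (mem_dbL.1 (mem_CoreC_L.1 hx).1).1
    have h4 := (mem_dbU.1 (mem_CoreC_U.1 hy).1).1
    omega
  rw [h1, card_union_of_disjoint h2]
  unfold St.Bf
  push_cast
  ring

lemma sgl_sum (H : Gr P r) (f : Finset P → ℤ) :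
    ∑ h ∈ sgl P i, f (ns i h) = ∑ v ∈ lv P i, sing v * f {v} := by
  classical
  have h1 : ∀ h ∈ sgl P i, f (ns i h) = ∑ v ∈ lv P i, if v ∈ ns i h then f {v} else 0 := by
    intro h hh
    rw [mem_sgl] at hh
    obtain ⟨u, hu⟩ := card_eq_one.1 hh.2
    have hul : u ∈ lv P i := by
      rw [mem_lv]
      exact ns_lv H hh.1 (by rw [hu]; exact mem_singleton_self _)
    rw [sum_eq_single_of_mem u hul]
    · rw [hu, if_pos (mem_singleton_self _)]
    · intro v _ hv
      rw [if_neg]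
      rw [hu, mem_singleton]
      exact hv
  rw [sum_congr rfl h1, sum_comm]
  refine sum_congr rfl fun v hv => ?_
  rw [← sum_filter, sum_const, nsmul_eq_mul]
  congr 1
  rw [← cnt_sg H (mem_lv.1 hv)]
  have h2 : (sgl P i).filter (fun h => v ∈ ns i h) =
      (sgL P i).filter (fun w => v ∈ uc w) ∪ (sgU P i).filter (fun u => v ∈ dc u) := by
    ext x
    unfold sgL sgU
    simp only [mem_filter, mem_union, mem_univ, true_and, mem_sgl, mem_near]
    constructor
    · rintro ⟨⟨h | h, h3⟩, h4⟩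
      · rw [nsl h] at h3 h4
        exact Or.inl ⟨⟨h, h3⟩, h4⟩
      · rw [nsu h] at h3 h4
        exact Or.inr ⟨⟨h, h3⟩, h4⟩
    · rintro (⟨⟨h, h3⟩, h4⟩ | ⟨⟨h, h3⟩, h4⟩)
      · rw [← nsl h] at h3 h4
        exact ⟨⟨Or.inl h, h3⟩, h4⟩
      · rw [← nsu h] at h3 h4
        exact ⟨⟨Or.inr h, h3⟩, h4⟩
  have h3 : Disjoint ((sgL P i).filter (fun w => v ∈ uc w))
      ((sgU P i).filter (fun u => v ∈ dc u)) := by
    rw [disjoint_left]
    intro x hx hy
    unfold sgL at hx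
    unfold sgU at hy
    simp only [mem_filter, mem_univ, true_and] at hx hy
    omega
  rw [h2, card_union_of_disjoint h3]
  push_cast
  ring

/-- number of elements of `PD` hanging at the site `T` -/
noncomputable def thD (i : ℕ) (T : Finset P) : ℤ :=
  ((PD P i).filter (fun z => (uc z).biUnion (ns i) = T)).card

/-- number of elements of `PU` hanging at the site `T` -/
noncomputable def thU (i : ℕ) (T : Finset P) : ℤ :=
  ((PU P i).filter (fun z => (dc z).biUnion (ns i) = T)).card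

lemma PD_site {z w : P} (hz : z ∈ PD P i) (hw : z ⋖ w) (H : Gr P r) :
    (uc z).biUnion (ns i) = uc w := by
  rw [mem_PD] at hz
  obtain ⟨h1, h2, _⟩ := hz
  obtain ⟨u, hu⟩ := card_eq_one.1 h2
  have h3 : w ∈ uc z := mem_uc.2 hw
  rw [hu, mem_singleton] at h3
  subst h3
  rw [hu, singleton_biUnion, nsl]
  have := (H.covBy_iff.1 hw).2
  omega

lemma PD_pair (H : Gr P r) {z : P} (hz : z ∈ PD P i) :
    (uc z).biUnion (ns i) ∈ (lv P i).powersetCard 2 := by
  have hz' := hz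
  rw [mem_PD] at hz
  obtain ⟨h1, h2, w, hw, h4⟩ := hz
  rw [PD_site hz' hw H, mem_powersetCard]
  refine ⟨fun v hv => ?_, h4⟩
  rw [mem_lv]
  have h5 := (H.covBy_iff.1 hw).2
  have h6 := lev_uc H hv
  omega

lemma PU_pair (H : Gr P r) {z : P} (hz : z ∈ PU P i) :
    (dc z).biUnion (ns i) ∈ (lv P i).powersetCard 2 := by
  rw [mem_PU] at hz
  obtain ⟨h1, h2, w, hw, h4⟩ := hz
  obtain ⟨u, hu⟩ := card_eq_one.1 h2
  have h3 : w ∈ dc z := mem_dc.2 hw
  rw [hu, mem_singleton] at h3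
  subst h3
  have h5 := (H.covBy_iff.1 hw).2
  rw [hu, singleton_biUnion, nsu (by omega), mem_powersetCard]
  refine ⟨fun v hv => ?_, h4⟩
  rw [mem_lv]
  have h6 := lev_dc H hv
  omega

lemma thD_nonneg (i : ℕ) (T : Finset P) : 0 ≤ thD i T := by
  unfold thD
  positivity

lemma thU_zero (h : PU P i = ∅) (T : Finset P) : thU i T = 0 := by
  unfold thU
  rw [h, filter_empty, card_empty]
  rfl

lemma thD_pos (H : Gr P r) {z : P} (hz : z ∈ PD P i) {w : P} (hw : z ⋖ w) :
    1 ≤ thD i (uc w) := by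
  unfold thD
  have h1 : z ∈ (PD P i).filter (fun z => (uc z).biUnion (ns i) = uc w) :=
    mem_filter.2 ⟨hz, PD_site hz hw H⟩
  have h2 : 0 < ((PD P i).filter (fun z => (uc z).biUnion (ns i) = uc w)).card :=
    card_pos.2 ⟨z, h1⟩
  exact_mod_cast h2

/-- T6, the first order identity at `s = -1`, in terms of the pairs of sites -/
theorem T6pairs (H : Gr P r) (hi : i ≤ r) (h3 : ∀ x : P, lev x + 2 = i → dn i x ≤ 3) :
    ∑ e ∈ (lv P i).powersetCard 2, St.Bf i e * (∑ v ∈ e, ph i {v} + ph i e - 3) +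
      2 * ∑ v ∈ lv P i, sing v * (ph i {v} - 1) - 2 * ∑ v ∈ lv P i, (GG i v - 1) +
      2 * ∑ e ∈ (lv P i).powersetCard 2, (thD i e - thU i e) * ph i e = 0 := by
  have h := T6elem H hi h3
  have e1 : ∑ x ∈ dbL P i ∪ dbU P i, (∑ a ∈ ns i x, ph i {a} + ph i (ns i x) - 3) =
      ∑ e ∈ (lv P i).powersetCard 2, St.Bf i e * (∑ v ∈ e, ph i {v} + ph i e - 3) := by
    rw [sum_fibre (V := lv P i) (g := ns i) (fun x hx => dbl_pair H hx)
      (fun e => ∑ a ∈ e, ph i {a} + ph i e - 3)]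
    refine sum_congr rfl fun e _ => ?_
    rw [Bf_card]
  have e2 : ∑ h ∈ sgl P i, (ph i (ns i h) - 1) = ∑ v ∈ lv P i, sing v * (ph i {v} - 1) :=
    sgl_sum H (fun T => ph i T - 1)
  have e3 : ∑ z ∈ PD P i, ph i ((uc z).biUnion (ns i)) =
      ∑ e ∈ (lv P i).powersetCard 2, thD i e * ph i e :=
    sum_fibre (V := lv P i) (g := fun z => (uc z).biUnion (ns i)) (fun x hx => PD_pair H hx) _
  have e4 : ∑ z ∈ PU P i, ph i ((dc z).biUnion (ns i)) =
      ∑ e ∈ (lv P i).powersetCard 2, thU i e * ph i e :=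
    sum_fibre (V := lv P i) (g := fun z => (dc z).biUnion (ns i)) (fun x hx => PU_pair H hx) _
  have e5 : ∑ e ∈ (lv P i).powersetCard 2, (thD i e - thU i e) * ph i e =
      ∑ e ∈ (lv P i).powersetCard 2, thD i e * ph i e -
        ∑ e ∈ (lv P i).powersetCard 2, thU i e * ph i e := by
    rw [← sum_sub_distrib]
    exact sum_congr rfl fun e _ => by ring
  rw [e1, e2, e3, e4] at h
  rw [e5]
  linarith

/-- T6, ordered form -/
theorem T6ord (H : Gr P r) (hi : i ≤ r) (h3 : ∀ x : P, lev x + 2 = i → dn i x ≤ 3) :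
    ∑ u ∈ lv P i, ∑ w ∈ (lv P i).erase u, St.Bf i {u, w} *
        (St.Fm (Df i) (lv P i) {u, w} + St.Fm (Df i) (lv P i) {u} +
          St.Fm (Df i) (lv P i) {w} - 3) +
      2 * ∑ u ∈ lv P i, ∑ w ∈ (lv P i).erase u,
        (thD i {u, w} - thU i {u, w}) * St.Fm (Df i) (lv P i) {u, w} =
      4 * ∑ v ∈ lv P i, (St.gg (Df i) (lv P i) v - 1) -
        4 * ∑ v ∈ lv P i, sing v * (St.Fm (Df i) (lv P i) {v} - 1) := by
  refine St.h6_of (A := Df i) (V := lv P i) (B := St.Bf i) (th := fun T => thD i T - thU i T)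
    (sg := sing) (f := ph i) (g := GG i) (ph_eq H) ?_ (T6pairs H hi h3)
  intro v hv
  rw [GG_eq H hv]
  unfold St.gg
  refine sum_congr rfl fun S _ => ?_
  rw [ph_eq H]

end T6N

universe u

variable {P : Type u} [Fintype P] [PartialOrder P] [DecidableEq P] {r : ℕ}

/-- the first order identity at a level with `PU` empty -/
theorem T6_h6 (H : Gr P r) {i : ℕ} (hi : i ≤ r) (h3 : ∀ x : P, lev x + 2 = i → dn i x ≤ 3)
    (hPU : PU P i = ∅) :
    ∑ u ∈ lv P i, ∑ w ∈ (lv P i).erase u, St.Bf i {u, w} *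
        (St.Fm (Df i) (lv P i) {u, w} + St.Fm (Df i) (lv P i) {u} +
          St.Fm (Df i) (lv P i) {w} - 3) +
      2 * ∑ u ∈ lv P i, ∑ w ∈ (lv P i).erase u,
        T6N.thD i {u, w} * St.Fm (Df i) (lv P i) {u, w} =
      4 * ∑ v ∈ lv P i, (St.gg (Df i) (lv P i) v - 1) -
        4 * ∑ v ∈ lv P i, sing v * (St.Fm (Df i) (lv P i) {v} - 1) := by
  have h := T6N.T6ord H hi h3
  simp only [T6N.thU_zero hPU, sub_zero] at h
  exact h

end Pool.Agent.GaussPoset.Win
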