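import Pool.Agent.W_448kk_h94.KkA

/-! An abstract count: slack at most one (MP_448cb3_co). -/

namespace Pool.Agent.GaussPoset.Win
namespace T6N

set_option linter.unusedSectionVars false

open Finset

universe u

section Abs

variable {P : Type u} [DecidableEq P] {c : P → Finset P} {e : P → ℕ} {V N1 N2 Sd : Finset P}

open Classical in
/-- The case of equality, labels at most one on the sites. -/
theorem slack0 (L : Lay c V N1 N2 Sd)
    (adm : ∀ z ∈ Sd, ¬ (aF c e z ∧ aG c e z)) (hV : ∀ v ∈ V, e v ≤ 1)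
    (heq : (fre c e Sd).card + ∑ x ∈ Sd, e x ≤ (V.filter (fun v => aF c e v)).card) :
    (∀ z ∈ Sd, z ∉ N1 → e z = 0) ∧ (∀ w ∈ N1, e w = 0 ∨ (e w = 1 ∧ (c w).card = 2)) := by
  rw [forced_eq L, sum_split L, fre_split L] at heq
  have h1 : (N1.biUnion (fc c e)).card ≤ ∑ w ∈ N1, (fc c e w).card := card_biUnion_le
  have h2 := Finset.sum_le_sum (fun w hw => fc_le L adm (w := w) hw)
  rw [sum_add_distrib, sum_add_distrib] at h2
  have h3 := card_aF_le L adm
  rw [card_filter] at h3
  have h4 := Finset.sum_le_sum (c2_le (e := e) L)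
  have hE3 : ∑ x ∈ (Sd \ N1) \ N2, e x = 0 := by omega
  have hf2 : ∑ x ∈ N2, (if x ∈ fre c e Sd then 1 else 0) = 0 := by omega
  have hz3 : ∀ x ∈ (Sd \ N1) \ N2, e x = 0 := by
    intro x hx
    exact (Finset.sum_eq_zero_iff.1 hE3) x hx
  have heq2 := (Finset.sum_eq_sum_iff_of_le (c2_le (e := e) L)).1 (by omega)
  have hz2 : ∀ z ∈ N2, e z = 0 := by
    intro z hz
    by_contra hne
    have h5 := heq2 z hz
    have h6 : 2 ≤ e z := by
      by_contra h7
      rw [if_neg h7] at h5
      omega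
    rw [if_pos h6] at h5
    have h7 : ((c z).filter (fun w => e w < e z)).card ≤ (c z).card := card_filter_le _ _
    have h8 := L.c2 z
    have h9 : (c z).filter (fun w => e w < e z) = c z :=
      eq_of_subset_of_card_le (filter_subset _ _) (by omega)
    have h10 := (Finset.sum_eq_zero_iff.1 hf2) z hz
    refine absurd h10 ?_
    rw [if_pos]
    · exact one_ne_zero
    unfold fre
    rw [mem_filter]
    refine ⟨L.s2 hz, ?_, ?_⟩
    · rintro ⟨z', hz', hlt⟩
      obtain ⟨a1, a2, a3⟩ := L.n3 z hz z' hz'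
      have := hz3 z' (mem_sdiff.2 ⟨mem_sdiff.2 ⟨a1, a2⟩, a3⟩)
      omega
    · rintro ⟨y, hy, hle⟩
      rw [← h9, mem_filter] at hy
      omega
  have hE2 : ∑ x ∈ N2, e x = 0 := Finset.sum_eq_zero hz2
  have hF0 : ∑ w ∈ N1, (if aF c e w then 1 else 0) = 0 := by omega
  have heq1 := (Finset.sum_eq_sum_iff_of_le (fun w hw => fc_le L adm (w := w) hw)).1 (by
    rw [sum_add_distrib, sum_add_distrib]
    omega)
  have hN1 : ∀ w ∈ N1, e w = 0 ∨ (e w = 1 ∧ (c w).card = 2) := by
    intro w hw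
    have h5 := heq1 w hw
    have h6 := (Finset.sum_eq_zero_iff.1 hF0) w hw
    rw [h6] at h5
    have hFw : ¬ aF c e w := by
      intro h
      rw [if_pos h] at h6
      exact one_ne_zero h6
    by_cases h0 : e w = 0
    · exact Or.inl h0
    right
    have h8 : (fc c e w).card ≤ (c w).card := card_filter_le _ _
    have h9 := L.c2 w
    by_cases hG : aG c e w
    · have h7 : w ∉ fre c e Sd := by
        unfold fre
        rw [mem_filter]
        rintro ⟨_, _, h⟩
        exact h hG
      rw [if_neg h7] at h5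
      obtain ⟨y, hy, hle⟩ := hG
      have h10 := hV y (L.n1 w hw hy)
      have h11 : (fc c e w).card < (c w).card := by
        refine card_lt_card ⟨filter_subset _ _, fun h => ?_⟩
        have h12 := h hy
        unfold fc at h12
        rw [mem_filter] at h12
        omega
      omega
    · have h7 : w ∈ fre c e Sd := by
        unfold fre
        rw [mem_filter]
        exact ⟨L.s1 hw, hFw, hG⟩
      rw [if_pos h7] at h5
      omega
  refine ⟨?_, hN1⟩
  intro z hz hz1
  by_cases h : z ∈ N2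
  · exact hz2 z h
  · exact hz3 z (mem_sdiff.2 ⟨mem_sdiff.2 ⟨hz, hz1⟩, h⟩)

lemma two_le_sum {s : Finset P} {t : P → ℕ} {x y : P} (hx : x ∈ s) (hy : y ∈ s) (hne : x ≠ y) :
    t x + t y ≤ ∑ z ∈ s, t z := by
  rw [← sum_pair hne]
  exact sum_le_sum_of_subset (by
    intro z hz
    rw [mem_insert, mem_singleton] at hz
    rcases hz with rfl | rfl
    · exact hx
    · exact hy)

/-- disjointness of the sets of the positive near elements -/
def Dsj (c : P → Finset P) (e : P → ℕ) (N1 : Finset P) : Prop :=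
  ∀ w ∈ N1, ∀ w' ∈ N1, w ≠ w' → 0 < e w → 0 < e w' → Disjoint (c w) (c w')

/-- all near labels are 0, or 1 on double elements -/
def Nr (c : P → Finset P) (e : P → ℕ) (N1 : Finset P) : Prop :=
  ∀ w ∈ N1, e w = 0 ∨ (e w = 1 ∧ (c w).card = 2)

open Classical in
/-- Labels zero on the sites, slack at most one. -/
theorem slack1 (L : Lay c V N1 N2 Sd)
    (L4 : ∀ z ∈ Sd, z ∉ N1 → z ∉ N2 → ∀ y ∈ c z, y ∈ Sd ∧ y ∉ N1 ∧ y ≠ z)
    (adm : ∀ z ∈ Sd, ¬ (aF c e z ∧ aG c e z)) (hV : ∀ v ∈ V, e v = 0)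
    (heq : (fre c e Sd).card + ∑ x ∈ Sd, e x ≤ (V.filter (fun v => aF c e v)).card + 1) :
    ((∀ z ∈ Sd, z ∉ N1 → e z = 0) ∧ (∀ w ∈ N1, e w ≤ 1)) ∨
    ((∀ z ∈ Sd, z ∉ N1 → e z = 0) ∧ Dsj c e N1 ∧ ∃ w0 ∈ N1, e w0 = 2 ∧ (c w0).card = 2 ∧
      ∀ w ∈ N1, w ≠ w0 → e w = 0 ∨ (e w = 1 ∧ (c w).card = 2)) ∨
    (Nr c e N1 ∧ Dsj c e N1 ∧ ∃ z0 ∈ N2, (e z0 = 1 ∨ (e z0 = 2 ∧ (c z0).card = 2)) ∧
      (∀ z ∈ Sd, z ∉ N1 → z ≠ z0 → e z = 0) ∧ ∀ w ∈ c z0, 0 < e w) := by
  rw [forced_eq L, sum_split L, fre_split L] at heq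
  have h1 : (N1.biUnion (fc c e)).card ≤ ∑ w ∈ N1, (fc c e w).card := card_biUnion_le
  have h3 := card_aF_le L adm
  rw [card_filter] at h3
  -- near slack
  set rr : P → ℕ := fun w => e w + (if w ∈ fre c e Sd then 1 else 0) + (if aF c e w then 1 else 0)
    - (fc c e w).card with hrr
  have hr : ∀ w ∈ N1, (fc c e w).card + rr w =
      e w + (if w ∈ fre c e Sd then 1 else 0) + (if aF c e w then 1 else 0) := by
    intro w hw
    have := fc_le L adm (w := w) hw
    rw [hrr]
    simp only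
    omega
  have h2 : ∑ w ∈ N1, (fc c e w).card + ∑ w ∈ N1, rr w = ∑ w ∈ N1, e w +
      ∑ w ∈ N1, (if w ∈ fre c e Sd then 1 else 0) + ∑ w ∈ N1, (if aF c e w then 1 else 0) := by
    rw [← sum_add_distrib, ← sum_add_distrib, ← sum_add_distrib]
    exact sum_congr rfl hr
  -- far slack
  set c2 : P → ℕ := fun z => (if 2 ≤ e z then ((c z).filter (fun w => e w < e z)).card else 0)
    with hc2
  have h3' : ∑ w ∈ N1, (if aF c e w then 1 else 0) ≤ ∑ z ∈ N2, c2 z := h3
  set tt : P → ℕ := fun z => e z - c2 z + (if z ∈ fre c e Sd then 1 else 0) with htt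
  have ht : ∀ z ∈ N2, c2 z + tt z = e z + (if z ∈ fre c e Sd then 1 else 0) := by
    intro z hz
    have := c2_le (e := e) L z hz
    rw [htt]
    simp only
    have h5 : c2 z ≤ e z := this
    omega
  have h4 : ∑ z ∈ N2, c2 z + ∑ z ∈ N2, tt z = ∑ z ∈ N2, e z +
      ∑ z ∈ N2, (if z ∈ fre c e Sd then 1 else 0) := by
    rw [← sum_add_distrib, ← sum_add_distrib]
    exact sum_congr rfl ht
  have hfc : ∀ w ∈ N1, 0 < e w → fc c e w = c w := by
    intro w hw h0
    unfold fc
    rw [filter_eq_self]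
    intro v hv
    rw [hV v (L.n1 w hw hv)]
    exact h0
  have hG0 : ∀ w ∈ N1, 0 < e w → ¬ aG c e w := by
    rintro w hw h0 ⟨y, hy, hle⟩
    have := hV y (L.n1 w hw hy)
    omega
  have hFfre : ∀ w ∈ N1, 0 < e w →
      (if w ∈ fre c e Sd then 1 else 0) + (if aF c e w then 1 else 0) = 1 := by
    intro w hw h0
    by_cases hF : aF c e w
    · have : w ∉ fre c e Sd := by
        unfold fre
        rw [mem_filter]
        rintro ⟨_, h, _⟩
        exact h hF
      rw [if_neg this, if_pos hF]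
    · have : w ∈ fre c e Sd := by
        unfold fre
        rw [mem_filter]
        exact ⟨L.s1 hw, hF, hG0 w hw h0⟩
      rw [if_pos this, if_neg hF]
  have hrv : ∀ w ∈ N1, 0 < e w → (c w).card + rr w = e w + 1 := by
    intro w hw h0
    have h5 := hr w hw
    have h6 := hFfre w hw h0
    rw [hfc w hw h0] at h5
    omega
  have hrtot : ∑ w ∈ N1, rr w + ∑ z ∈ N2, tt z + ∑ x ∈ (Sd \ N1) \ N2, e x ≤ 1 := by omega
  have hE3le : ∑ x ∈ (Sd \ N1) \ N2, e x ≤ 1 := by omega
  -- positive covers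
  have hpos : ∀ z ∈ N2, 0 < e z → ∀ w ∈ c z, 0 < e w := by
    intro z hz h0 w hw
    by_contra h5
    have hw1 := L.n2' z hz hw
    obtain ⟨y, hy⟩ := L.ne w (L.s1 hw1)
    exact adm w (L.s1 hw1) ⟨⟨z, hw, by omega⟩, ⟨y, hy, by omega⟩⟩
  -- a near element with label at least two has slack
  have hr2 : ∀ w ∈ N1, 2 ≤ e w → 1 ≤ rr w := by
    intro w hw h0
    have h5 := hrv w hw (by omega)
    have h6 := L.c2 w
    omega
  have hrsum : ∀ w ∈ N1, rr w ≤ ∑ w ∈ N1, rr w := fun w hw =>
    single_le_sum (f := rr) (fun _ _ => Nat.zero_le _) hw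
  have htsum : ∀ z ∈ N2, tt z ≤ ∑ z ∈ N2, tt z := fun z hz =>
    single_le_sum (f := tt) (fun _ _ => Nat.zero_le _) hz
  have hesum : ∀ z ∈ (Sd \ N1) \ N2, e z ≤ ∑ x ∈ (Sd \ N1) \ N2, e x := fun z hz =>
    single_le_sum (f := e) (fun _ _ => Nat.zero_le _) hz
  -- a far element of `N2` with positive label has slack
  have hFz : ∀ z ∈ N2, 2 ≤ e z → ¬ aF c e z := by
    rintro z hz h0 ⟨z', hz', hlt⟩
    obtain ⟨a1, a2, a3⟩ := L.n3 z hz z' hz'
    have := hesum z' (mem_sdiff.2 ⟨mem_sdiff.2 ⟨a1, a2⟩, a3⟩)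
    omega
  have ht1 : ∀ z ∈ N2, 0 < e z → 1 ≤ tt z := by
    intro z hz h0
    have h5 := ht z hz
    by_cases h6 : 2 ≤ e z
    · by_cases hG : aG c e z
      · obtain ⟨w, hw, hle⟩ := hG
        have h7 : c2 z ≤ 1 := by
          have h8 : c2 z = ((c z).filter (fun w => e w < e z)).card := by
            rw [hc2]
            simp only
            rw [if_pos h6]
          rw [h8]
          have h9 : ((c z).filter (fun w => e w < e z)).card < (c z).card := by
            refine card_lt_card ⟨filter_subset _ _, fun h => ?_⟩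
            have h12 := h hw
            rw [mem_filter] at h12
            omega
          have := L.c2 z
          omega
        omega
      · have : z ∈ fre c e Sd := by
          unfold fre
          rw [mem_filter]
          exact ⟨L.s2 hz, hFz z hz h6, hG⟩
        rw [if_pos this] at h5
        have h7 : c2 z ≤ e z := c2_le (e := e) L z hz
        omega
    · have h8 : c2 z = 0 := by
        rw [hc2]
        simp only
        rw [if_neg h6]
      omega
  by_cases hfar : ∃ z0 ∈ N2, 0 < e z0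
  · obtain ⟨z0, hz0, hpos0⟩ := hfar
    right; right
    have h5 := ht1 z0 hz0 hpos0
    have h6 := htsum z0 hz0
    have hrr0 : ∑ w ∈ N1, rr w = 0 := by omega
    have hE30 : ∑ x ∈ (Sd \ N1) \ N2, e x = 0 := by omega
    have hr0 : ∀ w ∈ N1, rr w = 0 := Finset.sum_eq_zero_iff.1 hrr0
    have he30 : ∀ x ∈ (Sd \ N1) \ N2, e x = 0 := Finset.sum_eq_zero_iff.1 hE30
    have hnr : Nr c e N1 := by
      intro w hw
      by_cases h0 : e w = 0
      · exact Or.inl h0
      · right
        have h7 := hrv w hw (by omega)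
        have h8 := hr0 w hw
        have h9 := L.c2 w
        omega
    have hdsj : Dsj c e N1 := by
      intro w hw w' hw' hne h0 h0'
      rw [← hfc w hw h0, ← hfc w' hw' h0']
      exact disj_of_card_biUnion (by omega) hw hw' hne
    refine ⟨hnr, hdsj, z0, hz0, ?_, ?_, hpos z0 hz0 hpos0⟩
    · have h7 := ht z0 hz0
      by_cases h8 : e z0 = 1
      · exact Or.inl h8
      · right
        have h9 : c2 z0 = ((c z0).filter (fun w => e w < e z0)).card := by
          rw [hc2]
          simp only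
          rw [if_pos (by omega)]
        have h10 : ((c z0).filter (fun w => e w < e z0)).card ≤ (c z0).card := card_filter_le _ _
        have h11 := L.c2 z0
        have hG : ¬ aG c e z0 := by
          rintro ⟨w, hw, hle⟩
          have h12 := hr2 w (L.n2' z0 hz0 hw) (by omega)
          have h13 := hr0 w (L.n2' z0 hz0 hw)
          omega
        have h14 : z0 ∈ fre c e Sd := by
          unfold fre
          rw [mem_filter]
          exact ⟨L.s2 hz0, hFz z0 hz0 (by omega), hG⟩
        rw [if_pos h14] at h7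
        omega
    · intro z hz hz1 hne
      by_cases h : z ∈ N2
      · by_contra h7
        have h8 := ht1 z h (by omega)
        have h9 := two_le_sum (t := tt) h hz0 hne
        omega
      · exact he30 z (mem_sdiff.2 ⟨mem_sdiff.2 ⟨hz, hz1⟩, h⟩)
  · push Not at hfar
    have hz2 : ∀ z ∈ N2, e z = 0 := fun z hz => by
      have := hfar z hz
      omega
    have hz3 : ∀ z ∈ (Sd \ N1) \ N2, e z = 0 := by
      by_contra hcon
      push Not at hcon
      obtain ⟨z', hz', hne⟩ := hcon
      have h5 := hesum z' hz'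
      have h5' := hz'
      rw [mem_sdiff, mem_sdiff] at h5'
      obtain ⟨y, hy⟩ := L.ne z' h5'.1.1
      obtain ⟨h6, h6', h7⟩ := L4 z' h5'.1.1 h5'.1.2 h5'.2 y hy
      have h8 : e y = 0 := by
        by_cases h9 : y ∈ N2
        · exact hz2 y h9
        · by_contra h10
          have h11 := two_le_sum (t := e) (mem_sdiff.2 ⟨mem_sdiff.2 ⟨h6, h6'⟩, h9⟩) hz' h7
          omega
      obtain ⟨y', hy'⟩ := L.ne y h6
      exact adm y h6 ⟨⟨z', hy, by omega⟩, ⟨y', hy', by omega⟩⟩
    have hfz : ∀ z ∈ Sd, z ∉ N1 → e z = 0 := by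
      intro z hz hz1
      by_cases h : z ∈ N2
      · exact hz2 z h
      · exact hz3 z (mem_sdiff.2 ⟨mem_sdiff.2 ⟨hz, hz1⟩, h⟩)
    by_cases hall : ∀ w ∈ N1, e w ≤ 1
    · exact Or.inl ⟨hfz, hall⟩
    · right; left
      push Not at hall
      obtain ⟨w0, hw0, hlt⟩ := hall
      have h5 := hr2 w0 hw0 (by omega)
      have h6 := hrsum w0 hw0
      have h7 := hrv w0 hw0 (by omega)
      have h8 := L.c2 w0
      refine ⟨hfz, ?_, w0, hw0, by omega, by omega, ?_⟩
      · intro w hw w' hw' hne h0 h0'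
        rw [← hfc w hw h0, ← hfc w' hw' h0']
        exact disj_of_card_biUnion (by omega) hw hw' hne
      · intro w hw hne
        by_cases h0 : e w = 0
        · exact Or.inl h0
        · right
          have h9 := hrv w hw (by omega)
          have h10 := two_le_sum (t := rr) hw hw0 hne
          have h11 := L.c2 w
          omega

end Abs

end T6N
end Pool.Agent.GaussPoset.Win
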