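import Pool.Agent.W_448t6_h94.TsA
import Pool.Agent.W_448kk_h94.KkC
import Pool.Agent.W_448win_h16.LowA

/-! Configurations with slack at most one (MP_448cb3_co). -/

namespace Pool.Agent.GaussPoset.Win
namespace T6N

set_option linter.unusedSectionVars false

open Finset

universe u

variable {P : Type u} [Fintype P] [PartialOrder P] [DecidableEq P] {r : ℕ}

lemma lay4_L (H : Gr P r) (i : ℕ) : ∀ z ∈ sdL P i, z ∉ lv P (i + 1) → z ∉ lv P (i + 2) →
    ∀ y ∈ uc z, y ∈ sdL P i ∧ y ∉ lv P (i + 1) ∧ y ≠ z := by
  intro z hz h1 h2 y hy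
  rw [mem_sdL] at hz ⊢
  rw [mem_lv] at h1 h2 ⊢
  have h3 := lev_uc H hy
  refine ⟨by omega, by omega, ?_⟩
  rintro rfl
  omega

lemma lay4_U (H : Gr P r) (i : ℕ) : ∀ z ∈ sdU P i, z ∉ lU P i 1 → z ∉ lU P i 2 →
    ∀ y ∈ dc z, y ∈ sdU P i ∧ y ∉ lU P i 1 ∧ y ≠ z := by
  intro z hz h1 h2 y hy
  rw [mem_sdU] at hz ⊢
  rw [mem_lU] at h1 h2 ⊢
  have h3 := lev_dc H hy
  refine ⟨by omega, by omega, ?_⟩
  rintro rfl
  omega

lemma ns_sub_AL (H : Gr P r) {i : ℕ} {e : P → ℕ} (hV : ∀ v ∈ lv P i, e v = 0) {x : P}
    (hx : x ∈ dbL P i) (h0 : 0 < e x) : ns i x ⊆ AL i e := by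
  classical
  rw [ns_L hx]
  intro v hv
  rw [mem_dbL] at hx
  have h7 := lev_uc H hv
  unfold AL
  rw [mem_filter, mem_lv]
  refine ⟨by omega, x, mem_uc.1 hv, ?_⟩
  rw [hV v (mem_lv.2 (by omega))]
  exact h0

lemma ns_sub_AU (H : Gr P r) {i : ℕ} {e : P → ℕ} (hV : ∀ v ∈ lv P i, e v = 0) {x : P}
    (hx : x ∈ dbU P i) (h0 : 0 < e x) : ns i x ⊆ AU i e := by
  classical
  rw [ns_U hx]
  intro v hv
  rw [mem_dbU] at hx
  have h7 := lev_dc H hv
  unfold AU
  rw [mem_filter, mem_lv]
  refine ⟨by omega, x, mem_dc.1 hv, ?_⟩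
  rw [hV v (mem_lv.2 (by omega))]
  exact h0

lemma mkDj (H : Gr P r) {i : ℕ} {e : P → ℕ} (hV : ∀ v ∈ lv P i, e v = 0)
    (hD : Disjoint (AL i e) (AU i e)) (dL : Dsj uc e (lv P (i + 1))) (dU : Dsj dc e (lU P i 1))
    {F : Finset P} (hF : F ⊆ dbL P i ∪ dbU P i) (hp : ∀ x ∈ F, 0 < e x) : Dj i F := by
  refine ⟨hF, ?_⟩
  intro x hx y hy hne
  rcases mem_union.1 (hF hx) with hx0 | hx0 <;> rcases mem_union.1 (hF hy) with hy0 | hy0
  · rw [ns_L hx0, ns_L hy0]
    exact dL x (mem_lv.2 (mem_dbL.1 hx0).1) y (mem_lv.2 (mem_dbL.1 hy0).1) hne (hp x hx) (hp y hy)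
  · exact disjoint_of_subset_left (ns_sub_AL H hV hx0 (hp x hx))
      (disjoint_of_subset_right (ns_sub_AU H hV hy0 (hp y hy)) hD)
  · exact (disjoint_of_subset_left (ns_sub_AL H hV hy0 (hp y hy))
      (disjoint_of_subset_right (ns_sub_AU H hV hx0 (hp x hx)) hD)).symm
  · rw [ns_U hx0, ns_U hy0]
    exact dU x (mem_lU.2 (mem_dbU.1 hx0).1) y (mem_lU.2 (mem_dbU.1 hy0).1) hne (hp x hx) (hp y hy)

/-- a configuration with labels at most one is an indicator -/
lemma eq_ind {e : P → ℕ} (h : ∀ x, e x ≤ 1) : e = indK (univ.filter (fun x => 0 < e x)) := by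
  funext x
  have h1 := h x
  by_cases h0 : 0 < e x
  · have hm : x ∈ univ.filter (fun x => 0 < e x) := mem_filter.2 ⟨mem_univ _, h0⟩
    rw [indK_of_mem hm]
    omega
  · have hm : x ∉ univ.filter (fun x => 0 < e x) := by
      rw [mem_filter]
      rintro ⟨_, h2⟩
      exact h0 h2
    rw [indK_of_not hm]
    omega

lemma sg_self (a : P) : sg a a = 1 := by
  unfold sg
  exact Pi.single_eq_same a 1

lemma sg_ne {a x : P} (h : x ≠ a) : sg a x = 0 := by
  unfold sg
  exact Pi.single_eq_of_ne h 1

/-- a configuration with label two at `w` and labels at most one elsewhere -/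
lemma eq_ind_sg {e : P → ℕ} {w : P} (hw : e w = 2) (h : ∀ x, x ≠ w → e x ≤ 1) :
    e = indK (univ.filter (fun x => 0 < e x)) + sg w := by
  funext x
  rw [Pi.add_apply]
  by_cases hx : x = w
  · subst hx
    have hm : x ∈ univ.filter (fun x => 0 < e x) := mem_filter.2 ⟨mem_univ _, by omega⟩
    rw [indK_of_mem hm, sg_self, hw]
  · have h1 := h x hx
    rw [sg_ne hx]
    by_cases h0 : 0 < e x
    · have hm : x ∈ univ.filter (fun x => 0 < e x) := mem_filter.2 ⟨mem_univ _, h0⟩
      rw [indK_of_mem hm]
      omega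
    · have hm : x ∉ univ.filter (fun x => 0 < e x) := by
        rw [mem_filter]
        rintro ⟨_, h2⟩
        exact h0 h2
      rw [indK_of_not hm]
      omega

/-- the types of configurations with slack at most one -/
def T1 (i : ℕ) (e : P → ℕ) : Prop := ∃ G, G ⊆ near P i ∧ e = indK G
def T2 (i : ℕ) (e : P → ℕ) : Prop := ∃ F w, Dj i F ∧ w ∈ F ∧ e = indK F + sg w
def T3 (i : ℕ) (e : P → ℕ) : Prop := ∃ v G, v ∈ lv P i ∧ G ⊆ dbL P i ∪ dbU P i ∧
  e = indK (insert v G)
def T4 (i : ℕ) (e : P → ℕ) : Prop := ∃ z F, lev z = i + 2 ∧ uc z ⊆ F ∧ Dj i F ∧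
  e = indK (insert z F)
def T5 (i : ℕ) (e : P → ℕ) : Prop := ∃ z F, lev z = i + 2 ∧ (uc z).card = 2 ∧ uc z ⊆ F ∧
  Dj i F ∧ e = indK (insert z F) + sg z
def T6 (i : ℕ) (e : P → ℕ) : Prop := ∃ x F, lev x + 2 = i ∧ (dc x).card = 1 ∧ dc x ⊆ F ∧
  Dj i F ∧ e = indK (insert x F)

theorem cls1 (H : Gr P r) {i : ℕ} (hi : i ≤ r) (h3 : ∀ x : P, lev x + 2 = i → dn i x ≤ 3)
    {e : P → ℕ} (hA : AdmL i e) (hB : AdmU i e) (hD : Disjoint (AL i e) (AU i e))
    (h : pL i e + pU i e + ∑ x, e x ≤ (AL i e).card + (AU i e).card + 1) :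
    T1 i e ∨ T2 i e ∨ T3 i e ∨ T4 i e ∨ T5 i e ∨ T6 i e := by
  classical
  have h1 := card_AL_le H hA
  have h2 := card_AU_le H hi hB
  have hs := kk_sum_parts i e
  have afL : (AL i e).card = ((lv P i).filter (fun v => aF uc e v)).card := by rw [AL_af]
  have afU : (AU i e).card = ((lv P i).filter (fun v => aF dc e v)).card := by rw [AU_af]
  have lev_near : ∀ x : P, (i < lev x → x ∉ lv P (i + 1) → i + 2 ≤ lev x) := by
    intro x hx hx1
    rw [mem_lv] at hx1
    omega
  rcases Nat.eq_zero_or_pos (∑ z ∈ lv P i, e z) with hV0 | hV0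
  · -- sites zero
    have hV : ∀ v ∈ lv P i, e v = 0 := Finset.sum_eq_zero_iff.1 hV0
    by_cases hU : pU i e + ∑ z ∈ sdU P i, e z ≤ (AU i e).card
    · -- upper slack zero
      obtain ⟨u1, u2, u3⟩ := forced_eq_case (lay_U H hi) (adm_U hB) hV (by
        rw [pU_fre, afU] at hU
        exact hU)
      have hL : pL i e + ∑ z ∈ sdL P i, e z ≤ (AL i e).card + 1 := by omega
      have hU2 : ∀ x, lev x < i → e x = 0 ∨ (e x = 1 ∧ x ∈ dbU P i) := by
        intro x hx
        by_cases hx1 : x ∈ lU P i 1
        · rcases u2 x hx1 with h5 | h5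
          · exact Or.inl h5
          · exact Or.inr ⟨h5.1, mem_dbU.2 ⟨mem_lU.1 hx1, h5.2⟩⟩
        · exact Or.inl (u1 x (mem_sdU.2 hx) hx1)
      rcases slack1 (lay_L H i) (lay4_L H i) (adm_L hA) hV (by
          rw [pL_fre, afL] at hL
          exact hL) with ⟨l1, l2⟩ | ⟨l1, l2, w0, hw0, hw2, hwc, l3⟩ |
          ⟨l1, l2, z0, hz0, hz1, l3, l4⟩
      · left
        refine ⟨univ.filter (fun x => 0 < e x), ?_, eq_ind ?_⟩
        · intro x hx
          rw [mem_filter] at hx
          rw [mem_near]
          rcases Nat.lt_trichotomy (lev x) i with h4 | h4 | h4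
          · rcases hU2 x h4 with h5 | h5
            · omega
            · exact Or.inr (mem_dbU.1 h5.2).1
          · have := hV x (mem_lv.2 h4)
            omega
          · left
            by_contra h5
            have := l1 x (mem_sdL.2 h4) (fun h6 => h5 (mem_lv.1 h6))
            omega
        · intro x
          rcases Nat.lt_trichotomy (lev x) i with h4 | h4 | h4
          · rcases hU2 x h4 with h5 | h5 <;> omega
          · have := hV x (mem_lv.2 h4)
            omega
          · by_cases h6 : x ∈ lv P (i + 1)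
            · exact l2 x h6
            · have := l1 x (mem_sdL.2 h4) h6
              omega
      · right; left
        have hne : ∀ x, x ≠ w0 → e x = 0 ∨ (e x = 1 ∧ x ∈ dbL P i ∪ dbU P i) := by
          intro x hx
          rcases Nat.lt_trichotomy (lev x) i with h4 | h4 | h4
          · rcases hU2 x h4 with h5 | h5
            · exact Or.inl h5
            · exact Or.inr ⟨h5.1, mem_union_right _ h5.2⟩
          · exact Or.inl (hV x (mem_lv.2 h4))
          · by_cases h6 : x ∈ lv P (i + 1)
            · rcases l3 x h6 hx with h5 | h5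
              · exact Or.inl h5
              · exact Or.inr ⟨h5.1, mem_union_left _ (mem_dbL.2 ⟨mem_lv.1 h6, h5.2⟩)⟩
            · exact Or.inl (l1 x (mem_sdL.2 h4) h6)
        refine ⟨univ.filter (fun x => 0 < e x), w0, ?_, mem_filter.2 ⟨mem_univ _, by omega⟩,
          eq_ind_sg hw2 (fun x hx => by rcases hne x hx with h5 | h5 <;> omega)⟩
        refine mkDj H hV hD l2 u3 ?_ (fun x hx => (mem_filter.1 hx).2)
        intro x hx
        rw [mem_filter] at hx
        by_cases h5 : x = w0
        · subst h5
          exact mem_union_left _ (mem_dbL.2 ⟨mem_lv.1 hw0, hwc⟩)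
        · rcases hne x h5 with h6 | h6
          · omega
          · exact h6.2
      · have hne : ∀ x, x ≠ z0 → e x = 0 ∨ (e x = 1 ∧ x ∈ dbL P i ∪ dbU P i) := by
          intro x hx
          rcases Nat.lt_trichotomy (lev x) i with h4 | h4 | h4
          · rcases hU2 x h4 with h5 | h5
            · exact Or.inl h5
            · exact Or.inr ⟨h5.1, mem_union_right _ h5.2⟩
          · exact Or.inl (hV x (mem_lv.2 h4))
          · by_cases h6 : x ∈ lv P (i + 1)
            · rcases l1 x h6 with h5 | h5
              · exact Or.inl h5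
              · exact Or.inr ⟨h5.1, mem_union_left _ (mem_dbL.2 ⟨mem_lv.1 h6, h5.2⟩)⟩
            · exact Or.inl (l3 x (mem_sdL.2 h4) h6 hx)
        have hF : (univ.filter (fun x => 0 < e x)).erase z0 ⊆ dbL P i ∪ dbU P i := by
          intro x hx
          rw [mem_erase, mem_filter] at hx
          rcases hne x hx.1 with h6 | h6
          · omega
          · exact h6.2
        have hDj : Dj i ((univ.filter (fun x => 0 < e x)).erase z0) :=
          mkDj H hV hD l2 u3 hF (fun x hx => (mem_filter.1 (mem_erase.1 hx).2).2)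
        have hzm : z0 ∈ univ.filter (fun x => 0 < e x) := mem_filter.2 ⟨mem_univ _, by omega⟩
        have hsub : uc z0 ⊆ (univ.filter (fun x => 0 < e x)).erase z0 := by
          intro y hy
          rw [mem_erase, mem_filter]
          refine ⟨?_, mem_univ _, l4 y hy⟩
          rintro rfl
          have := lev_uc H hy
          omega
        have hins : insert z0 ((univ.filter (fun x => 0 < e x)).erase z0) =
            univ.filter (fun x => 0 < e x) := insert_erase hzm
        rw [mem_lv] at hz0
        rcases hz1 with hz1 | hz1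
        · right; right; right; left
          refine ⟨z0, _, hz0, hsub, hDj, ?_⟩
          rw [hins]
          refine eq_ind (fun x => ?_)
          by_cases h5 : x = z0
          · subst h5
            omega
          · rcases hne x h5 with h6 | h6 <;> omega
        · right; right; right; right; left
          refine ⟨z0, _, hz0, hz1.2, hsub, hDj, ?_⟩
          rw [hins]
          exact eq_ind_sg hz1.1 (fun x hx => by rcases hne x hx with h5 | h5 <;> omega)
    · -- upper slack one
      have hU1 : pU i e + ∑ z ∈ sdU P i, e z ≤ (AU i e).card + 1 := by omega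
      have hL0 : pL i e + ∑ z ∈ sdL P i, e z ≤ (AL i e).card := by omega
      obtain ⟨l1, l2, l3⟩ := forced_eq_case (lay_L H i) (adm_L hA) hV (by
        rw [pL_fre, afL] at hL0
        exact hL0)
      have hL2 : ∀ x, i < lev x → e x = 0 ∨ (e x = 1 ∧ x ∈ dbL P i) := by
        intro x hx
        by_cases hx1 : x ∈ lv P (i + 1)
        · rcases l2 x hx1 with h5 | h5
          · exact Or.inl h5
          · exact Or.inr ⟨h5.1, mem_dbL.2 ⟨mem_lv.1 hx1, h5.2⟩⟩
        · exact Or.inl (l1 x (mem_sdL.2 hx) hx1)
      rcases slack1 (lay_U H hi) (lay4_U H i) (adm_U hB) hV (by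
          rw [pU_fre, afU] at hU1
          exact hU1) with ⟨u1, u2⟩ | ⟨u1, u2, w0, hw0, hw2, hwc, u3⟩ |
          ⟨u1, u2, z0, hz0, hz1, u3, u4⟩
      · left
        refine ⟨univ.filter (fun x => 0 < e x), ?_, eq_ind ?_⟩
        · intro x hx
          rw [mem_filter] at hx
          rw [mem_near]
          rcases Nat.lt_trichotomy (lev x) i with h4 | h4 | h4
          · right
            by_contra h5
            have := u1 x (mem_sdU.2 h4) (fun h6 => h5 (mem_lU.1 h6))
            omega
          · have := hV x (mem_lv.2 h4)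
            omega
          · rcases hL2 x h4 with h5 | h5
            · omega
            · exact Or.inl (mem_dbL.1 h5.2).1
        · intro x
          rcases Nat.lt_trichotomy (lev x) i with h4 | h4 | h4
          · by_cases h6 : x ∈ lU P i 1
            · exact u2 x h6
            · have := u1 x (mem_sdU.2 h4) h6
              omega
          · have := hV x (mem_lv.2 h4)
            omega
          · rcases hL2 x h4 with h5 | h5 <;> omega
      · right; left
        have hne : ∀ x, x ≠ w0 → e x = 0 ∨ (e x = 1 ∧ x ∈ dbL P i ∪ dbU P i) := by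
          intro x hx
          rcases Nat.lt_trichotomy (lev x) i with h4 | h4 | h4
          · by_cases h6 : x ∈ lU P i 1
            · rcases u3 x h6 hx with h5 | h5
              · exact Or.inl h5
              · exact Or.inr ⟨h5.1, mem_union_right _ (mem_dbU.2 ⟨mem_lU.1 h6, h5.2⟩)⟩
            · exact Or.inl (u1 x (mem_sdU.2 h4) h6)
          · exact Or.inl (hV x (mem_lv.2 h4))
          · rcases hL2 x h4 with h5 | h5
            · exact Or.inl h5
            · exact Or.inr ⟨h5.1, mem_union_left _ h5.2⟩
        refine ⟨univ.filter (fun x => 0 < e x), w0, ?_, mem_filter.2 ⟨mem_univ _, by omega⟩,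
          eq_ind_sg hw2 (fun x hx => by rcases hne x hx with h5 | h5 <;> omega)⟩
        refine mkDj H hV hD l3 u2 ?_ (fun x hx => (mem_filter.1 hx).2)
        intro x hx
        rw [mem_filter] at hx
        by_cases h5 : x = w0
        · subst h5
          exact mem_union_right _ (mem_dbU.2 ⟨mem_lU.1 hw0, hwc⟩)
        · rcases hne x h5 with h6 | h6
          · omega
          · exact h6.2
      · have hne : ∀ x, x ≠ z0 → e x = 0 ∨ (e x = 1 ∧ x ∈ dbL P i ∪ dbU P i) := by
          intro x hx
          rcases Nat.lt_trichotomy (lev x) i with h4 | h4 | h4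
          · by_cases h6 : x ∈ lU P i 1
            · rcases u1 x h6 with h5 | h5
              · exact Or.inl h5
              · exact Or.inr ⟨h5.1, mem_union_right _ (mem_dbU.2 ⟨mem_lU.1 h6, h5.2⟩)⟩
            · exact Or.inl (u3 x (mem_sdU.2 h4) h6 hx)
          · exact Or.inl (hV x (mem_lv.2 h4))
          · rcases hL2 x h4 with h5 | h5
            · exact Or.inl h5
            · exact Or.inr ⟨h5.1, mem_union_left _ h5.2⟩
        have hF : (univ.filter (fun x => 0 < e x)).erase z0 ⊆ dbL P i ∪ dbU P i := by
          intro x hx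
          rw [mem_erase, mem_filter] at hx
          rcases hne x hx.1 with h6 | h6
          · omega
          · exact h6.2
        have hDj : Dj i ((univ.filter (fun x => 0 < e x)).erase z0) :=
          mkDj H hV hD l3 u2 hF (fun x hx => (mem_filter.1 (mem_erase.1 hx).2).2)
        have hzm : z0 ∈ univ.filter (fun x => 0 < e x) := mem_filter.2 ⟨mem_univ _, by omega⟩
        have hsub : dc z0 ⊆ (univ.filter (fun x => 0 < e x)).erase z0 := by
          intro y hy
          rw [mem_erase, mem_filter]
          refine ⟨?_, mem_univ _, u4 y hy⟩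
          rintro rfl
          have := lev_dc H hy
          omega
        have hins : insert z0 ((univ.filter (fun x => 0 < e x)).erase z0) =
            univ.filter (fun x => 0 < e x) := insert_erase hzm
        rw [mem_lU] at hz0
        have hcard : (dc z0).card = 1 := by
          have h5 : (dc z0).Nonempty := dc_nonempty H (by omega)
          have h6 := dc_card_le H z0
          have h7 := Finset.card_pos.2 h5
          by_contra h8
          have h9 : (dc z0).card = 2 := by omega
          obtain ⟨a, b, hab, hab2⟩ := card_eq_two.1 h9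
          have ha : a ∈ dc z0 := by rw [hab2]; simp
          have hb : b ∈ dc z0 := by rw [hab2]; simp
          have h10 := hDj.2 a (hsub ha) b (hsub hb) hab
          have h11 : ns i a ∪ ns i b ⊆ stD i z0 := by
            intro v hv
            rw [mem_stD_iff H hz0]
            have la := lev_dc H ha
            have lb := lev_dc H hb
            have ha2 : a ∈ dbU P i := by
              rcases mem_union.1 (hF (hsub ha)) with h12 | h12
              · have := (mem_dbL.1 h12).1
                omega
              · exact h12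
            have hb2 : b ∈ dbU P i := by
              rcases mem_union.1 (hF (hsub hb)) with h12 | h12
              · have := (mem_dbL.1 h12).1
                omega
              · exact h12
            rw [ns_U ha2, ns_U hb2] at hv
            rcases mem_union.1 hv with h12 | h12
            · exact ⟨a, ha, h12⟩
            · exact ⟨b, hb, h12⟩
          have h12 := card_le_card h11
          rw [card_union_of_disjoint h10, ns_card (hF (hsub ha)), ns_card (hF (hsub hb)),
            card_stD] at h12
          have := h3 z0 hz0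
          omega
        right; right; right; right; right
        have he1 : e z0 = 1 := by omega
        refine ⟨z0, _, hz0, hcard, hsub, hDj, ?_⟩
        rw [hins]
        refine eq_ind (fun x => ?_)
        by_cases h5 : x = z0
        · subst h5
          omega
        · rcases hne x h5 with h6 | h6 <;> omega
  · -- one site raised
    have hV1 : ∀ v ∈ lv P i, e v ≤ 1 := by
      intro v hv
      have := single_le_sum (f := e) (fun _ _ => Nat.zero_le _) hv
      omega
    obtain ⟨l1, l2⟩ := slack0 (lay_L H i) (adm_L hA) hV1 (by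
      have : pL i e + ∑ z ∈ sdL P i, e z ≤ (AL i e).card := by omega
      rw [pL_fre, afL] at this
      exact this)
    obtain ⟨u1, u2⟩ := slack0 (lay_U H hi) (adm_U hB) hV1 (by
      have : pU i e + ∑ z ∈ sdU P i, e z ≤ (AU i e).card := by omega
      rw [pU_fre, afU] at this
      exact this)
    obtain ⟨v0, hv0, hne0⟩ : ∃ v ∈ lv P i, e v ≠ 0 := by
      by_contra hcon
      push Not at hcon
      rw [Finset.sum_eq_zero hcon] at hV0
      omega
    have hv1 := hV1 v0 hv0
    have hne : ∀ x, x ≠ v0 → e x = 0 ∨ (e x = 1 ∧ x ∈ dbL P i ∪ dbU P i) := by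
      intro x hx
      rcases Nat.lt_trichotomy (lev x) i with h4 | h4 | h4
      · by_cases h6 : x ∈ lU P i 1
        · rcases u2 x h6 with h5 | h5
          · exact Or.inl h5
          · exact Or.inr ⟨h5.1, mem_union_right _ (mem_dbU.2 ⟨mem_lU.1 h6, h5.2⟩)⟩
        · exact Or.inl (u1 x (mem_sdU.2 h4) h6)
      · left
        by_contra h5
        have h6 := two_le_sum (t := e) (mem_lv.2 h4) hv0 hx
        omega
      · by_cases h6 : x ∈ lv P (i + 1)
        · rcases l2 x h6 with h5 | h5
          · exact Or.inl h5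
          · exact Or.inr ⟨h5.1, mem_union_left _ (mem_dbL.2 ⟨mem_lv.1 h6, h5.2⟩)⟩
        · exact Or.inl (l1 x (mem_sdL.2 h4) h6)
    right; right; left
    refine ⟨v0, (univ.filter (fun x => 0 < e x)).erase v0, hv0, ?_, ?_⟩
    · intro x hx
      rw [mem_erase, mem_filter] at hx
      rcases hne x hx.1 with h6 | h6
      · omega
      · exact h6.2
    · rw [insert_erase (mem_filter.2 ⟨mem_univ _, by omega⟩)]
      refine eq_ind (fun x => ?_)
      by_cases h5 : x = v0
      · subst h5
        exact hv1
      · rcases hne x h5 with h6 | h6 <;> omega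

end T6N
end Pool.Agent.GaussPoset.Win
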