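import Pool.Agent.W_448t6_h94.TsB

/-! Terms of the configurations supported near the window (MP_448cb3_co). -/

namespace Pool.Agent.GaussPoset.Win
namespace T6N

set_option linter.unusedSectionVars false

open Finset

universe u

section coeffs

lemma c1_mul (y z : A) : PowerSeries.coeff 1 (y * z) =
    PowerSeries.coeff 1 y * PowerSeries.constantCoeff z +
      PowerSeries.constantCoeff y * PowerSeries.coeff 1 z := by
  rw [PowerSeries.coeff_mul, Finset.Nat.sum_antidiagonal_eq_sum_range_succ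
    (fun a b => PowerSeries.coeff a y * PowerSeries.coeff b z) 1, sum_range_succ, sum_range_one]
  simp only [PowerSeries.coeff_zero_eq_constantCoeff, Nat.sub_zero, Nat.sub_self]
  ring

lemma c1_xx : PowerSeries.coeff 1 xx = (1 : ℤ) := by
  unfold xx dd
  rw [map_sub, PowerSeries.coeff_one_X, PowerSeries.coeff_one]
  norm_num

lemma c1_xi : PowerSeries.coeff 1 xi = (-1 : ℤ) := by
  unfold xi
  rw [map_neg, PowerSeries.coeff_mk]

lemma c1_xx_pow (m : ℕ) : PowerSeries.coeff 1 (xx ^ m) = -(m : ℤ) * (-1) ^ m := by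
  induction m with
  | zero =>
    rw [pow_zero, PowerSeries.coeff_one]
    norm_num
  | succ m ih =>
    rw [pow_succ, c1_mul, ih, map_pow, cc_xx, c1_xx]
    push_cast
    ring

lemma c1_xi_pow (m : ℕ) : PowerSeries.coeff 1 (xi ^ m) = (m : ℤ) * (-1) ^ m := by
  induction m with
  | zero =>
    rw [pow_zero, PowerSeries.coeff_one]
    norm_num
  | succ m ih =>
    rw [pow_succ, c1_mul, ih, map_pow, cc_xi, c1_xi]
    push_cast
    ring

lemma cf_dd (m k : ℕ) (y : A) : PowerSeries.coeff (k + m) (dd ^ m * y) = PowerSeries.coeff k y := by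
  unfold dd
  rw [PowerSeries.coeff_X_pow_mul]

lemma cf_dd_lt {m k : ℕ} (h : k < m) (y : A) : PowerSeries.coeff k (dd ^ m * y) = 0 := by
  unfold dd
  rw [PowerSeries.coeff_X_pow_mul', if_neg (by omega)]

lemma cf_dvd {m k : ℕ} (h : k < m) {y : A} (hy : dd ^ m ∣ y) : PowerSeries.coeff k y = 0 := by
  obtain ⟨c, rfl⟩ := hy
  exact cf_dd_lt h c

end coeffs

variable {P : Type u} [Fintype P] [PartialOrder P] [DecidableEq P] {r : ℕ}

/-- near elements below -/
noncomputable def gL (i : ℕ) (G : Finset P) : Finset P := G.filter (fun x => lev x = i + 1)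

/-- near elements above -/
noncomputable def gU (i : ℕ) (G : Finset P) : Finset P := G.filter (fun x => lev x + 1 = i)

lemma mem_gL {i : ℕ} {G : Finset P} {x : P} : x ∈ gL i G ↔ x ∈ G ∧ lev x = i + 1 := by
  unfold gL; rw [mem_filter]

lemma mem_gU {i : ℕ} {G : Finset P} {x : P} : x ∈ gU i G ↔ x ∈ G ∧ lev x + 1 = i := by
  unfold gU; rw [mem_filter]

lemma nsl {i : ℕ} {x : P} (h : lev x = i + 1) : ns i x = uc x := by
  unfold ns; rw [if_pos h]

lemma nsu {i : ℕ} {x : P} (h : lev x + 1 = i) : ns i x = dc x := by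
  unfold ns; rw [if_neg (by omega)]

lemma ns_lv (H : Gr P r) {i : ℕ} {x v : P} (hx : x ∈ near P i) (hv : v ∈ ns i x) : lev v = i := by
  rcases mem_near.1 hx with h | h
  · rw [nsl h] at hv
    have := lev_uc H hv
    omega
  · rw [nsu h] at hv
    have := lev_dc H hv
    omega

lemma ns_le2 (H : Gr P r) {i : ℕ} (x : P) : (ns i x).card ≤ 2 := by
  unfold ns
  split_ifs
  · exact uc_card_le H x
  · exact dc_card_le H x

lemma ns_ne (H : Gr P r) {i : ℕ} (hi : i ≤ r) {x : P} (hx : x ∈ near P i) : (ns i x).Nonempty := by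
  rcases mem_near.1 hx with h | h
  · rw [nsl h]
    exact uc_nonempty H (by omega)
  · rw [nsu h]
    exact dc_nonempty H (by omega)

lemma dbl_iff {i : ℕ} {x : P} (hx : x ∈ near P i) : x ∈ dbL P i ∪ dbU P i ↔ (ns i x).card = 2 := by
  rw [mem_union, mem_dbL, mem_dbU]
  rcases mem_near.1 hx with h | h
  · rw [nsl h]
    constructor
    · rintro (h1 | h1)
      · exact h1.2
      · omega
    · exact fun h1 => Or.inl ⟨h, h1⟩
  · rw [nsu h]
    constructor
    · rintro (h1 | h1)
      · omega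
      · exact h1.2
    · exact fun h1 => Or.inr ⟨h, h1⟩

lemma dbl_near {i : ℕ} : dbL P i ∪ dbU P i ⊆ near P i := by
  intro x hx
  rw [mem_near]
  rcases mem_union.1 hx with h | h
  · exact Or.inl (mem_dbL.1 h).1
  · exact Or.inr (mem_dbU.1 h).1

section GW

variable {i : ℕ} {G W : Finset P}

lemma GW_lev (hG : G ⊆ near P i) (hW : W ⊆ lv P i) {x : P} (hx : x ∈ G ∪ W) :
    lev x = i + 1 ∨ lev x + 1 = i ∨ lev x = i := by
  rcases mem_union.1 hx with h | h
  · have := mem_near.1 (hG h)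
    tauto
  · have := mem_lv.1 (hW h)
    tauto

lemma GW_FD (H : Gr P r) (hG : G ⊆ near P i) (hW : W ⊆ lv P i) {z : P} (hz : i < lev z) :
    ¬ FD (indK (G ∪ W)) z := by
  rintro ⟨z', hz', hlt⟩
  have h1 := (H.covBy_iff.1 hz').2
  have h2 : z' ∈ G ∪ W := indK_pos.1 (by omega)
  have := GW_lev hG hW h2
  omega

lemma GW_FU (H : Gr P r) (hG : G ⊆ near P i) (hW : W ⊆ lv P i) {z : P} (hz : lev z < i) :
    ¬ FU (indK (G ∪ W)) z := by
  rintro ⟨z', hz', hlt⟩
  have h1 := (H.covBy_iff.1 hz').2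
  have h2 : z' ∈ G ∪ W := indK_pos.1 (by omega)
  have := GW_lev hG hW h2
  omega

lemma GW_free_L (H : Gr P r) (hG : G ⊆ near P i) (hW : W ⊆ lv P i) {z : P} (hz : i < lev z) :
    ¬ GU (indK (G ∪ W)) z ↔ z ∈ gL i G ∧ Disjoint (ns i z) W := by
  constructor
  · intro h
    have hzG : z ∈ G ∪ W := by
      by_contra h1
      apply h
      obtain ⟨y, hy⟩ := uc_nonempty H (x := z) (by omega)
      refine ⟨y, mem_uc.1 hy, ?_⟩
      rw [indK_of_not h1]
      exact Nat.zero_le _
    have hz2 : z ∈ G := by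
      rcases mem_union.1 hzG with h1 | h1
      · exact h1
      · have := mem_lv.1 (hW h1)
        omega
    have hz1 : lev z = i + 1 := by
      have := mem_near.1 (hG hz2)
      omega
    refine ⟨mem_gL.2 ⟨hz2, hz1⟩, ?_⟩
    rw [disjoint_left]
    intro y hy hyW
    rw [nsl hz1] at hy
    apply h
    refine ⟨y, mem_uc.1 hy, ?_⟩
    rw [indK_of_mem hzG, indK_of_mem (mem_union_right _ hyW)]
  · rintro ⟨h1, h2⟩ ⟨y, hy, hle⟩
    rw [mem_gL] at h1
    rw [indK_of_mem (mem_union_left _ h1.1)] at hle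
    have h3 : y ∈ G ∪ W := indK_pos.1 (by omega)
    have h4 := (H.covBy_iff.1 hy).2
    rcases mem_union.1 h3 with h5 | h5
    · have := mem_near.1 (hG h5)
      omega
    · refine disjoint_left.1 h2 ?_ h5
      rw [nsl h1.2]
      exact mem_uc.2 hy

lemma GW_free_U (H : Gr P r) (hi : i ≤ r) (hG : G ⊆ near P i) (hW : W ⊆ lv P i) {z : P}
    (hz : lev z < i) : ¬ GD (indK (G ∪ W)) z ↔ z ∈ gU i G ∧ Disjoint (ns i z) W := by
  constructor
  · intro h
    have hzG : z ∈ G ∪ W := by
      by_contra h1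
      apply h
      obtain ⟨y, hy⟩ := dc_nonempty H (x := z) (by omega)
      refine ⟨y, mem_dc.1 hy, ?_⟩
      rw [indK_of_not h1]
      exact Nat.zero_le _
    have hz2 : z ∈ G := by
      rcases mem_union.1 hzG with h1 | h1
      · exact h1
      · have := mem_lv.1 (hW h1)
        omega
    have hz1 : lev z + 1 = i := by
      have := mem_near.1 (hG hz2)
      omega
    refine ⟨mem_gU.2 ⟨hz2, hz1⟩, ?_⟩
    rw [disjoint_left]
    intro y hy hyW
    rw [nsu hz1] at hy
    apply h
    refine ⟨y, mem_dc.1 hy, ?_⟩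
    rw [indK_of_mem hzG, indK_of_mem (mem_union_right _ hyW)]
  · rintro ⟨h1, h2⟩ ⟨y, hy, hle⟩
    rw [mem_gU] at h1
    rw [indK_of_mem (mem_union_left _ h1.1)] at hle
    have h3 : y ∈ G ∪ W := indK_pos.1 (by omega)
    have h4 := (H.covBy_iff.1 hy).2
    rcases mem_union.1 h3 with h5 | h5
    · have := mem_near.1 (hG h5)
      omega
    · refine disjoint_left.1 h2 ?_ h5
      rw [nsu h1.2]
      exact mem_dc.2 hy

lemma GW_AL (H : Gr P r) (hG : G ⊆ near P i) (hW : W ⊆ lv P i) :
    AL i (indK (G ∪ W)) = (gL i G).biUnion (ns i) \ W := by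
  classical
  ext v
  unfold AL
  rw [mem_filter, mem_lv, mem_sdiff, mem_biUnion]
  unfold FD
  constructor
  · rintro ⟨hv, z', hz', hlt⟩
    have h1 := (H.covBy_iff.1 hz').2
    have h2 : z' ∈ G ∪ W := indK_pos.1 (by omega)
    have h4 : z' ∈ G := by
      rcases mem_union.1 h2 with h5 | h5
      · exact h5
      · have := mem_lv.1 (hW h5)
        omega
    refine ⟨⟨z', mem_gL.2 ⟨h4, by omega⟩, by rw [nsl (by omega)]; exact mem_uc.2 hz'⟩, ?_⟩
    intro hvW
    have h5 := indK_le (G ∪ W) z'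
    rw [indK_of_mem (mem_union_right _ hvW)] at hlt
    omega
  · rintro ⟨⟨w, hw, hv⟩, hvW⟩
    rw [mem_gL] at hw
    rw [nsl hw.2] at hv
    have h1 := lev_uc H hv
    refine ⟨by omega, w, mem_uc.1 hv, ?_⟩
    have h2 : v ∉ G ∪ W := by
      rw [mem_union]
      rintro (h3 | h3)
      · have := mem_near.1 (hG h3)
        omega
      · exact hvW h3
    rw [indK_of_mem (mem_union_left _ hw.1), indK_of_not h2]
    exact one_pos

lemma GW_AU (H : Gr P r) (hG : G ⊆ near P i) (hW : W ⊆ lv P i) :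
    AU i (indK (G ∪ W)) = (gU i G).biUnion (ns i) \ W := by
  classical
  ext v
  unfold AU
  rw [mem_filter, mem_lv, mem_sdiff, mem_biUnion]
  unfold FU
  constructor
  · rintro ⟨hv, z', hz', hlt⟩
    have h1 := (H.covBy_iff.1 hz').2
    have h2 : z' ∈ G ∪ W := indK_pos.1 (by omega)
    have h4 : z' ∈ G := by
      rcases mem_union.1 h2 with h5 | h5
      · exact h5
      · have := mem_lv.1 (hW h5)
        omega
    refine ⟨⟨z', mem_gU.2 ⟨h4, by omega⟩, by rw [nsu (by omega)]; exact mem_dc.2 hz'⟩, ?_⟩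
    intro hvW
    have h5 := indK_le (G ∪ W) z'
    rw [indK_of_mem (mem_union_right _ hvW)] at hlt
    omega
  · rintro ⟨⟨w, hw, hv⟩, hvW⟩
    rw [mem_gU] at hw
    rw [nsu hw.2] at hv
    have h1 := lev_dc H hv
    refine ⟨by omega, w, mem_dc.1 hv, ?_⟩
    have h2 : v ∉ G ∪ W := by
      rw [mem_union]
      rintro (h3 | h3)
      · have := mem_near.1 (hG h3)
        omega
      · exact hvW h3
    rw [indK_of_mem (mem_union_left _ hw.1), indK_of_not h2]
    exact one_pos

/-- the term of a configuration near the window -/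
theorem trm_GW (H : Gr P r) (hi : i ≤ r) (hG : G ⊆ near P i) (hW : W ⊆ lv P i) :
    trm i (indK (G ∪ W)) =
      if Disjoint ((gL i G).biUnion (ns i) \ W) ((gU i G).biUnion (ns i) \ W) then
        xi ^ ((gU i G).filter (fun x => Disjoint (ns i x) W)).card *
        dd ^ (((gL i G).filter (fun x => Disjoint (ns i x) W)).card +
          ((gU i G).filter (fun x => Disjoint (ns i x) W)).card) *
        (xx ^ ((gL i G).biUnion (ns i) \ W).card *
          dd ^ ((lv P i).card - ((gL i G).biUnion (ns i) \ W).card -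
            ((gU i G).biUnion (ns i) \ W).card))
      else 0 := by
  classical
  have hA : AdmL i (indK (G ∪ W)) := fun z hz h1 => GW_FD H hG hW hz h1.1
  have hB : AdmU i (indK (G ∪ W)) := fun z hz h1 => GW_FU H hG hW hz h1.1
  have haL : aL i (indK (G ∪ W)) = 0 := by
    unfold aL
    rw [card_eq_zero, filter_eq_empty_iff]
    rintro z _ ⟨h1, h2⟩
    exact GW_FD H hG hW h1 h2
  have haU : aU i (indK (G ∪ W)) = 0 := by
    unfold aU
    rw [card_eq_zero, filter_eq_empty_iff]
    rintro z _ ⟨h1, h2⟩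
    exact GW_FU H hG hW h1 h2
  have hpL : pL i (indK (G ∪ W)) = ((gL i G).filter (fun x => Disjoint (ns i x) W)).card := by
    unfold pL
    congr 1
    ext z
    rw [mem_filter, mem_filter]
    constructor
    · rintro ⟨_, h1, h2, h3⟩
      exact (GW_free_L H hG hW h1).1 h3
    · intro h1
      have h2 : i < lev z := by
        have := (mem_gL.1 h1.1).2
        omega
      exact ⟨mem_univ _, h2, GW_FD H hG hW h2, (GW_free_L H hG hW h2).2 h1⟩
  have hpU : pU i (indK (G ∪ W)) = ((gU i G).filter (fun x => Disjoint (ns i x) W)).card := by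
    unfold pU
    congr 1
    ext z
    rw [mem_filter, mem_filter]
    constructor
    · rintro ⟨_, h1, h2, h3⟩
      exact (GW_free_U H hi hG hW h1).1 h3
    · intro h1
      have h2 : lev z < i := by
        have := (mem_gU.1 h1.1).2
        omega
      exact ⟨mem_univ _, h2, GW_FU H hG hW h2, (GW_free_U H hi hG hW h2).2 h1⟩
  have hAB : AdmL i (indK (G ∪ W)) ∧ AdmU i (indK (G ∪ W)) := ⟨hA, hB⟩
  unfold trm cw
  rw [GW_AL H hG hW, GW_AU H hG hW, if_pos hAB, haL, haU, hpL, hpU]
  rw [pow_zero, one_mul, zero_add]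

end GW

end T6N
end Pool.Agent.GaussPoset.Win
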