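import Pool.Agent.W_448t6_h94.TsC
import Pool.Agent.W_448kk_h94.KkD

/-! Coefficients of the configurations with slack at most one (MP_448cb3_co). -/

namespace Pool.Agent.GaussPoset.Win
namespace T6N

set_option linter.unusedSectionVars false

open Finset

universe u

variable {P : Type u} [Fintype P] [PartialOrder P] [DecidableEq P] {r : ℕ}

/-- the coefficient of `dd ^ (b - n + 1)` -/
noncomputable def KK (i n : ℕ) (e : P → ℕ) : ℤ :=
  PowerSeries.coeff ((lv P i).card - n + 1) (trm i e)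

/-- the sign of a family -/
noncomputable def eps (i : ℕ) (F : Finset P) : ℤ := ∏ x ∈ F, sgn i x

lemma eps_eq (i : ℕ) (F : Finset P) : eps i F = (-1 : ℤ) ^ (F ∩ dbU P i).card := prod_sgn i F

section vals

variable {i : ℕ}

lemma c1_y (c a : ℕ) : PowerSeries.coeff 1 (xi ^ c * xx ^ (2 * a)) =
    (-1 : ℤ) ^ c * ((c : ℤ) - 2 * a) := by
  have h1 : PowerSeries.constantCoeff (xx ^ (2 * a)) = (1 : ℤ) := by
    rw [map_pow, cc_xx, pow_mul]
    norm_num
  have h2 : PowerSeries.constantCoeff (xi ^ c) = (-1 : ℤ) ^ c := by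
    rw [map_pow, cc_xi]
  rw [c1_mul, c1_xi_pow, c1_xx_pow, h1, h2, pow_mul]
  push_cast
  norm_num
  ring

/-- value at a disjoint family -/
lemma KK_F (H : Gr P r) (hi : i ≤ r) {F : Finset P} (h : Dj i F) {n : ℕ} (hn : F.card = n) :
    KK i n (indK F) = eps i F * (3 * ((F ∩ dbU P i).card : ℤ) - 2 * n) := by
  have h2 := Dj_two_le H h
  have h4 := Dj_card h
  unfold KK
  rw [trm_ind H hi h, hn, add_comm ((lv P i).card - n) 1, cf_dd, c1_y, eps_eq]
  have h5 : (n : ℤ) = ((F ∩ dbL P i).card : ℤ) + (F ∩ dbU P i).card := by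
    rw [← hn, h4]
    push_cast
    ring
  rw [h5]
  ring

/-- value at a disjoint family with one energy more -/
lemma KK_F1 (H : Gr P r) (hi : i ≤ r) {F : Finset P} (h : Dj i F) {n : ℕ} (hn : F.card + 1 = n)
    (hF : F.Nonempty) : KK i n (indK F) = eps i F := by
  have h2 := Dj_two_le H h
  have h3 := card_pos.2 hF
  unfold KK
  rw [trm_ind H hi h, show (lv P i).card - n + 1 = 0 + ((lv P i).card - F.card) by omega, cf_dd,
    PowerSeries.coeff_zero_eq_constantCoeff, map_mul, map_pow, map_pow, cc_xi, cc_xx, eps_eq,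
    pow_mul]
  norm_num

lemma gLU (H : Gr P r) {G : Finset P} (hG : G ⊆ near P i) :
    (gL i G).card + (gU i G).card = G.card := by
  rw [← card_union_of_disjoint]
  · congr 1
    ext x
    rw [mem_union, mem_gL, mem_gU]
    constructor
    · rintro (h | h) <;> exact h.1
    · intro h
      have := mem_near.1 (hG h)
      tauto
  · rw [disjoint_left]
    intro x h1 h2
    rw [mem_gL] at h1
    rw [mem_gU] at h2
    omega

lemma gLU_bi (H : Gr P r) {G : Finset P} (hG : G ⊆ near P i) :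
    (gL i G).biUnion (ns i) ∪ (gU i G).biUnion (ns i) = G.biUnion (ns i) := by
  ext v
  rw [mem_union, mem_biUnion, mem_biUnion, mem_biUnion]
  constructor
  · rintro (⟨x, hx, hv⟩ | ⟨x, hx, hv⟩)
    · exact ⟨x, (mem_gL.1 hx).1, hv⟩
    · exact ⟨x, (mem_gU.1 hx).1, hv⟩
  · rintro ⟨x, hx, hv⟩
    rcases mem_near.1 (hG hx) with h | h
    · exact Or.inl ⟨x, mem_gL.2 ⟨hx, h⟩, hv⟩
    · exact Or.inr ⟨x, mem_gU.2 ⟨hx, h⟩, hv⟩

lemma bi_sub (H : Gr P r) {G : Finset P} (hG : G ⊆ near P i) : G.biUnion (ns i) ⊆ lv P i := by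
  rw [biUnion_subset]
  intro x hx v hv
  exact mem_lv.2 (ns_lv H (hG hx) hv)

/-- the two sides of `G` are disjoint -/
def Sds (i : ℕ) (G : Finset P) : Prop :=
  Disjoint ((gL i G).biUnion (ns i)) ((gU i G).biUnion (ns i))

/-- a near set: term -/
lemma trm_G (H : Gr P r) (hi : i ≤ r) {G : Finset P} (hG : G ⊆ near P i) (hS : Sds i G) :
    trm i (indK G) = dd ^ ((lv P i).card + G.card - (G.biUnion (ns i)).card) *
      (xi ^ (gU i G).card * xx ^ ((gL i G).biUnion (ns i)).card) := by
  have h := trm_GW H hi hG (empty_subset (lv P i))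
  unfold Sds at hS
  rw [union_empty, sdiff_empty, sdiff_empty, if_pos hS,
    filter_true_of_mem (fun x _ => disjoint_empty_right _),
    filter_true_of_mem (fun x _ => disjoint_empty_right _)] at h
  rw [h]
  have h1 := gLU H hG
  have h2 : ((gL i G).biUnion (ns i)).card + ((gU i G).biUnion (ns i)).card =
      (G.biUnion (ns i)).card := by
    rw [← card_union_of_disjoint hS, gLU_bi H hG]
  have h3 := card_le_card (bi_sub H hG)
  rw [show (lv P i).card + G.card - (G.biUnion (ns i)).card = ((gL i G).card + (gU i G).card) +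
    ((lv P i).card - ((gL i G).biUnion (ns i)).card - ((gU i G).biUnion (ns i)).card) by omega,
    pow_add dd ((gL i G).card + (gU i G).card)]
  ring

lemma trm_G_not (H : Gr P r) (hi : i ≤ r) {G : Finset P} (hG : G ⊆ near P i) (hS : ¬ Sds i G) :
    trm i (indK G) = 0 := by
  have h := trm_GW H hi hG (empty_subset (lv P i))
  unfold Sds at hS
  rw [union_empty, sdiff_empty, sdiff_empty, if_neg hS] at h
  exact h

/-- slack one -/
lemma KK_G1 (H : Gr P r) (hi : i ≤ r) {G : Finset P} (hG : G ⊆ near P i) (hS : Sds i G) {n : ℕ}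
    (hn : G.card = n) (hb : (G.biUnion (ns i)).card + 1 = 2 * n) :
    KK i n (indK G) = (-1) ^ ((gU i G).card + ((gL i G).biUnion (ns i)).card) := by
  have h3 := card_le_card (bi_sub H hG)
  have h5 : 1 ≤ n := by omega
  unfold KK
  rw [trm_G H hi hG hS, show (lv P i).card - n + 1 = 0 + ((lv P i).card + G.card -
    (G.biUnion (ns i)).card) by omega, cf_dd, PowerSeries.coeff_zero_eq_constantCoeff, map_mul,
    map_pow, map_pow, cc_xi, cc_xx, pow_add]

/-- slack at least two -/
lemma KK_G2 (H : Gr P r) (hi : i ≤ r) {G : Finset P} (hG : G ⊆ near P i) {n : ℕ}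
    (hn : G.card = n) (hnb : n ≤ (lv P i).card) (hb : (G.biUnion (ns i)).card + 2 ≤ 2 * n) :
    KK i n (indK G) = 0 := by
  by_cases hS : Sds i G
  · have h3 := card_le_card (bi_sub H hG)
    unfold KK
    rw [trm_G H hi hG hS, cf_dd_lt (by omega)]
  · unfold KK
    rw [trm_G_not H hi hG hS, map_zero]

lemma KK_G_not (H : Gr P r) (hi : i ≤ r) {G : Finset P} (hG : G ⊆ near P i) (hS : ¬ Sds i G)
    (n : ℕ) : KK i n (indK G) = 0 := by
  unfold KK
  rw [trm_G_not H hi hG hS, map_zero]

end vals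

end T6N
end Pool.Agent.GaussPoset.Win
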