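import Pool.Agent.W_448t6_h94.TsD

/-! Coefficients of the configurations with slack at most one, far elements (MP_448cb3_co). -/

namespace Pool.Agent.GaussPoset.Win
namespace T6N

set_option linter.unusedSectionVars false

open Finset

universe u

variable {P : Type u} [Fintype P] [PartialOrder P] [DecidableEq P] {r : ℕ}

lemma trm_congr {i : ℕ} {e e' : P → ℕ} (h1 : ∀ z, i ≤ lev z → (FD e z ↔ FD e' z))
    (h2 : ∀ z, i < lev z → (GU e z ↔ GU e' z)) (h3 : ∀ z, lev z ≤ i → (FU e z ↔ FU e' z))
    (h4 : ∀ z, lev z < i → (GD e z ↔ GD e' z)) : trm i e = trm i e' := by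
  classical
  have hAL : AL i e = AL i e' := by
    unfold AL
    ext v
    rw [mem_filter, mem_filter, mem_lv]
    constructor
    · rintro ⟨a, b⟩
      exact ⟨a, (h1 v a.ge).1 b⟩
    · rintro ⟨a, b⟩
      exact ⟨a, (h1 v a.ge).2 b⟩
  have hAU : AU i e = AU i e' := by
    unfold AU
    ext v
    rw [mem_filter, mem_filter, mem_lv]
    constructor
    · rintro ⟨a, b⟩
      exact ⟨a, (h3 v a.le).1 b⟩
    · rintro ⟨a, b⟩
      exact ⟨a, (h3 v a.le).2 b⟩
  have haL : aL i e = aL i e' := by
    unfold aL
    congr 1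
    ext z
    rw [mem_filter, mem_filter]
    constructor
    · rintro ⟨a, b, c⟩
      exact ⟨a, b, (h1 z b.le).1 c⟩
    · rintro ⟨a, b, c⟩
      exact ⟨a, b, (h1 z b.le).2 c⟩
  have haU : aU i e = aU i e' := by
    unfold aU
    congr 1
    ext z
    rw [mem_filter, mem_filter]
    constructor
    · rintro ⟨a, b, c⟩
      exact ⟨a, b, (h3 z b.le).1 c⟩
    · rintro ⟨a, b, c⟩
      exact ⟨a, b, (h3 z b.le).2 c⟩
  have hpL : pL i e = pL i e' := by
    unfold pL
    congr 1
    ext z
    rw [mem_filter, mem_filter]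
    constructor
    · rintro ⟨a, b, c, d⟩
      exact ⟨a, b, fun x => c ((h1 z b.le).2 x), fun x => d ((h2 z b).2 x)⟩
    · rintro ⟨a, b, c, d⟩
      exact ⟨a, b, fun x => c ((h1 z b.le).1 x), fun x => d ((h2 z b).1 x)⟩
  have hpU : pU i e = pU i e' := by
    unfold pU
    congr 1
    ext z
    rw [mem_filter, mem_filter]
    constructor
    · rintro ⟨a, b, c, d⟩
      exact ⟨a, b, fun x => c ((h3 z b.le).2 x), fun x => d ((h4 z b).2 x)⟩
    · rintro ⟨a, b, c, d⟩
      exact ⟨a, b, fun x => c ((h3 z b.le).1 x), fun x => d ((h4 z b).1 x)⟩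
  have hA : AdmL i e ↔ AdmL i e' := by
    unfold AdmL
    refine forall_congr' fun z => ?_
    refine forall_congr' fun hz => ?_
    rw [h1 z hz.le, h2 z hz]
  have hB : AdmU i e ↔ AdmU i e' := by
    unfold AdmU
    refine forall_congr' fun z => ?_
    refine forall_congr' fun hz => ?_
    rw [h3 z hz.le, h4 z hz]
  unfold trm cw
  rw [hAL, hAU, haL, haU, hpL, hpU]
  simp only [hA, hB]

section far

variable {i : ℕ} {F : Finset P}

lemma Dj_lev' (h : Dj i F) {x : P} (hx : 0 < indK F x) : lev x = i + 1 ∨ lev x + 1 = i :=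
  Dj_lev h (indK_pos.1 hx)

/-- label two on a near element of the family -/
lemma trm_F2 (H : Gr P r) (hi : i ≤ r) (h : Dj i F) {w : P} (hw : w ∈ F) :
    trm i (indK F + sg w) = trm i (indK F) := by
  have hw1 := Dj_lev h hw
  have hpos : ∀ x, 0 < (indK F + sg w) x ↔ x ∈ F := by
    intro x
    rw [Pi.add_apply]
    by_cases hx : x = w
    · subst hx
      rw [sg_self]
      constructor
      · exact fun _ => hw
      · intro _
        omega
    · rw [sg_ne hx, add_zero, indK_pos]
  have hz : ∀ x, x ∉ F → (indK F + sg w) x = 0 := by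
    intro x hx
    by_contra h1
    exact hx ((hpos x).1 (Nat.pos_of_ne_zero h1))
  refine trm_congr ?_ ?_ ?_ ?_
  · intro z hzl
    constructor
    · rintro ⟨z', hz', hlt⟩
      have h1 := (H.covBy_iff.1 hz').2
      have h2 : z' ∈ F := (hpos z').1 (by omega)
      have h3 := Dj_lev h h2
      refine ⟨z', hz', ?_⟩
      rw [indK_of_mem h2, Dj_site h (x := z) (by omega)]
      exact one_pos
    · rintro ⟨z', hz', hlt⟩
      have h1 := (H.covBy_iff.1 hz').2
      have h2 : z' ∈ F := indK_pos.1 (by omega)
      have h3 := Dj_lev h h2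
      refine ⟨z', hz', ?_⟩
      have h4 : z ∉ F := fun h5 => by
        have := Dj_lev h h5
        omega
      rw [hz z h4]
      exact (hpos z').2 h2
  · intro z hzl
    rw [Dj_GU H h hzl]
    constructor
    · rintro ⟨y, hy, hle⟩ hzF
      have h1 := (H.covBy_iff.1 hy).2
      have h2 := Dj_lev h hzF
      have h3 : y ∉ F := fun h5 => by
        have := Dj_lev h h5
        omega
      rw [hz y h3] at hle
      have := (hpos z).2 hzF
      omega
    · intro hzF
      obtain ⟨y, hy⟩ := uc_nonempty H (x := z) (by omega)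
      refine ⟨y, mem_uc.1 hy, ?_⟩
      rw [hz z hzF]
      exact Nat.zero_le _
  · intro z hzl
    constructor
    · rintro ⟨z', hz', hlt⟩
      have h1 := (H.covBy_iff.1 hz').2
      have h2 : z' ∈ F := (hpos z').1 (by omega)
      have h3 := Dj_lev h h2
      refine ⟨z', hz', ?_⟩
      rw [indK_of_mem h2, Dj_site h (x := z) (by omega)]
      exact one_pos
    · rintro ⟨z', hz', hlt⟩
      have h1 := (H.covBy_iff.1 hz').2
      have h2 : z' ∈ F := indK_pos.1 (by omega)
      have h3 := Dj_lev h h2
      refine ⟨z', hz', ?_⟩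
      have h4 : z ∉ F := fun h5 => by
        have := Dj_lev h h5
        omega
      rw [hz z h4]
      exact (hpos z').2 h2
  · intro z hzl
    rw [Dj_GD H hi h hzl]
    constructor
    · rintro ⟨y, hy, hle⟩ hzF
      have h1 := (H.covBy_iff.1 hy).2
      have h2 := Dj_lev h hzF
      have h3 : y ∉ F := fun h5 => by
        have := Dj_lev h h5
        omega
      rw [hz y h3] at hle
      have := (hpos z).2 hzF
      omega
    · intro hzF
      obtain ⟨y, hy⟩ := dc_nonempty H (x := z) (by omega)
      refine ⟨y, mem_dc.1 hy, ?_⟩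
      rw [hz z hzF]
      exact Nat.zero_le _

lemma ind_ins_ne {z x : P} (hx : x ≠ z) : indK (insert z F) x = indK F x := by
  by_cases h : x ∈ F
  · rw [indK_of_mem h, indK_of_mem (mem_insert_of_mem h)]
  · rw [indK_of_not h, indK_of_not]
    rw [mem_insert]
    rintro (h1 | h1)
    · exact hx h1
    · exact h h1

/-- a far lower element with label one -/
lemma trm_F4 (H : Gr P r) (h : Dj i F) {z : P} (hz : lev z = i + 2)
    (hzF : uc z ⊆ F) : trm i (indK (insert z F)) = trm i (indK F) := by
  have hzn : z ∉ F := fun h1 => by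
    have := Dj_lev h h1
    omega
  have hz1 : indK (insert z F) z = 1 := indK_of_mem (mem_insert_self _ _)
  have hlev : ∀ x, lev x ≠ i + 2 → x ≠ z := by
    rintro x hx rfl
    exact hx hz
  refine trm_congr ?_ ?_ ?_ ?_
  · intro y hy
    constructor
    · rintro ⟨z', hz', hlt⟩
      have h1 := (H.covBy_iff.1 hz').2
      have hne : z' ≠ z := by
        rintro rfl
        rw [indK_of_mem (mem_insert_of_mem (hzF (mem_uc.2 hz')))] at hlt
        have := indK_le (insert z' F) z'
        omega
      rw [ind_ins_ne hne] at hlt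
      refine ⟨z', hz', ?_⟩
      by_cases hyz : y = z
      · subst hyz
        rw [indK_of_not hzn]
        omega
      · rwa [ind_ins_ne hyz] at hlt
    · rintro ⟨z', hz', hlt⟩
      have h1 := (H.covBy_iff.1 hz').2
      have h2 : z' ∈ F := indK_pos.1 (by omega)
      have h3 := Dj_lev h h2
      refine ⟨z', hz', ?_⟩
      rw [ind_ins_ne (hlev z' (by omega)), ind_ins_ne (hlev y (by omega))]
      exact hlt
  · intro y hy
    by_cases hyz : y = z
    · subst hyz
      obtain ⟨t, ht⟩ := uc_nonempty H (x := y) (by omega)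
      constructor
      · intro _
        refine ⟨t, mem_uc.1 ht, ?_⟩
        rw [indK_of_not hzn]
        exact Nat.zero_le _
      · intro _
        refine ⟨t, mem_uc.1 ht, ?_⟩
        rw [hz1, indK_of_mem (mem_insert_of_mem (hzF ht))]
    · constructor
      · rintro ⟨t, ht, hle⟩
        rw [ind_ins_ne hyz] at hle
        by_cases htz : t = z
        · subst htz
          have h1 := (H.covBy_iff.1 ht).2
          have hyF : y ∉ F := fun h2 => by
            have := Dj_lev h h2
            omega
          refine ⟨t, ht, ?_⟩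
          rw [indK_of_not hyF]
          exact Nat.zero_le _
        · rw [ind_ins_ne htz] at hle
          exact ⟨t, ht, hle⟩
      · rintro ⟨t, ht, hle⟩
        refine ⟨t, ht, ?_⟩
        rw [ind_ins_ne hyz]
        by_cases htz : t = z
        · subst htz
          rw [hz1]
          exact indK_le F y
        · rw [ind_ins_ne htz]
          exact hle
  · intro y hy
    have hyz : y ≠ z := hlev y (by omega)
    constructor
    · rintro ⟨t, ht, hlt⟩
      have h1 := (H.covBy_iff.1 ht).2
      rw [ind_ins_ne hyz, ind_ins_ne (hlev t (by omega))] at hlt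
      exact ⟨t, ht, hlt⟩
    · rintro ⟨t, ht, hlt⟩
      have h1 := (H.covBy_iff.1 ht).2
      refine ⟨t, ht, ?_⟩
      rw [ind_ins_ne hyz, ind_ins_ne (hlev t (by omega))]
      exact hlt
  · intro y hy
    have hyz : y ≠ z := hlev y (by omega)
    constructor
    · rintro ⟨t, ht, hlt⟩
      have h1 := (H.covBy_iff.1 ht).2
      rw [ind_ins_ne hyz, ind_ins_ne (hlev t (by omega))] at hlt
      exact ⟨t, ht, hlt⟩
    · rintro ⟨t, ht, hlt⟩
      have h1 := (H.covBy_iff.1 ht).2
      refine ⟨t, ht, ?_⟩
      rw [ind_ins_ne hyz, ind_ins_ne (hlev t (by omega))]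
      exact hlt

/-- a far upper element with label one -/
lemma trm_F6 (H : Gr P r) (hi : i ≤ r) (h : Dj i F) {z : P} (hz : lev z + 2 = i)
    (hzF : dc z ⊆ F) : trm i (indK (insert z F)) = trm i (indK F) := by
  have hzn : z ∉ F := fun h1 => by
    have := Dj_lev h h1
    omega
  have hz1 : indK (insert z F) z = 1 := indK_of_mem (mem_insert_self _ _)
  have hlev : ∀ x, lev x + 2 ≠ i → x ≠ z := by
    rintro x hx rfl
    exact hx hz
  refine trm_congr ?_ ?_ ?_ ?_
  · intro y hy
    have hyz : y ≠ z := hlev y (by omega)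
    constructor
    · rintro ⟨t, ht, hlt⟩
      have h1 := (H.covBy_iff.1 ht).2
      rw [ind_ins_ne hyz, ind_ins_ne (hlev t (by omega))] at hlt
      exact ⟨t, ht, hlt⟩
    · rintro ⟨t, ht, hlt⟩
      have h1 := (H.covBy_iff.1 ht).2
      refine ⟨t, ht, ?_⟩
      rw [ind_ins_ne hyz, ind_ins_ne (hlev t (by omega))]
      exact hlt
  · intro y hy
    have hyz : y ≠ z := hlev y (by omega)
    constructor
    · rintro ⟨t, ht, hlt⟩
      have h1 := (H.covBy_iff.1 ht).2
      rw [ind_ins_ne hyz, ind_ins_ne (hlev t (by omega))] at hlt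
      exact ⟨t, ht, hlt⟩
    · rintro ⟨t, ht, hlt⟩
      have h1 := (H.covBy_iff.1 ht).2
      refine ⟨t, ht, ?_⟩
      rw [ind_ins_ne hyz, ind_ins_ne (hlev t (by omega))]
      exact hlt
  · intro y hy
    constructor
    · rintro ⟨z', hz', hlt⟩
      have h1 := (H.covBy_iff.1 hz').2
      have hne : z' ≠ z := by
        rintro rfl
        rw [indK_of_mem (mem_insert_of_mem (hzF (mem_dc.2 hz')))] at hlt
        have := indK_le (insert z' F) z'
        omega
      rw [ind_ins_ne hne] at hlt
      refine ⟨z', hz', ?_⟩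
      by_cases hyz : y = z
      · subst hyz
        rw [indK_of_not hzn]
        omega
      · rwa [ind_ins_ne hyz] at hlt
    · rintro ⟨z', hz', hlt⟩
      have h1 := (H.covBy_iff.1 hz').2
      have h2 : z' ∈ F := indK_pos.1 (by omega)
      have h3 := Dj_lev h h2
      refine ⟨z', hz', ?_⟩
      rw [ind_ins_ne (hlev z' (by omega)), ind_ins_ne (hlev y (by omega))]
      exact hlt
  · intro y hy
    by_cases hyz : y = z
    · subst hyz
      obtain ⟨t, ht⟩ := dc_nonempty H (x := y) (by omega)
      constructor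
      · intro _
        refine ⟨t, mem_dc.1 ht, ?_⟩
        rw [indK_of_not hzn]
        exact Nat.zero_le _
      · intro _
        refine ⟨t, mem_dc.1 ht, ?_⟩
        rw [hz1, indK_of_mem (mem_insert_of_mem (hzF ht))]
    · constructor
      · rintro ⟨t, ht, hle⟩
        rw [ind_ins_ne hyz] at hle
        by_cases htz : t = z
        · subst htz
          have h1 := (H.covBy_iff.1 ht).2
          have hyF : y ∉ F := fun h2 => by
            have := Dj_lev h h2
            omega
          refine ⟨t, ht, ?_⟩
          rw [indK_of_not hyF]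
          exact Nat.zero_le _
        · rw [ind_ins_ne htz] at hle
          exact ⟨t, ht, hle⟩
      · rintro ⟨t, ht, hle⟩
        refine ⟨t, ht, ?_⟩
        rw [ind_ins_ne hyz]
        by_cases htz : t = z
        · subst htz
          rw [hz1]
          exact indK_le F y
        · rw [ind_ins_ne htz]
          exact hle

end far

end T6N
end Pool.Agent.GaussPoset.Win
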