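import Pool.Agent.W_448t6_h94.TsE

/-! A far lower element with label two; one site raised (MP_448cb3_co). -/

namespace Pool.Agent.GaussPoset.Win
namespace T6N

set_option linter.unusedSectionVars false

open Finset

universe u

variable {P : Type u} [Fintype P] [PartialOrder P] [DecidableEq P] {r : ℕ}

section far

variable {i : ℕ} {F : Finset P}

/-- a far lower element with label two: term -/
lemma trm_F5 (H : Gr P r) (hi : i ≤ r) (h : Dj i F) {z : P} (hz : lev z = i + 2)
    (hz2 : (uc z).card = 2) (hzF : uc z ⊆ F) :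
    trm i (indK (insert z F) + sg z) = xx ^ 2 * xi ^ (F ∩ dbU P i).card *
      dd ^ ((F ∩ dbL P i).card - 1 + (F ∩ dbU P i).card) * (xx ^ (2 * (F ∩ dbL P i).card) *
        dd ^ ((lv P i).card - 2 * (F ∩ dbL P i).card - 2 * (F ∩ dbU P i).card)) := by
  classical
  have hzn : z ∉ F := fun h1 => by
    have := Dj_lev h h1
    omega
  set e : P → ℕ := indK (insert z F) + sg z with he
  have ez : e z = 2 := by
    rw [he, Pi.add_apply, sg_self, indK_of_mem (mem_insert_self _ _)]
  have ene : ∀ x, x ≠ z → e x = indK F x := by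
    intro x hx
    rw [he, Pi.add_apply, sg_ne hx, add_zero, ind_ins_ne hx]
  have hlev : ∀ x, lev x ≠ i + 2 → x ≠ z := by
    rintro x hx rfl
    exact hx hz
  have hucF : ∀ y, z ⋖ y → y ∈ F := fun y hy => hzF (mem_uc.2 hy)
  have hFD : ∀ y, i < lev y → (FD e y ↔ y ∈ uc z) := by
    intro y hy
    constructor
    · rintro ⟨z', hz', hlt⟩
      have h1 := (H.covBy_iff.1 hz').2
      by_cases h2 : z' = z
      · subst h2
        exact mem_uc.2 hz'
      · rw [ene z' h2] at hlt
        have h3 : z' ∈ F := indK_pos.1 (by omega)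
        have := Dj_lev h h3
        omega
    · intro hy2
      rw [mem_uc] at hy2
      have h1 := (H.covBy_iff.1 hy2).2
      refine ⟨z, hy2, ?_⟩
      rw [ez, ene y (hlev y (by omega)), indK_of_mem (hucF y hy2)]
      omega
  have hFDs : ∀ v, lev v = i → (FD e v ↔ FD (indK F) v) := by
    intro v hv
    have hvz : v ≠ z := hlev v (by omega)
    constructor
    · rintro ⟨z', hz', hlt⟩
      have h1 := (H.covBy_iff.1 hz').2
      rw [ene v hvz, ene z' (hlev z' (by omega))] at hlt
      exact ⟨z', hz', hlt⟩
    · rintro ⟨z', hz', hlt⟩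
      have h1 := (H.covBy_iff.1 hz').2
      refine ⟨z', hz', ?_⟩
      rw [ene v hvz, ene z' (hlev z' (by omega))]
      exact hlt
  have hFU : ∀ y, lev y ≤ i → (FU e y ↔ FU (indK F) y) := by
    intro v hv
    have hvz : v ≠ z := hlev v (by omega)
    constructor
    · rintro ⟨z', hz', hlt⟩
      have h1 := (H.covBy_iff.1 hz').2
      rw [ene v hvz, ene z' (hlev z' (by omega))] at hlt
      exact ⟨z', hz', hlt⟩
    · rintro ⟨z', hz', hlt⟩
      have h1 := (H.covBy_iff.1 hz').2
      refine ⟨z', hz', ?_⟩
      rw [ene v hvz, ene z' (hlev z' (by omega))]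
      exact hlt
  have hGD : ∀ y, lev y < i → (GD e y ↔ GD (indK F) y) := by
    intro v hv
    have hvz : v ≠ z := hlev v (by omega)
    constructor
    · rintro ⟨z', hz', hlt⟩
      have h1 := (H.covBy_iff.1 hz').2
      rw [ene v hvz, ene z' (hlev z' (by omega))] at hlt
      exact ⟨z', hz', hlt⟩
    · rintro ⟨z', hz', hlt⟩
      have h1 := (H.covBy_iff.1 hz').2
      refine ⟨z', hz', ?_⟩
      rw [ene v hvz, ene z' (hlev z' (by omega))]
      exact hlt
  have hGU : ∀ y, i < lev y → (GU e y ↔ y ∉ insert z F) := by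
    intro y hy
    constructor
    · rintro ⟨t, ht, hle⟩ hy2
      have h1 := (H.covBy_iff.1 ht).2
      rcases mem_insert.1 hy2 with h2 | h2
      · subst h2
        rw [ez, ene t (hlev t (by omega))] at hle
        have := indK_le F t
        omega
      · have h3 := Dj_lev h h2
        rw [ene y (hlev y (by omega)), ene t (hlev t (by omega)), indK_of_mem h2,
          Dj_site h (x := t) (by omega)] at hle
        omega
    · intro hy2
      rw [mem_insert] at hy2
      push Not at hy2
      obtain ⟨t, ht⟩ := uc_nonempty H (x := y) (by omega)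
      refine ⟨t, mem_uc.1 ht, ?_⟩
      rw [ene y hy2.1, indK_of_not hy2.2]
      exact Nat.zero_le _
  have hA : AdmL i e := by
    rintro y hy ⟨h1, h2⟩
    rw [hFD y hy] at h1
    rw [hGU y hy] at h2
    exact h2 (mem_insert_of_mem (hzF h1))
  have hB : AdmU i e := by
    rintro y hy ⟨h1, h2⟩
    rw [hFU y hy.le] at h1
    exact Dj_FU H h hy h1
  have hAL : AL i e = AL i (indK F) := by
    unfold AL
    ext v
    rw [mem_filter, mem_filter, mem_lv]
    constructor
    · rintro ⟨a, b⟩
      exact ⟨a, (hFDs v a).1 b⟩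
    · rintro ⟨a, b⟩
      exact ⟨a, (hFDs v a).2 b⟩
  have hAU : AU i e = AU i (indK F) := by
    unfold AU
    ext v
    rw [mem_filter, mem_filter, mem_lv]
    constructor
    · rintro ⟨a, b⟩
      exact ⟨a, (hFU v a.le).1 b⟩
    · rintro ⟨a, b⟩
      exact ⟨a, (hFU v a.le).2 b⟩
  have haL : aL i e = 2 := by
    rw [← hz2]
    unfold aL
    congr 1
    ext y
    rw [mem_filter]
    constructor
    · rintro ⟨_, a, b⟩
      exact (hFD y a).1 b
    · intro a
      have h1 := lev_uc H a
      exact ⟨mem_univ _, by omega, (hFD y (by omega)).2 a⟩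
  have haU : aU i e = 0 := by
    unfold aU
    rw [card_eq_zero, filter_eq_empty_iff]
    rintro y _ ⟨h1, h2⟩
    rw [hFU y h1.le] at h2
    exact Dj_FU H h h1 h2
  have hpU : pU i e = (F ∩ dbU P i).card := by
    rw [← Dj_pU H hi h]
    unfold pU
    congr 1
    ext y
    rw [mem_filter, mem_filter]
    constructor
    · rintro ⟨a, b, c, d⟩
      exact ⟨a, b, fun x => c ((hFU y b.le).2 x), fun x => d ((hGD y b).2 x)⟩
    · rintro ⟨a, b, c, d⟩
      exact ⟨a, b, fun x => c ((hFU y b.le).1 x), fun x => d ((hGD y b).1 x)⟩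
  have hucL : uc z ⊆ F ∩ dbL P i := by
    intro y hy
    rw [mem_inter]
    refine ⟨hzF hy, ?_⟩
    rcases mem_union.1 (h.1 (hzF hy)) with h1 | h1
    · exact h1
    · have h2 := lev_uc H hy
      have h3 := (mem_dbU.1 h1).1
      omega
  have hpL : pL i e = (F ∩ dbL P i).card - 1 := by
    have h1 : univ.filter (fun y : P => i < lev y ∧ ¬ FD e y ∧ ¬ GU e y) =
        insert z ((F ∩ dbL P i) \ uc z) := by
      ext y
      rw [mem_filter, mem_insert, mem_sdiff, mem_inter]
      constructor
      · rintro ⟨_, a, b, c⟩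
        rw [hFD y a] at b
        rw [hGU y a, not_not] at c
        rcases mem_insert.1 c with h2 | h2
        · exact Or.inl h2
        · right
          refine ⟨⟨h2, ?_⟩, b⟩
          rcases mem_union.1 (h.1 h2) with h3 | h3
          · exact h3
          · have := (mem_dbU.1 h3).1
            omega
      · rintro (h2 | ⟨⟨h2, h3⟩, h4⟩)
        · subst h2
          refine ⟨mem_univ _, by omega, ?_, ?_⟩
          · rw [hFD y (by omega)]
            intro h5
            have := lev_uc H h5
            omega
          · rw [hGU y (by omega), not_not]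
            exact mem_insert_self _ _
        · have h5 := (mem_dbL.1 h3).1
          refine ⟨mem_univ _, by omega, ?_, ?_⟩
          · rw [hFD y (by omega)]
            exact h4
          · rw [hGU y (by omega), not_not]
            exact mem_insert_of_mem h2
    have h2 : z ∉ (F ∩ dbL P i) \ uc z := by
      rw [mem_sdiff, mem_inter]
      rintro ⟨⟨h3, _⟩, _⟩
      exact hzn h3
    unfold pL
    rw [h1, card_insert_of_notMem h2, card_sdiff_of_subset hucL, hz2]
    have h3 := card_le_card hucL
    omega
  have h1 : (AL i (indK F)).card = 2 * (F ∩ dbL P i).card := by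
    rw [Dj_AL H h, Dj_bi_card h inter_subset_left]
  have h2 : (AU i (indK F)).card = 2 * (F ∩ dbU P i).card := by
    rw [Dj_AU H h, Dj_bi_card h inter_subset_left]
  have hAB : AdmL i e ∧ AdmU i e := ⟨hA, hB⟩
  unfold trm
  rw [hAL, hAU, if_pos (Dj_disj H h)]
  unfold cw
  rw [if_pos hAB, haL, haU, hpL, hpU, h1, h2, zero_add]

/-- value at a family with a far lower element of label two -/
lemma KK_F5 (H : Gr P r) (hi : i ≤ r) (h : Dj i F) {z : P} (hz : lev z = i + 2)
    (hz2 : (uc z).card = 2) (hzF : uc z ⊆ F) {n : ℕ} (hn : F.card + 2 = n) :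
    KK i n (indK (insert z F) + sg z) = eps i F := by
  have h2 := Dj_two_le H h
  have h4 := Dj_card h
  have hucL : uc z ⊆ F ∩ dbL P i := by
    intro y hy
    rw [mem_inter]
    refine ⟨hzF hy, ?_⟩
    rcases mem_union.1 (h.1 (hzF hy)) with h1 | h1
    · exact h1
    · have h2 := lev_uc H hy
      have h3 := (mem_dbU.1 h1).1
      omega
  have h5 := card_le_card hucL
  unfold KK
  rw [trm_F5 H hi h hz hz2 hzF]
  have h6 : xx ^ 2 * xi ^ (F ∩ dbU P i).card *
      dd ^ ((F ∩ dbL P i).card - 1 + (F ∩ dbU P i).card) * (xx ^ (2 * (F ∩ dbL P i).card) *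
        dd ^ ((lv P i).card - 2 * (F ∩ dbL P i).card - 2 * (F ∩ dbU P i).card)) =
      dd ^ ((lv P i).card - n + 1) * (xi ^ (F ∩ dbU P i).card *
        (xx ^ 2 * xx ^ (2 * (F ∩ dbL P i).card))) := by
    rw [show (lv P i).card - n + 1 = ((F ∩ dbL P i).card - 1 + (F ∩ dbU P i).card) +
      ((lv P i).card - 2 * (F ∩ dbL P i).card - 2 * (F ∩ dbU P i).card) by omega, pow_add dd
      ((F ∩ dbL P i).card - 1 + (F ∩ dbU P i).card)]
    ring
  rw [h6]
  have h7 := cf_dd ((lv P i).card - n + 1) 0 (xi ^ (F ∩ dbU P i).card *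
        (xx ^ 2 * xx ^ (2 * (F ∩ dbL P i).card)))
  rw [zero_add] at h7
  rw [h7, PowerSeries.coeff_zero_eq_constantCoeff, map_mul, map_mul, map_pow, map_pow, map_pow,
    cc_xi, cc_xx, eps_eq, pow_mul]
  norm_num

end far

/-- families with one site removed -/
def SvF (i : ℕ) (v : P) (G : Finset P) : Prop :=
  G ⊆ dbL P i ∪ dbU P i ∧ ∀ x ∈ G, ∀ y ∈ G, x ≠ y → Disjoint (ns i x \ {v}) (ns i y \ {v})

/-- sign of a near element with one site raised -/
noncomputable def sgv (i : ℕ) (v x : P) : ℤ := if v ∈ ns i x then -sgn i x else sgn i x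

section site

variable {i : ℕ} {G : Finset P} {v : P}

lemma ns_sdiff_card {x : P} (hx : x ∈ dbL P i ∪ dbU P i) (v : P) :
    (ns i x \ {v}).card + (if v ∈ ns i x then 1 else 0) = 2 := by
  have h := ns_card hx
  split_ifs with h1
  · rw [sdiff_singleton_eq_erase, card_erase_of_mem h1]
    omega
  · rw [sdiff_singleton_eq_erase, erase_eq_of_notMem h1]
    omega

lemma sum_ns_sdiff (hG : G ⊆ dbL P i ∪ dbU P i) (v : P) :
    ∑ x ∈ G, (ns i x \ {v}).card + (G.filter (fun x => v ∈ ns i x)).card = 2 * G.card := by
  rw [card_filter, ← sum_add_distrib, sum_congr rfl (fun x hx => ns_sdiff_card (hG hx) v),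
    sum_const, smul_eq_mul, mul_comm]

lemma biU_sdiff (G : Finset P) (v : P) :
    G.biUnion (ns i) \ {v} = G.biUnion (fun x => ns i x \ {v}) := by
  ext y
  simp only [mem_sdiff, mem_biUnion, mem_singleton]
  constructor
  · rintro ⟨⟨x, hx, hy⟩, hne⟩
    exact ⟨x, hx, hy, hne⟩
  · rintro ⟨x, hx, hy, hne⟩
    exact ⟨⟨x, hx, hy⟩, hne⟩

/-- value at one raised site -/
lemma KK_site (H : Gr P r) (hi : i ≤ r) (hv : v ∈ lv P i) (hG : G ⊆ dbL P i ∪ dbU P i) {n : ℕ}
    (hn : G.card + 1 = n) (hnb : n ≤ (lv P i).card) :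
    (SvF i v G → KK i n (indK (insert v G)) = ∏ x ∈ G, sgv i v x) ∧
      (¬ SvF i v G → KK i n (indK (insert v G)) = 0) := by
  classical
  have hGn : G ⊆ near P i := hG.trans dbl_near
  have hW : ({v} : Finset P) ⊆ lv P i := singleton_subset_iff.2 hv
  have hT := trm_GW H hi hGn hW
  have hins : G ∪ {v} = insert v G := by
    rw [union_comm]
    rfl
  rw [hins] at hT
  have hdj : ∀ x : P, Disjoint (ns i x) {v} ↔ v ∉ ns i x := fun x => disjoint_singleton_right
  simp only [hdj] at hT
  set UL := (gL i G).biUnion (ns i) \ {v} with hUL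
  set UU := (gU i G).biUnion (ns i) \ {v} with hUU
  set pl := ((gL i G).filter (fun x => v ∉ ns i x)).card with hpl
  set pu := ((gU i G).filter (fun x => v ∉ ns i x)).card with hpu
  have hU : UL ∪ UU = G.biUnion (fun x => ns i x \ {v}) := by
    rw [hUL, hUU, ← union_sdiff_distrib, gLU_bi H hGn, biU_sdiff]
  have hsub : UL ∪ UU ⊆ (lv P i).erase v := by
    rw [hU, biUnion_subset]
    intro x hx y hy
    rw [mem_sdiff, mem_singleton] at hy
    exact mem_erase.2 ⟨hy.2, mem_lv.2 (ns_lv H (hGn hx) hy.1)⟩
  have hcb : (UL ∪ UU).card + 1 ≤ (lv P i).card := by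
    have := card_le_card hsub
    rw [card_erase_of_mem hv] at this
    omega
  have hJ : pl + pu + (G.filter (fun x => v ∈ ns i x)).card = G.card := by
    have h1 : pl + pu = (G.filter (fun x => v ∉ ns i x)).card := by
      rw [hpl, hpu, ← gLU H (G := G.filter (fun x => v ∉ ns i x)) ((filter_subset _ _).trans hGn)]
      congr 1
      · congr 1
        ext x
        simp only [mem_filter, mem_gL]
        tauto
      · congr 1
        ext x
        simp only [mem_filter, mem_gU]
        tauto
    rw [h1, add_comm]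
    exact card_filter_add_card_filter_not _
  have hsum := sum_ns_sdiff hG v
  have hle : (UL ∪ UU).card ≤ ∑ x ∈ G, (ns i x \ {v}).card := by
    rw [hU]
    exact card_biUnion_le
  by_cases hd : Disjoint UL UU
  · rw [if_pos hd] at hT
    have hcu := card_union_of_disjoint hd
    constructor
    · intro hS
      have heq : (UL ∪ UU).card = ∑ x ∈ G, (ns i x \ {v}).card := by
        rw [hU]
        exact card_biUnion (fun x hx y hy hne => hS.2 x hx y hy hne)
      unfold KK
      rw [hT]
      have h6 : xi ^ pu * dd ^ (pl + pu) * (xx ^ UL.card *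
          dd ^ ((lv P i).card - UL.card - UU.card)) =
          dd ^ ((lv P i).card - n + 1) * (xi ^ pu * xx ^ UL.card) := by
        rw [show (lv P i).card - n + 1 = (pl + pu) + ((lv P i).card - UL.card - UU.card) by omega,
          pow_add dd (pl + pu)]
        ring
      have h7 := cf_dd ((lv P i).card - n + 1) 0 (xi ^ pu * xx ^ UL.card)
      rw [zero_add] at h7
      rw [h6, h7, PowerSeries.coeff_zero_eq_constantCoeff, map_mul, map_pow, map_pow, cc_xi, cc_xx]
      have hULc : UL.card = ∑ x ∈ gL i G, (ns i x \ {v}).card := by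
        rw [hUL, biU_sdiff]
        exact card_biUnion (fun x hx y hy hne => hS.2 x (mem_gL.1 hx).1 y (mem_gL.1 hy).1 hne)
      have hprod : ∏ x ∈ G, sgv i v x = (∏ x ∈ gL i G, sgv i v x) * ∏ x ∈ gU i G, sgv i v x := by
        rw [← prod_union]
        · congr 1
          ext x
          rw [mem_union, mem_gL, mem_gU]
          constructor
          · intro h
            have := mem_near.1 (hGn h)
            tauto
          · rintro (h | h) <;> exact h.1
        · rw [disjoint_left]
          intro x h1 h2
          rw [mem_gL] at h1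
          rw [mem_gU] at h2
          omega
      have hpL : ∏ x ∈ gL i G, sgv i v x = (-1) ^ UL.card := by
        rw [hULc, ← prod_pow_eq_pow_sum]
        refine prod_congr rfl fun x hx => ?_
        rw [mem_gL] at hx
        have h8 := ns_sdiff_card (hG hx.1) v
        have h9 : sgn i x = 1 := by
          unfold sgn
          rw [if_neg]
          intro h10
          have := (mem_dbU.1 h10).1
          omega
        unfold sgv
        rw [h9]
        split_ifs at h8 ⊢ with h10
        · rw [show (ns i x \ {v}).card = 1 by omega]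
          norm_num
        · rw [show (ns i x \ {v}).card = 2 by omega]
          norm_num
      have hpU : ∏ x ∈ gU i G, sgv i v x = (-1) ^ pu := by
        have h8 : ∀ x ∈ gU i G, sgv i v x = if v ∉ ns i x then (-1 : ℤ) else 1 := by
          intro x hx
          rw [mem_gU] at hx
          have h9 : sgn i x = -1 := by
            unfold sgn
            rw [if_pos]
            rcases mem_union.1 (hG hx.1) with h10 | h10
            · have := (mem_dbL.1 h10).1
              omega
            · exact h10
          unfold sgv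
          rw [h9]
          by_cases h10 : v ∈ ns i x
          · rw [if_pos h10, if_neg (not_not.2 h10)]
            norm_num
          · rw [if_neg h10, if_pos h10]
        rw [prod_congr rfl h8, prod_ite, prod_const, prod_const_one, mul_one]
      rw [hprod, hpL, hpU]
      ring
    · intro hS
      have hlt : (UL ∪ UU).card < ∑ x ∈ G, (ns i x \ {v}).card := by
        refine lt_of_le_of_ne hle (fun heq => hS ⟨hG, ?_⟩)
        intro x hx y hy hne
        refine disj_of_card_biUnion (s := G) (t := fun x => ns i x \ {v}) ?_ hx hy hne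
        rw [← hU, heq]
      unfold KK
      rw [hT]
      have h6 : xi ^ pu * dd ^ (pl + pu) * (xx ^ UL.card *
          dd ^ ((lv P i).card - UL.card - UU.card)) =
          dd ^ ((pl + pu) + ((lv P i).card - UL.card - UU.card)) * (xi ^ pu * xx ^ UL.card) := by
        rw [pow_add dd (pl + pu)]
        ring
      rw [h6]
      exact cf_dd_lt (by omega) _
  · rw [if_neg hd] at hT
    constructor
    · intro hS
      exfalso
      apply hd
      rw [disjoint_left]
      intro y h1 h2
      rw [hUL, mem_sdiff, mem_biUnion] at h1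
      rw [hUU, mem_sdiff, mem_biUnion] at h2
      obtain ⟨⟨x, hx, hyx⟩, hyv⟩ := h1
      obtain ⟨⟨x', hx', hyx'⟩, _⟩ := h2
      rw [mem_gL] at hx
      rw [mem_gU] at hx'
      have hne : x ≠ x' := by
        rintro rfl
        omega
      exact disjoint_left.1 (hS.2 x hx.1 x' hx'.1 hne) (mem_sdiff.2 ⟨hyx, hyv⟩)
        (mem_sdiff.2 ⟨hyx', hyv⟩)
    · intro _
      unfold KK
      rw [hT, map_zero]

end site

end T6N
end Pool.Agent.GaussPoset.Win
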