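import Pool.Agent.W_448t6_h94.TsF

/-! Sum over the near sets (MP_448cb3_co). -/

namespace Pool.Agent.GaussPoset.Win
namespace T6N

set_option linter.unusedSectionVars false

open Finset

universe u

variable {P : Type u} [Fintype P] [PartialOrder P] [DecidableEq P] {r : ℕ}

/-- sign of a near set -/
noncomputable def sig (i : ℕ) (G : Finset P) : ℤ :=
  (-1) ^ ((gU i G).card + ((gL i G).biUnion (ns i)).card)

/-- single near elements -/
noncomputable def sgl (P : Type u) [Fintype P] [PartialOrder P] [DecidableEq P] (i : ℕ) :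
    Finset P := (near P i).filter (fun x => (ns i x).card = 1)

/-- pairs of near double elements on one side with exactly one common site -/
noncomputable def OP (P : Type u) [Fintype P] [PartialOrder P] [DecidableEq P] (i : ℕ) :
    Finset (Finset P) := ((dbL P i ∪ dbU P i).powersetCard 2).filter
      (fun p => (p ⊆ dbL P i ∨ p ⊆ dbU P i) ∧ (p.biUnion (ns i)).card = 3)

/-- sign of such a pair -/
noncomputable def osg (i : ℕ) (p : Finset P) : ℤ := if p ⊆ dbU P i then 1 else -1

open Classical in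
/-- disjoint families of size `k` avoiding the sites `T` -/
noncomputable def FFa (P : Type u) [Fintype P] [PartialOrder P] [DecidableEq P] (i k : ℕ)
    (T : Finset P) : Finset (Finset P) :=
  (FF P i k).filter (fun F => Disjoint (F.biUnion (ns i)) T)

variable {i : ℕ}

lemma mem_sgl {x : P} : x ∈ sgl P i ↔ x ∈ near P i ∧ (ns i x).card = 1 := by
  unfold sgl; rw [mem_filter]

lemma mem_OP {p : Finset P} : p ∈ OP P i ↔ (p ⊆ dbL P i ∨ p ⊆ dbU P i) ∧ p.card = 2 ∧
    (p.biUnion (ns i)).card = 3 := by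
  unfold OP
  rw [mem_filter, mem_powersetCard]
  constructor
  · rintro ⟨⟨h1, h2⟩, h3, h4⟩
    exact ⟨h3, h2, h4⟩
  · rintro ⟨h1, h2, h3⟩
    refine ⟨⟨?_, h2⟩, h1, h3⟩
    rcases h1 with h | h
    · exact h.trans subset_union_left
    · exact h.trans subset_union_right

lemma mem_FFa {k : ℕ} {T F : Finset P} :
    F ∈ FFa P i k T ↔ Dj i F ∧ F.card = k ∧ Disjoint (F.biUnion (ns i)) T := by
  classical
  unfold FFa
  rw [mem_filter, mem_FF, and_assoc]

lemma gL_union (G1 G2 : Finset P) : gL i (G1 ∪ G2) = gL i G1 ∪ gL i G2 := by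
  unfold gL; rw [filter_union]

lemma gU_union (G1 G2 : Finset P) : gU i (G1 ∪ G2) = gU i G1 ∪ gU i G2 := by
  unfold gU; rw [filter_union]

lemma gL_sub (G : Finset P) : gL i G ⊆ G := filter_subset _ _

lemma gU_sub (G : Finset P) : gU i G ⊆ G := filter_subset _ _

lemma sig_union {G1 G2 : Finset P} (hd : Disjoint G1 G2)
    (hs : Disjoint (G1.biUnion (ns i)) (G2.biUnion (ns i))) :
    sig i (G1 ∪ G2) = sig i G1 * sig i G2 := by
  unfold sig
  rw [gL_union, gU_union, union_biUnion, card_union_of_disjoint, card_union_of_disjoint, ← pow_add]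
  · congr 1
    omega
  · exact disjoint_of_subset_left (biUnion_subset_biUnion_of_subset_left _ (gL_sub G1))
      (disjoint_of_subset_right (biUnion_subset_biUnion_of_subset_left _ (gL_sub G2)) hs)
  · exact disjoint_of_subset_left (gU_sub G1) (disjoint_of_subset_right (gU_sub G2) hd)

lemma sig_F {F : Finset P} (h : Dj i F) : sig i F = eps i F := by
  have h1 : gU i F = F ∩ dbU P i := by
    ext x
    rw [mem_gU, mem_inter]
    constructor
    · rintro ⟨a, b⟩
      refine ⟨a, ?_⟩
      rcases mem_union.1 (h.1 a) with c | c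
      · have := (mem_dbL.1 c).1
        omega
      · exact c
    · rintro ⟨a, b⟩
      exact ⟨a, (mem_dbU.1 b).1⟩
  unfold sig
  rw [eps_eq, h1, Dj_bi_card h (gL_sub F), pow_add, pow_mul (-1 : ℤ) 2]
  norm_num

lemma sig_single {h : P} (hh : h ∈ sgl P i) : sig i {h} = -1 := by
  rw [mem_sgl] at hh
  unfold sig
  rcases mem_near.1 hh.1 with h1 | h1
  · have e1 : gU i {h} = ∅ := by
      rw [eq_empty_iff_forall_notMem]
      intro x hx
      rw [mem_gU, mem_singleton] at hx
      obtain ⟨rfl, h2⟩ := hx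
      omega
    have e2 : gL i {h} = {h} := by
      ext x
      rw [mem_gL, mem_singleton]
      constructor
      · exact fun h2 => h2.1
      · rintro rfl
        exact ⟨rfl, h1⟩
    rw [e1, e2, singleton_biUnion, hh.2, card_empty]
    norm_num
  · have e1 : gL i {h} = ∅ := by
      rw [eq_empty_iff_forall_notMem]
      intro x hx
      rw [mem_gL, mem_singleton] at hx
      obtain ⟨rfl, h2⟩ := hx
      omega
    have e2 : gU i {h} = {h} := by
      ext x
      rw [mem_gU, mem_singleton]
      constructor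
      · exact fun h2 => h2.1
      · rintro rfl
        exact ⟨rfl, h1⟩
    rw [e1, e2, biUnion_empty, card_empty, card_singleton]
    norm_num

lemma gLU_side {p : Finset P} :
    (p ⊆ dbL P i → gL i p = p ∧ gU i p = ∅) ∧ (p ⊆ dbU P i → gL i p = ∅ ∧ gU i p = p) := by
  constructor
  · intro h
    constructor
    · ext x
      rw [mem_gL]
      exact ⟨fun h1 => h1.1, fun h1 => ⟨h1, (mem_dbL.1 (h h1)).1⟩⟩
    · rw [eq_empty_iff_forall_notMem]
      intro x hx
      rw [mem_gU] at hx
      have := (mem_dbL.1 (h hx.1)).1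
      omega
  · intro h
    constructor
    · rw [eq_empty_iff_forall_notMem]
      intro x hx
      rw [mem_gL] at hx
      have := (mem_dbU.1 (h hx.1)).1
      omega
    · ext x
      rw [mem_gU]
      exact ⟨fun h1 => h1.1, fun h1 => ⟨h1, (mem_dbU.1 (h h1)).1⟩⟩

lemma OP_ne {p : Finset P} (hp : p ∈ OP P i) : p.Nonempty := by
  rw [mem_OP] at hp
  rw [← card_pos]
  omega

lemma not_both {p : Finset P} (h1 : p ⊆ dbL P i) (h2 : p ⊆ dbU P i) (h3 : p.Nonempty) : False := by
  obtain ⟨x, hx⟩ := h3
  have := (mem_dbL.1 (h1 hx)).1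
  have := (mem_dbU.1 (h2 hx)).1
  omega

lemma sig_pair {p : Finset P} (hp : p ∈ OP P i) : sig i p = osg i p := by
  have hne := OP_ne hp
  rw [mem_OP] at hp
  unfold sig osg
  rcases hp.1 with h | h
  · rw [(gLU_side.1 h).1, (gLU_side.1 h).2, hp.2.2, if_neg (fun h2 => not_both h h2 hne),
      card_empty]
    norm_num
  · rw [(gLU_side.2 h).1, (gLU_side.2 h).2, hp.2.1, if_pos h, biUnion_empty, card_empty]
    norm_num

lemma Sds_union {G1 G2 : Finset P} (h1 : Sds i G1) (h2 : Sds i G2)
    (hs : Disjoint (G1.biUnion (ns i)) (G2.biUnion (ns i))) : Sds i (G1 ∪ G2) := by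
  unfold Sds at h1 h2 ⊢
  rw [gL_union, gU_union, union_biUnion, union_biUnion, disjoint_union_left, disjoint_union_right,
    disjoint_union_right]
  have a1 := biUnion_subset_biUnion_of_subset_left (ns i) (gL_sub (i := i) G1)
  have a2 := biUnion_subset_biUnion_of_subset_left (ns i) (gL_sub (i := i) G2)
  have b1 := biUnion_subset_biUnion_of_subset_left (ns i) (gU_sub (i := i) G1)
  have b2 := biUnion_subset_biUnion_of_subset_left (ns i) (gU_sub (i := i) G2)
  exact ⟨⟨h1, disjoint_of_subset_left a1 (disjoint_of_subset_right b2 hs)⟩,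
    (disjoint_of_subset_left b1 (disjoint_of_subset_right a2 hs)).symm, h2⟩

lemma Sds_F {F : Finset P} (h : Dj i F) : Sds i F := by
  unfold Sds
  rw [disjoint_left]
  intro v h1 h2
  rw [mem_biUnion] at h1 h2
  obtain ⟨x, hx, hv⟩ := h1
  obtain ⟨y, hy, hv'⟩ := h2
  rw [mem_gL] at hx
  rw [mem_gU] at hy
  have hne : x ≠ y := by
    rintro rfl
    omega
  exact (disjoint_left.1 (h.2 x hx.1 y hy.1 hne) hv) hv'

lemma Sds_single {h : P} : Sds i {h} := by
  unfold Sds
  rw [disjoint_left]
  intro v h1 h2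
  rw [mem_biUnion] at h1 h2
  obtain ⟨x, hx, hv⟩ := h1
  obtain ⟨y, hy, hv'⟩ := h2
  rw [mem_gL, mem_singleton] at hx
  rw [mem_gU, mem_singleton] at hy
  rw [hx.1] at hx
  rw [hy.1] at hy
  omega

lemma Sds_pair {p : Finset P} (hp : p ∈ OP P i) : Sds i p := by
  rw [mem_OP] at hp
  unfold Sds
  rcases hp.1 with h | h
  · rw [(gLU_side.1 h).2, biUnion_empty]
    exact disjoint_empty_right _
  · rw [(gLU_side.2 h).1, biUnion_empty]
    exact disjoint_empty_left _

end T6N
end Pool.Agent.GaussPoset.Win
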