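import Pool.Agent.W_448t6_h94.TsG

/-! Sum over the near sets, II (MP_448cb3_co). -/

namespace Pool.Agent.GaussPoset.Win
namespace T6N

set_option linter.unusedSectionVars false

open Finset

universe u

variable {P : Type u} [Fintype P] [PartialOrder P] [DecidableEq P] {r : ℕ} {i : ℕ}

lemma sgl_not_dbl {h : P} (hh : h ∈ sgl P i) : h ∉ dbL P i ∪ dbU P i := by
  intro h1
  rw [mem_sgl] at hh
  have := ns_card h1
  omega

lemma near_dbl_or (H : Gr P r) (hi : i ≤ r) {x : P} (hx : x ∈ near P i) :
    x ∈ dbL P i ∪ dbU P i ∨ x ∈ sgl P i := by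
  have h1 := ns_le2 H (i := i) x
  have h2 := card_pos.2 (ns_ne H hi hx)
  rw [dbl_iff hx, mem_sgl]
  by_cases h3 : (ns i x).card = 2
  · exact Or.inl h3
  · exact Or.inr ⟨hx, by omega⟩

lemma Dj_sub {F G : Finset P} (h : Dj i F) (hG : G ⊆ F) : Dj i G :=
  ⟨hG.trans h.1, fun x hx y hy hne => h.2 x (hG hx) y (hG hy) hne⟩

lemma disj_of_sites {F T : Finset P} (hF : F ⊆ dbL P i ∪ dbU P i)
    (hd : Disjoint (F.biUnion (ns i)) (T.biUnion (ns i))) : Disjoint F T := by
  rw [disjoint_left]
  intro x h1 h2
  have h3 := ns_card (hF h1)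
  obtain ⟨v, hv⟩ : (ns i x).Nonempty := by
    rw [← card_pos]
    omega
  exact disjoint_left.1 hd (mem_biUnion.2 ⟨x, h1, hv⟩) (mem_biUnion.2 ⟨x, h2, hv⟩)

/-- a near set with slack at most one -/
lemma near_cases (H : Gr P r) (hi : i ≤ r) {G : Finset P} (hG : G ⊆ near P i) {n : ℕ}
    (hn : G.card = n) (hS : Sds i G) (hb : 2 * n ≤ (G.biUnion (ns i)).card + 1) :
    Dj i G ∨ (∃ h F, h ∈ sgl P i ∧ Dj i F ∧ F.card + 1 = n ∧
      Disjoint (F.biUnion (ns i)) (ns i h) ∧ G = insert h F) ∨
    (∃ p F, p ∈ OP P i ∧ Dj i F ∧ F.card + 2 = n ∧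
      Disjoint (F.biUnion (ns i)) (p.biUnion (ns i)) ∧ G = p ∪ F) := by
  classical
  by_cases hsin : ∃ h ∈ G, h ∈ sgl P i
  · obtain ⟨h, hh, hs⟩ := hsin
    right; left
    have hcard : ∑ x ∈ G.erase h, (ns i x).card ≤ 2 * (G.erase h).card := by
      rw [mul_comm]
      exact sum_le_card_nsmul _ _ _ (fun x _ => ns_le2 H x)
    have hsum : ∑ x ∈ G, (ns i x).card = (ns i h).card + ∑ x ∈ G.erase h, (ns i x).card :=
      (add_sum_erase G (fun x => (ns i x).card) hh).symm
    have hle : (G.biUnion (ns i)).card ≤ ∑ x ∈ G, (ns i x).card := card_biUnion_le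
    have h1 := (mem_sgl.1 hs).2
    have h2 := card_erase_of_mem hh
    have h3 := card_pos.2 ⟨h, hh⟩
    have hdis : ∀ x ∈ G, ∀ y ∈ G, x ≠ y → Disjoint (ns i x) (ns i y) := fun x hx y hy hne =>
      disj_of_card_biUnion (by omega) hx hy hne
    have hall : ∀ x ∈ G.erase h, (ns i x).card = 2 := by
      intro x hx
      by_contra hne
      have h4 := ns_le2 H (i := i) x
      have h5 : ∑ x ∈ G.erase h, (ns i x).card < ∑ x ∈ G.erase h, 2 :=
        sum_lt_sum (fun x _ => ns_le2 H x) ⟨x, hx, by omega⟩
      rw [sum_const, smul_eq_mul] at h5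
      omega
    refine ⟨h, G.erase h, hs, ⟨?_, ?_⟩, by omega, ?_, (insert_erase hh).symm⟩
    · intro x hx
      exact (dbl_iff (hG (mem_of_mem_erase hx))).2 (hall x hx)
    · intro x hx y hy hne
      exact hdis x (mem_of_mem_erase hx) y (mem_of_mem_erase hy) hne
    · rw [disjoint_biUnion_left]
      intro x hx
      rw [mem_erase] at hx
      exact hdis x hx.2 h hh hx.1
  · push Not at hsin
    have hdbl : G ⊆ dbL P i ∪ dbU P i := by
      intro x hx
      rcases near_dbl_or H hi (hG hx) with h | h
      · exact h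
      · exact absurd h (hsin x hx)
    by_cases hDj : ∀ x ∈ G, ∀ y ∈ G, x ≠ y → Disjoint (ns i x) (ns i y)
    · exact Or.inl ⟨hdbl, hDj⟩
    · right; right
      push Not at hDj
      obtain ⟨x, hx, y, hy, hne, hnd⟩ := hDj
      have hpG : ({x, y} : Finset P) ⊆ G := by
        intro z hz
        rw [mem_insert, mem_singleton] at hz
        rcases hz with rfl | rfl
        · exact hx
        · exact hy
      have hpc : ({x, y} : Finset P).card = 2 := card_pair hne
      have hFc := card_sdiff_of_subset hpG
      have hpl := card_le_card hpG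
      have hU : G.biUnion (ns i) = ({x, y} : Finset P).biUnion (ns i) ∪
          (G \ {x, y}).biUnion (ns i) := by
        rw [← union_biUnion, union_sdiff_of_subset hpG]
      have hpU : ({x, y} : Finset P).biUnion (ns i) = ns i x ∪ ns i y := by
        rw [biUnion_insert, singleton_biUnion]
      have hp4 := card_union_add_card_inter (ns i x) (ns i y)
      have hx2 := ns_card (hdbl hx)
      have hy2 := ns_card (hdbl hy)
      have hint : 0 < (ns i x ∩ ns i y).card := by
        rw [card_pos, nonempty_iff_ne_empty]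
        intro h
        exact hnd (disjoint_iff_inter_eq_empty.2 h)
      have hsum2 : ∑ z ∈ G \ {x, y}, (ns i z).card = 2 * (G \ {x, y}).card := by
        rw [sum_congr rfl (fun z hz => ns_card (hdbl (sdiff_subset hz))), sum_const, smul_eq_mul,
          mul_comm]
      have hFle : ((G \ {x, y}).biUnion (ns i)).card ≤ ∑ z ∈ G \ {x, y}, (ns i z).card :=
        card_biUnion_le
      have hUle := card_union_add_card_inter (({x, y} : Finset P).biUnion (ns i))
        ((G \ {x, y}).biUnion (ns i))
      rw [← hU] at hUle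
      have hpUc : (({x, y} : Finset P).biUnion (ns i)).card = (ns i x ∪ ns i y).card := by rw [hpU]
      have hside : ({x, y} : Finset P) ⊆ dbL P i ∨ ({x, y} : Finset P) ⊆ dbU P i := by
        obtain ⟨v, hv⟩ := card_pos.1 hint
        rw [mem_inter] at hv
        rcases mem_union.1 (hdbl hx) with hx1 | hx1 <;> rcases mem_union.1 (hdbl hy) with hy1 | hy1
        · left
          intro z hz
          rw [mem_insert, mem_singleton] at hz
          rcases hz with rfl | rfl
          · exact hx1
          · exact hy1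
        · exfalso
          exact disjoint_left.1 hS (mem_biUnion.2 ⟨x, mem_gL.2 ⟨hx, (mem_dbL.1 hx1).1⟩, hv.1⟩)
            (mem_biUnion.2 ⟨y, mem_gU.2 ⟨hy, (mem_dbU.1 hy1).1⟩, hv.2⟩)
        · exfalso
          exact disjoint_left.1 hS (mem_biUnion.2 ⟨y, mem_gL.2 ⟨hy, (mem_dbL.1 hy1).1⟩, hv.2⟩)
            (mem_biUnion.2 ⟨x, mem_gU.2 ⟨hx, (mem_dbU.1 hx1).1⟩, hv.1⟩)
        · right
          intro z hz
          rw [mem_insert, mem_singleton] at hz
          rcases hz with rfl | rfl
          · exact hx1
          · exact hy1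
      refine ⟨{x, y}, G \ {x, y}, mem_OP.2 ⟨hside, hpc, by omega⟩,
        ⟨sdiff_subset.trans hdbl, ?_⟩, by omega, ?_, (union_sdiff_of_subset hpG).symm⟩
      · intro a ha b hb hab
        exact disj_of_card_biUnion (by omega) ha hb hab
      · rw [disjoint_comm, disjoint_iff_inter_eq_empty, ← card_eq_zero]
        omega

lemma bi_insert_card {h : P} {F : Finset P} (hs : h ∈ sgl P i) (hF : Dj i F)
    (hd : Disjoint (F.biUnion (ns i)) (ns i h)) :
    ((insert h F).biUnion (ns i)).card = 2 * F.card + 1 := by
  rw [biUnion_insert, card_union_of_disjoint hd.symm, (mem_sgl.1 hs).2,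
    Dj_bi_card hF (Subset.refl F)]
  omega

/-- value at a family with a single element -/
lemma KK_h (H : Gr P r) (hi : i ≤ r) {h : P} {F : Finset P} (hs : h ∈ sgl P i) (hF : Dj i F)
    (hd : Disjoint (F.biUnion (ns i)) (ns i h)) {n : ℕ} (hn : F.card + 1 = n) :
    KK i n (indK (insert h F)) = -eps i F := by
  have hhF : h ∉ F := fun h1 => sgl_not_dbl hs (hF.1 h1)
  have hG : insert h F ⊆ near P i := by
    intro x hx
    rcases mem_insert.1 hx with rfl | h1
    · exact (mem_sgl.1 hs).1
    · exact dbl_near (hF.1 h1)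
  have hd' : Disjoint (({h} : Finset P).biUnion (ns i)) (F.biUnion (ns i)) := by
    rw [singleton_biUnion]
    exact hd.symm
  have hins : insert h F = {h} ∪ F := rfl
  have hc := bi_insert_card hs hF hd
  rw [KK_G1 H hi hG (by rw [hins]; exact Sds_union Sds_single (Sds_F hF) hd')
    (by rw [card_insert_of_notMem hhF]; exact hn) (by omega)]
  have h1 := sig_union (i := i) (disjoint_singleton_left.2 hhF) hd'
  rw [sig_single hs, sig_F hF] at h1
  rw [hins]
  unfold sig at h1
  rw [h1]
  ring

/-- value at a family with an overlapping pair -/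
lemma KK_p (H : Gr P r) (hi : i ≤ r) {p F : Finset P} (hp : p ∈ OP P i) (hF : Dj i F)
    (hd : Disjoint (F.biUnion (ns i)) (p.biUnion (ns i))) {n : ℕ} (hn : F.card + 2 = n) :
    KK i n (indK (p ∪ F)) = osg i p * eps i F := by
  have hpd : Disjoint p F := (disj_of_sites hF.1 hd).symm
  have hp' := mem_OP.1 hp
  have hpn : p ⊆ near P i := by
    rcases hp'.1 with h | h
    · exact (h.trans subset_union_left).trans dbl_near
    · exact (h.trans subset_union_right).trans dbl_near
  have hG : p ∪ F ⊆ near P i := union_subset hpn (hF.1.trans dbl_near)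
  have hc : ((p ∪ F).biUnion (ns i)).card = 3 + 2 * F.card := by
    rw [union_biUnion, card_union_of_disjoint hd.symm, hp'.2.2, Dj_bi_card hF (Subset.refl F)]
  rw [KK_G1 H hi hG (Sds_union (Sds_pair hp) (Sds_F hF) hd.symm)
    (by rw [card_union_of_disjoint hpd, hp'.2.1]; omega) (by omega)]
  have h1 := sig_union (i := i) hpd hd.symm
  rw [sig_pair hp, sig_F hF] at h1
  unfold sig at h1
  exact h1

/-- sum over the near sets of size `n` -/
theorem near_sum (H : Gr P r) (hi : i ≤ r) {n : ℕ} (hn : 2 ≤ n) (hnb : n ≤ (lv P i).card) :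
    ∑ G ∈ (near P i).powersetCard n, KK i n (indK G) =
      ∑ F ∈ FF P i n, eps i F * (3 * ((F ∩ dbU P i).card : ℤ) - 2 * n) +
      ∑ h ∈ sgl P i, ∑ F ∈ FFa P i (n - 1) (ns i h), -eps i F +
      ∑ p ∈ OP P i, ∑ F ∈ FFa P i (n - 2) (p.biUnion (ns i)), osg i p * eps i F := by
  classical
  set I1 := ((sgl P i).sigma (fun h => FFa P i (n - 1) (ns i h))).image
    (fun q => insert q.1 q.2) with hI1
  set I2 := ((OP P i).sigma (fun p => FFa P i (n - 2) (p.biUnion (ns i)))).image
    (fun q => q.1 ∪ q.2) with hI2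
  have m1 : ∀ G, G ∈ I1 ↔ ∃ h F, h ∈ sgl P i ∧ Dj i F ∧ F.card + 1 = n ∧
      Disjoint (F.biUnion (ns i)) (ns i h) ∧ G = insert h F := by
    intro G
    rw [hI1, mem_image]
    constructor
    · rintro ⟨⟨h, F⟩, hq, rfl⟩
      rw [mem_sigma, mem_FFa] at hq
      have h9 : F.card = n - 1 := hq.2.2.1
      have h10 : F.card + 1 = n := by omega
      exact ⟨h, F, hq.1, hq.2.1, h10, hq.2.2.2, rfl⟩
    · rintro ⟨h, F, a, b, c, d, rfl⟩
      have h9 : F.card = n - 1 := by omega
      exact ⟨⟨h, F⟩, mem_sigma.2 ⟨a, mem_FFa.2 ⟨b, h9, d⟩⟩, rfl⟩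
  have m2 : ∀ G, G ∈ I2 ↔ ∃ p F, p ∈ OP P i ∧ Dj i F ∧ F.card + 2 = n ∧
      Disjoint (F.biUnion (ns i)) (p.biUnion (ns i)) ∧ G = p ∪ F := by
    intro G
    rw [hI2, mem_image]
    constructor
    · rintro ⟨⟨h, F⟩, hq, rfl⟩
      rw [mem_sigma, mem_FFa] at hq
      have h9 : F.card = n - 2 := hq.2.2.1
      have h10 : F.card + 2 = n := by omega
      exact ⟨h, F, hq.1, hq.2.1, h10, hq.2.2.2, rfl⟩
    · rintro ⟨h, F, a, b, c, d, rfl⟩
      have h9 : F.card = n - 2 := by omega
      exact ⟨⟨h, F⟩, mem_sigma.2 ⟨a, mem_FFa.2 ⟨b, h9, d⟩⟩, rfl⟩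
  have dA : Disjoint (FF P i n) I1 := by
    rw [disjoint_left]
    intro G h1 h2
    rw [mem_FF] at h1
    obtain ⟨h, F, a, b, c, d, rfl⟩ := (m1 G).1 h2
    exact sgl_not_dbl a (h1.1.1 (mem_insert_self _ _))
  have dB : Disjoint (FF P i n ∪ I1) I2 := by
    rw [disjoint_left]
    intro G h1 h2
    obtain ⟨p, F, a, b, c, d, rfl⟩ := (m2 G).1 h2
    have hp := mem_OP.1 a
    rcases mem_union.1 h1 with h3 | h3
    · rw [mem_FF] at h3
      have := Dj_bi_card h3.1 (subset_union_left (s₁ := p) (s₂ := F))
      rw [hp.2.2, hp.2.1] at this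
      omega
    · obtain ⟨h, F', a', b', c', d', e'⟩ := (m1 _).1 h3
      have h4 : h ∈ p ∪ F := by
        rw [e']
        exact mem_insert_self _ _
      apply sgl_not_dbl a'
      rcases mem_union.1 h4 with h5 | h5
      · rcases hp.1 with h6 | h6
        · exact mem_union_left _ (h6 h5)
        · exact mem_union_right _ (h6 h5)
      · exact b.1 h5
  have hsub : (FF P i n ∪ I1) ∪ I2 ⊆ (near P i).powersetCard n := by
    intro G hG
    rw [mem_powersetCard]
    rcases mem_union.1 hG with h1 | h1
    · rcases mem_union.1 h1 with h2 | h2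
      · rw [mem_FF] at h2
        exact ⟨h2.1.1.trans dbl_near, h2.2⟩
      · obtain ⟨h, F, a, b, c, d, rfl⟩ := (m1 G).1 h2
        refine ⟨?_, ?_⟩
        · intro x hx
          rcases mem_insert.1 hx with rfl | h3
          · exact (mem_sgl.1 a).1
          · exact dbl_near (b.1 h3)
        · rw [card_insert_of_notMem (fun h3 => sgl_not_dbl a (b.1 h3))]
          exact c
    · obtain ⟨p, F, a, b, c, d, rfl⟩ := (m2 G).1 h1
      have hp := mem_OP.1 a
      refine ⟨union_subset ?_ (b.1.trans dbl_near), ?_⟩
      · rcases hp.1 with h | h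
        · exact (h.trans subset_union_left).trans dbl_near
        · exact (h.trans subset_union_right).trans dbl_near
      · rw [card_union_of_disjoint (disj_of_sites b.1 d).symm, hp.2.1]
        omega
  rw [← sum_subset hsub, sum_union dB, sum_union dA]
  · congr 1
    · congr 1
      · refine sum_congr rfl fun F hF => ?_
        rw [mem_FF] at hF
        exact KK_F H hi hF.1 hF.2
      · rw [sum_sigma' (sgl P i) (fun h => FFa P i (n - 1) (ns i h)) (fun _ F => -eps i F), hI1,
          sum_image]
        · refine sum_congr rfl fun q hq => ?_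
          obtain ⟨h, F⟩ := q
          rw [mem_sigma, mem_FFa] at hq
          exact KK_h H hi hq.1 hq.2.1 hq.2.2.2 (by have := hq.2.2.1; simp only at this; omega)
        · rintro ⟨h, F⟩ hq ⟨h', F'⟩ hq' he
          rw [mem_coe, mem_sigma, mem_FFa] at hq hq'
          simp only at hq hq' he
          have e1 : h = h' := by
            have h1 : h ∈ insert h' F' := by
              rw [← he]
              exact mem_insert_self _ _
            rcases mem_insert.1 h1 with h2 | h2
            · exact h2
            · exact absurd (hq'.2.1.1 h2) (sgl_not_dbl hq.1)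
          subst e1
          have e2 : F = F' := by
            rw [← erase_insert (a := h) (s := F) (fun h1 => sgl_not_dbl hq.1 (hq.2.1.1 h1)), he,
              erase_insert (fun h1 => sgl_not_dbl hq.1 (hq'.2.1.1 h1))]
          rw [e2]
    · rw [sum_sigma' (OP P i) (fun p => FFa P i (n - 2) (p.biUnion (ns i)))
        (fun p F => osg i p * eps i F), hI2, sum_image]
      · refine sum_congr rfl fun q hq => ?_
        obtain ⟨p, F⟩ := q
        rw [mem_sigma, mem_FFa] at hq
        exact KK_p H hi hq.1 hq.2.1 hq.2.2.2 (by have := hq.2.2.1; simp only at this; omega)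
      · rintro ⟨p, F⟩ hq ⟨p', F'⟩ hq' he
        rw [mem_coe, mem_sigma, mem_FFa] at hq hq'
        simp only at hq hq' he
        have hp := mem_OP.1 hq.1
        have hp' := mem_OP.1 hq'.1
        have hsubp : p ⊆ p' := by
          obtain ⟨x, y, hxy, rfl⟩ := card_eq_two.1 hp.2.1
          have hx2 : x ∈ dbL P i ∪ dbU P i := by
            rcases hp.1 with h6 | h6
            · exact mem_union_left _ (h6 (by simp))
            · exact mem_union_right _ (h6 (by simp))
          have hy2 : y ∈ dbL P i ∪ dbU P i := by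
            rcases hp.1 with h6 | h6
            · exact mem_union_left _ (h6 (by simp))
            · exact mem_union_right _ (h6 (by simp))
          have hnd : ¬ Disjoint (ns i x) (ns i y) := by
            intro h1
            have h2 := hp.2.2
            rw [biUnion_insert, singleton_biUnion, card_union_of_disjoint h1, ns_card hx2,
              ns_card hy2] at h2
            omega
          have hx : x ∈ p' ∪ F' := by
            rw [← he]
            exact mem_union_left _ (by simp)
          have hy : y ∈ p' ∪ F' := by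
            rw [← he]
            exact mem_union_left _ (by simp)
          intro z hz
          rw [mem_insert, mem_singleton] at hz
          rcases mem_union.1 hx with hx1 | hx1 <;> rcases mem_union.1 hy with hy1 | hy1
          · rcases hz with rfl | rfl
            · exact hx1
            · exact hy1
          · exfalso
            apply hnd
            refine disjoint_of_subset_left (subset_biUnion_of_mem (ns i) hx1)
              (disjoint_of_subset_right (subset_biUnion_of_mem (ns i) hy1) hq'.2.2.2.symm)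
          · exfalso
            apply hnd
            exact disjoint_of_subset_left (subset_biUnion_of_mem (ns i) hx1)
              (disjoint_of_subset_right (subset_biUnion_of_mem (ns i) hy1) hq'.2.2.2)
          · exfalso
            exact hnd (hq'.2.1.2 x hx1 y hy1 hxy)
        have e1 : p = p' := eq_of_subset_of_card_le hsubp (by rw [hp.2.1, hp'.2.1])
        subst e1
        have e2 : F = F' := by
          have h1 := (disj_of_sites hq.2.1.1 hq.2.2.2)
          have h2 := (disj_of_sites hq'.2.1.1 hq'.2.2.2)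
          rw [← union_sdiff_cancel_left h1.symm, he, union_sdiff_cancel_left h2.symm]
        rw [e2]
  · intro G hG hnot
    rw [mem_powersetCard] at hG
    by_cases hS : Sds i G
    · by_cases hb : 2 * n ≤ (G.biUnion (ns i)).card + 1
      · exfalso
        apply hnot
        rcases near_cases H hi hG.1 hG.2 hS hb with h1 | h1 | h1
        · exact mem_union_left _ (mem_union_left _ (mem_FF.2 ⟨h1, hG.2⟩))
        · exact mem_union_left _ (mem_union_right _ ((m1 G).2 h1))
        · exact mem_union_right _ ((m2 G).2 h1)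
      · exact KK_G2 H hi hG.1 hG.2 hnb (by omega)
    · exact KK_G_not H hi hG.1 hS n

end T6N
end Pool.Agent.GaussPoset.Win
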