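import Pool.Agent.W_448t6_h94.TsH

/-! The identity at energy `n` (MP_448cb3_co). -/

namespace Pool.Agent.GaussPoset.Win
namespace T6N

set_option linter.unusedSectionVars false

open Finset

universe u

variable {P : Type u} [Fintype P] [PartialOrder P] [DecidableEq P] {r : ℕ} {i : ℕ}

/-- the signature of a configuration -/
def Sg1 (i : ℕ) (e : P → ℕ) : Prop := ∃ v, lev v = i ∧ 0 < e v
def Sg2 (i : ℕ) (e : P → ℕ) : Prop := ∃ v, lev v = i + 2 ∧ 0 < e v
def Sg3 (i : ℕ) (e : P → ℕ) : Prop := ∃ v, lev v + 2 = i ∧ 0 < e v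
def Sg4 (e : P → ℕ) : Prop := ∃ v, e v = 2

lemma sg_pos {a x : P} : 0 < sg a x ↔ x = a := by
  constructor
  · intro h
    by_contra h1
    rw [sg_ne h1] at h
    omega
  · rintro rfl
    rw [sg_self]
    exact one_pos

lemma sgT1 {e : P → ℕ} (h : T1 i e) : ¬ Sg1 i e ∧ ¬ Sg2 i e ∧ ¬ Sg3 i e ∧ ¬ Sg4 e := by
  obtain ⟨G, hG, rfl⟩ := h
  have key : ∀ x, 0 < indK G x → lev x = i + 1 ∨ lev x + 1 = i := fun x hx =>
    mem_near.1 (hG (indK_pos.1 hx))
  refine ⟨?_, ?_, ?_, ?_⟩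
  · rintro ⟨v, a, b⟩
    have := key v b
    omega
  · rintro ⟨v, a, b⟩
    have := key v b
    omega
  · rintro ⟨v, a, b⟩
    have := key v b
    omega
  · rintro ⟨v, a⟩
    have := indK_le G v
    omega

lemma sgT2 {e : P → ℕ} (h : T2 i e) : ¬ Sg1 i e ∧ ¬ Sg2 i e ∧ ¬ Sg3 i e ∧ Sg4 e := by
  obtain ⟨F, w, hF, hw, rfl⟩ := h
  have key : ∀ x, 0 < (indK F + sg w) x → lev x = i + 1 ∨ lev x + 1 = i := by
    intro x hx
    rw [Pi.add_apply] at hx
    by_cases h1 : x = w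
    · subst h1
      exact Dj_lev hF hw
    · rw [sg_ne h1, add_zero] at hx
      exact Dj_lev hF (indK_pos.1 hx)
  refine ⟨?_, ?_, ?_, ⟨w, ?_⟩⟩
  · rintro ⟨v, a, b⟩
    have := key v b
    omega
  · rintro ⟨v, a, b⟩
    have := key v b
    omega
  · rintro ⟨v, a, b⟩
    have := key v b
    omega
  · rw [Pi.add_apply, indK_of_mem hw, sg_self]

lemma sgT3 {e : P → ℕ} (h : T3 i e) : Sg1 i e ∧ ¬ Sg2 i e ∧ ¬ Sg3 i e ∧ ¬ Sg4 e := by
  obtain ⟨v0, G, hv, hG, rfl⟩ := h
  have key : ∀ x, 0 < indK (insert v0 G) x → lev x = i + 1 ∨ lev x + 1 = i ∨ lev x = i := by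
    intro x hx
    rcases mem_insert.1 (indK_pos.1 hx) with rfl | h1
    · exact Or.inr (Or.inr (mem_lv.1 hv))
    · have := mem_near.1 (dbl_near (hG h1))
      tauto
  refine ⟨⟨v0, mem_lv.1 hv, ?_⟩, ?_, ?_, ?_⟩
  · rw [indK_pos]
    exact mem_insert_self _ _
  · rintro ⟨v, a, b⟩
    have := key v b
    omega
  · rintro ⟨v, a, b⟩
    have := key v b
    omega
  · rintro ⟨v, a⟩
    have := indK_le (insert v0 G) v
    omega

lemma sgT4 {e : P → ℕ} (h : T4 i e) : ¬ Sg1 i e ∧ Sg2 i e ∧ ¬ Sg3 i e ∧ ¬ Sg4 e := by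
  obtain ⟨z, F, hz, hzF, hF, rfl⟩ := h
  have key : ∀ x, 0 < indK (insert z F) x → lev x = i + 1 ∨ lev x + 1 = i ∨ lev x = i + 2 := by
    intro x hx
    rcases mem_insert.1 (indK_pos.1 hx) with rfl | h1
    · exact Or.inr (Or.inr hz)
    · have := Dj_lev hF h1
      tauto
  refine ⟨?_, ⟨z, hz, ?_⟩, ?_, ?_⟩
  · rintro ⟨v, a, b⟩
    have := key v b
    omega
  · rw [indK_pos]
    exact mem_insert_self _ _
  · rintro ⟨v, a, b⟩
    have := key v b
    omega
  · rintro ⟨v, a⟩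
    have := indK_le (insert z F) v
    omega

lemma sgT5 {e : P → ℕ} (h : T5 i e) : ¬ Sg1 i e ∧ Sg2 i e ∧ ¬ Sg3 i e ∧ Sg4 e := by
  obtain ⟨z, F, hz, hz2, hzF, hF, rfl⟩ := h
  have key : ∀ x, 0 < (indK (insert z F) + sg z) x →
      lev x = i + 1 ∨ lev x + 1 = i ∨ lev x = i + 2 := by
    intro x hx
    rw [Pi.add_apply] at hx
    by_cases h1 : x = z
    · subst h1
      exact Or.inr (Or.inr hz)
    · rw [sg_ne h1, add_zero, ind_ins_ne h1] at hx
      have := Dj_lev hF (indK_pos.1 hx)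
      tauto
  have hval : (indK (insert z F) + sg z) z = 2 := by
    rw [Pi.add_apply, indK_of_mem (mem_insert_self _ _), sg_self]
  refine ⟨?_, ⟨z, hz, by omega⟩, ?_, ⟨z, hval⟩⟩
  · rintro ⟨v, a, b⟩
    have := key v b
    omega
  · rintro ⟨v, a, b⟩
    have := key v b
    omega

lemma sgT6 {e : P → ℕ} (h : T6 i e) : ¬ Sg1 i e ∧ ¬ Sg2 i e ∧ Sg3 i e ∧ ¬ Sg4 e := by
  obtain ⟨z, F, hz, hz1, hzF, hF, rfl⟩ := h
  have key : ∀ x, 0 < indK (insert z F) x → lev x = i + 1 ∨ lev x + 1 = i ∨ lev x + 2 = i := by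
    intro x hx
    rcases mem_insert.1 (indK_pos.1 hx) with rfl | h1
    · exact Or.inr (Or.inr hz)
    · have := Dj_lev hF h1
      tauto
  refine ⟨?_, ?_, ⟨z, hz, ?_⟩, ?_⟩
  · rintro ⟨v, a, b⟩
    have := key v b
    omega
  · rintro ⟨v, a, b⟩
    have := key v b
    omega
  · rw [indK_pos]
    exact mem_insert_self _ _
  · rintro ⟨v, a⟩
    have := indK_le (insert z F) v
    omega

open Classical in
/-- splitting into the six types -/
lemma split6 (s : Finset (P → ℕ)) (f : (P → ℕ) → ℤ)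
    (h0 : ∀ e ∈ s, ¬ (T1 i e ∨ T2 i e ∨ T3 i e ∨ T4 i e ∨ T5 i e ∨ T6 i e) → f e = 0) :
    ∑ e ∈ s, f e = ∑ e ∈ s.filter (T1 i), f e + ∑ e ∈ s.filter (T2 i), f e +
      ∑ e ∈ s.filter (T3 i), f e + ∑ e ∈ s.filter (T4 i), f e +
      ∑ e ∈ s.filter (T5 i), f e + ∑ e ∈ s.filter (T6 i), f e := by
  simp only [sum_filter]
  rw [← sum_add_distrib, ← sum_add_distrib, ← sum_add_distrib, ← sum_add_distrib,
    ← sum_add_distrib]
  refine sum_congr rfl fun e he => ?_
  by_cases h1 : T1 i e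
  · have a1 := sgT1 h1
    have a2 : ¬ T2 i e := fun h => by have := sgT2 h; tauto
    have a3 : ¬ T3 i e := fun h => by have := sgT3 h; tauto
    have a4 : ¬ T4 i e := fun h => by have := sgT4 h; tauto
    have a5 : ¬ T5 i e := fun h => by have := sgT5 h; tauto
    have a6 : ¬ T6 i e := fun h => by have := sgT6 h; tauto
    rw [if_pos h1, if_neg a2, if_neg a3, if_neg a4, if_neg a5, if_neg a6]
    ring
  rw [if_neg h1]
  by_cases h2 : T2 i e
  · have a1 := sgT2 h2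
    have a3 : ¬ T3 i e := fun h => by have := sgT3 h; tauto
    have a4 : ¬ T4 i e := fun h => by have := sgT4 h; tauto
    have a5 : ¬ T5 i e := fun h => by have := sgT5 h; tauto
    have a6 : ¬ T6 i e := fun h => by have := sgT6 h; tauto
    rw [if_pos h2, if_neg a3, if_neg a4, if_neg a5, if_neg a6]
    ring
  rw [if_neg h2]
  by_cases h3 : T3 i e
  · have a1 := sgT3 h3
    have a4 : ¬ T4 i e := fun h => by have := sgT4 h; tauto
    have a5 : ¬ T5 i e := fun h => by have := sgT5 h; tauto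
    have a6 : ¬ T6 i e := fun h => by have := sgT6 h; tauto
    rw [if_pos h3, if_neg a4, if_neg a5, if_neg a6]
    ring
  rw [if_neg h3]
  by_cases h4 : T4 i e
  · have a1 := sgT4 h4
    have a5 : ¬ T5 i e := fun h => by have := sgT5 h; tauto
    have a6 : ¬ T6 i e := fun h => by have := sgT6 h; tauto
    rw [if_pos h4, if_neg a5, if_neg a6]
    ring
  rw [if_neg h4]
  by_cases h5 : T5 i e
  · have a1 := sgT5 h5
    have a6 : ¬ T6 i e := fun h => by have := sgT6 h; tauto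
    rw [if_pos h5, if_neg a6]
    ring
  rw [if_neg h5]
  by_cases h6 : T6 i e
  · rw [if_pos h6]
    ring
  rw [if_neg h6, h0 e he (by tauto)]
  ring

lemma mem_anti {n : ℕ} {e : P → ℕ} : e ∈ (univ : Finset P).piAntidiag n ↔ ∑ x, e x = n := by
  rw [mem_piAntidiag]
  constructor
  · exact fun h => h.1
  · exact fun h => ⟨h, fun x _ => mem_univ x⟩

lemma sum_ind_sg (F : Finset P) (w : P) : ∑ x, (indK F + sg w) x = F.card + 1 := by
  have h1 : ∑ x, (indK F + sg w) x = ∑ x, indK F x + ∑ x, sg w x := by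
    rw [← sum_add_distrib]
    rfl
  have h2 : ∑ x, sg w x = 1 := by
    unfold sg
    rw [Finset.sum_pi_single']
    simp
  rw [h1, sum_indK, h2]

open Classical in
/-- the sum over all configurations of energy `n` -/
lemma total (H : Gr P r) (hi : i ≤ r) (h3 : ∀ x : P, lev x + 2 = i → dn i x ≤ 3) {n : ℕ}
    (hn : 2 ≤ n) (hnb : n ≤ (lv P i).card) :
    ∑ e ∈ ((univ : Finset P).piAntidiag n).filter (T1 i), KK i n e +
      ∑ e ∈ ((univ : Finset P).piAntidiag n).filter (T2 i), KK i n e +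
      ∑ e ∈ ((univ : Finset P).piAntidiag n).filter (T3 i), KK i n e +
      ∑ e ∈ ((univ : Finset P).piAntidiag n).filter (T4 i), KK i n e +
      ∑ e ∈ ((univ : Finset P).piAntidiag n).filter (T5 i), KK i n e +
      ∑ e ∈ ((univ : Finset P).piAntidiag n).filter (T6 i), KK i n e = 0 := by
  rw [← split6]
  · unfold KK
    rw [← map_sum]
    exact cf_dvd (by omega) (dvd_sum_trm H hi n)
  · intro e he hnot
    by_cases hc : Cheap (n - 2) i e
    · unfold KK
      exact cf_dvd (by omega) (dvd_trm_of_cheap hc)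
    · exfalso
      apply hnot
      rw [mem_anti] at he
      unfold Cheap at hc
      push Not at hc
      obtain ⟨hA, hB, hD, h5⟩ := hc
      exact cls1 H hi h3 hA hB hD (by omega)

end T6N
end Pool.Agent.GaussPoset.Win
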