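import Pool.Agent.W_448t6_h94.TsI

/-! The identity at energy `n`, parameters (MP_448cb3_co). -/

namespace Pool.Agent.GaussPoset.Win
namespace T6N

set_option linter.unusedSectionVars false

open Finset

universe u

variable {P : Type u} [Fintype P] [PartialOrder P] [DecidableEq P] {r : ℕ} {i : ℕ}

open Classical in
/-- families of size `k` with one site removed -/
noncomputable def SV (P : Type u) [Fintype P] [PartialOrder P] [DecidableEq P] (i k : ℕ) (v : P) :
    Finset (Finset P) := ((dbL P i ∪ dbU P i).powersetCard k).filter (fun G => SvF i v G)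

lemma mem_SV {k : ℕ} {v : P} {G : Finset P} : G ∈ SV P i k v ↔ SvF i v G ∧ G.card = k := by
  classical
  unfold SV
  rw [mem_filter, mem_powersetCard]
  constructor
  · rintro ⟨⟨_, h2⟩, h3⟩
    exact ⟨h3, h2⟩
  · rintro ⟨h1, h2⟩
    exact ⟨⟨h1.1, h2⟩, h1⟩

/-- families of size `k` containing the set `T` -/
noncomputable def FFc (P : Type u) [Fintype P] [PartialOrder P] [DecidableEq P] (i k : ℕ)
    (T : Finset P) : Finset (Finset P) := (FF P i k).filter (fun F => T ⊆ F)

lemma mem_FFc {k : ℕ} {T F : Finset P} : F ∈ FFc P i k T ↔ Dj i F ∧ F.card = k ∧ T ⊆ F := by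
  unfold FFc
  rw [mem_filter, mem_FF, and_assoc]

open Classical in
lemma par1 (n : ℕ) : ∑ e ∈ ((univ : Finset P).piAntidiag n).filter (T1 i), KK i n e =
    ∑ G ∈ (near P i).powersetCard n, KK i n (indK G) := by
  have h : ((univ : Finset P).piAntidiag n).filter (T1 i) =
      ((near P i).powersetCard n).image indK := by
    ext e
    rw [mem_filter, mem_anti, mem_image]
    constructor
    · rintro ⟨h1, G, hG, rfl⟩
      rw [sum_indK] at h1
      exact ⟨G, mem_powersetCard.2 ⟨hG, h1⟩, rfl⟩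
    · rintro ⟨G, hG, rfl⟩
      rw [mem_powersetCard] at hG
      exact ⟨by rw [sum_indK, hG.2], G, hG.1, rfl⟩
  rw [h, sum_image (fun F _ G _ h => indK_inj h)]

lemma supp_F2 {F : Finset P} {w : P} (hw : w ∈ F) (x : P) : 0 < (indK F + sg w) x ↔ x ∈ F := by
  rw [Pi.add_apply]
  by_cases hx : x = w
  · subst hx
    rw [sg_self]
    constructor
    · exact fun _ => hw
    · intro _
      omega
  · rw [sg_ne hx, add_zero, indK_pos]

lemma F2_inj {F F' : Finset P} {w w' : P} (hw : w ∈ F) (hw' : w' ∈ F')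
    (h : indK F + sg w = indK F' + sg w') : F = F' ∧ w = w' := by
  constructor
  · ext x
    rw [← supp_F2 hw x, ← supp_F2 hw' x, h]
  · by_contra hne
    have h1 := congrFun h w
    rw [Pi.add_apply, Pi.add_apply, sg_self, indK_of_mem hw, sg_ne hne] at h1
    have := indK_le F' w
    omega

open Classical in
lemma par2 (H : Gr P r) (hi : i ≤ r) {n : ℕ} (hn : 2 ≤ n) :
    ∑ e ∈ ((univ : Finset P).piAntidiag n).filter (T2 i), KK i n e = 0 := by
  have h : ((univ : Finset P).piAntidiag n).filter (T2 i) =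
      ((FF P i (n - 1)).sigma (fun F => F)).image (fun q => indK q.1 + sg q.2) := by
    ext e
    rw [mem_filter, mem_anti, mem_image]
    constructor
    · rintro ⟨h1, F, w, hF, hw, rfl⟩
      rw [sum_ind_sg] at h1
      have h9 : F.card = n - 1 := by omega
      exact ⟨⟨F, w⟩, mem_sigma.2 ⟨mem_FF.2 ⟨hF, h9⟩, hw⟩, rfl⟩
    · rintro ⟨⟨F, w⟩, hq, rfl⟩
      rw [mem_sigma, mem_FF] at hq
      have h9 : F.card = n - 1 := hq.1.2
      exact ⟨by rw [sum_ind_sg]; omega, F, w, hq.1.1, hq.2, rfl⟩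
  rw [h, sum_image, ← sum_sigma' (FF P i (n - 1)) (fun F => F) (fun F w => KK i n (indK F + sg w))]
  · have h2 : ∀ F ∈ FF P i (n - 1), ∑ w ∈ F, KK i n (indK F + sg w) =
        ((n - 1 : ℕ) : ℤ) * (-1) ^ (F ∩ dbU P i).card := by
      intro F hF
      rw [mem_FF] at hF
      have h3 : ∀ w ∈ F, KK i n (indK F + sg w) = (-1) ^ (F ∩ dbU P i).card := by
        intro w hw
        unfold KK
        rw [trm_F2 H hi hF.1 hw, ← eps_eq]
        exact KK_F1 H hi hF.1 (by omega) ⟨w, hw⟩
      rw [sum_congr rfl h3, sum_const, hF.2, nsmul_eq_mul]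
    rw [sum_congr rfl h2, ← mul_sum, kk H hi (by omega), mul_zero]
  · rintro ⟨F, w⟩ hq ⟨F', w'⟩ hq' he
    rw [mem_coe, mem_sigma] at hq hq'
    obtain ⟨e1, e2⟩ := F2_inj (show w ∈ F from hq.2) (show w' ∈ F' from hq'.2) he
    rw [e1, e2]

open Classical in
lemma par3 (H : Gr P r) (hi : i ≤ r) {n : ℕ} (hn : 2 ≤ n) (hnb : n ≤ (lv P i).card) :
    ∑ e ∈ ((univ : Finset P).piAntidiag n).filter (T3 i), KK i n e =
      ∑ v ∈ lv P i, ∑ G ∈ SV P i (n - 1) v, ∏ x ∈ G, sgv i v x := by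
  have hnot : ∀ v ∈ lv P i, ∀ G ⊆ dbL P i ∪ dbU P i, v ∉ G := by
    intro v hv G hG hvG
    have h1 := mem_near.1 (dbl_near (hG hvG))
    rw [mem_lv] at hv
    omega
  have h : ((univ : Finset P).piAntidiag n).filter (T3 i) =
      ((lv P i) ×ˢ (dbL P i ∪ dbU P i).powersetCard (n - 1)).image
        (fun q => indK (insert q.1 q.2)) := by
    ext e
    rw [mem_filter, mem_anti, mem_image]
    constructor
    · rintro ⟨h1, v, G, hv, hG, rfl⟩
      rw [sum_indK, card_insert_of_notMem (hnot v hv G hG)] at h1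
      exact ⟨⟨v, G⟩, mem_product.2 ⟨hv, mem_powersetCard.2 ⟨hG, by simp only; omega⟩⟩, rfl⟩
    · rintro ⟨⟨v, G⟩, hq, rfl⟩
      rw [mem_product, mem_powersetCard] at hq
      obtain ⟨hv, hG, hc⟩ := hq
      simp only at hv hG hc
      exact ⟨by rw [sum_indK, card_insert_of_notMem (hnot v hv G hG)]; omega, v, G, hv, hG, rfl⟩
  rw [h, sum_image, sum_product]
  · refine sum_congr rfl fun v hv => ?_
    unfold SV
    rw [sum_filter]
    refine sum_congr rfl fun G hG => ?_
    rw [mem_powersetCard] at hG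
    have h1 := KK_site (n := n) H hi hv hG.1 (by omega) hnb
    split_ifs with h2
    · exact h1.1 h2
    · exact h1.2 h2
  · rintro ⟨v, G⟩ hq ⟨v', G'⟩ hq' he
    rw [mem_coe, mem_product, mem_powersetCard] at hq hq'
    obtain ⟨hv, hG, hc⟩ := hq
    obtain ⟨hv', hG', hc'⟩ := hq'
    simp only at hv hG hc hv' hG' hc' he
    have h1 := indK_inj he
    have e1 : v = v' := by
      have h2 : v ∈ insert v' G' := by
        rw [← h1]
        exact mem_insert_self _ _
      rcases mem_insert.1 h2 with h3 | h3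
      · exact h3
      · exact absurd h3 (hnot v hv G' hG')
    subst e1
    have e2 : G = G' := by
      rw [← erase_insert (hnot v hv G hG), h1, erase_insert (hnot v hv G' hG')]
    rw [e2]

open Classical in
lemma par4 (H : Gr P r) (hi : i ≤ r) {n : ℕ} (hn : 2 ≤ n) :
    ∑ e ∈ ((univ : Finset P).piAntidiag n).filter (T4 i), KK i n e =
      ∑ z ∈ lv P (i + 2), ∑ F ∈ FFc P i (n - 1) (uc z), eps i F := by
  have hnot : ∀ z ∈ lv P (i + 2), ∀ F, Dj i F → z ∉ F := by
    intro z hz F hF hzF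
    have h1 := Dj_lev hF hzF
    rw [mem_lv] at hz
    omega
  have h : ((univ : Finset P).piAntidiag n).filter (T4 i) =
      ((lv P (i + 2)).sigma (fun z => FFc P i (n - 1) (uc z))).image
        (fun q => indK (insert q.1 q.2)) := by
    ext e
    rw [mem_filter, mem_anti, mem_image]
    constructor
    · rintro ⟨h1, z, F, hz, hzF, hF, rfl⟩
      rw [sum_indK, card_insert_of_notMem (hnot z (mem_lv.2 hz) F hF)] at h1
      have h9 : F.card = n - 1 := by omega
      exact ⟨⟨z, F⟩, mem_sigma.2 ⟨mem_lv.2 hz, mem_FFc.2 ⟨hF, h9, hzF⟩⟩, rfl⟩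
    · rintro ⟨⟨z, F⟩, hq, rfl⟩
      rw [mem_sigma, mem_FFc] at hq
      obtain ⟨hz, hF, hc, hzF⟩ := hq
      simp only at hz hF hc hzF
      exact ⟨by rw [sum_indK, card_insert_of_notMem (hnot z hz F hF)]; omega, z, F, mem_lv.1 hz,
        hzF, hF, rfl⟩
  rw [h, sum_image, sum_sigma]
  · refine sum_congr rfl fun z hz => sum_congr rfl fun F hF => ?_
    rw [mem_FFc] at hF
    rw [mem_lv] at hz
    unfold KK
    rw [trm_F4 H hF.1 hz hF.2.2]
    refine KK_F1 H hi hF.1 (by omega) ?_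
    obtain ⟨y, hy⟩ := uc_nonempty H (x := z) (by omega)
    exact ⟨y, hF.2.2 hy⟩
  · rintro ⟨v, G⟩ hq ⟨v', G'⟩ hq' he
    rw [mem_coe, mem_sigma, mem_FFc] at hq hq'
    obtain ⟨hv, hG, hc, _⟩ := hq
    obtain ⟨hv', hG', hc', _⟩ := hq'
    simp only at hv hG hc hv' hG' hc' he
    have h1 := indK_inj he
    have e1 : v = v' := by
      have h2 : v ∈ insert v' G' := by
        rw [← h1]
        exact mem_insert_self _ _
      rcases mem_insert.1 h2 with h3 | h3
      · exact h3
      · exact absurd h3 (hnot v hv G' hG')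
    subst e1
    have e2 : G = G' := by
      rw [← erase_insert (hnot v hv G hG), h1, erase_insert (hnot v hv G' hG')]
    rw [e2]

open Classical in
lemma par5 (H : Gr P r) (hi : i ≤ r) {n : ℕ} (hn : 2 ≤ n) :
    ∑ e ∈ ((univ : Finset P).piAntidiag n).filter (T5 i), KK i n e =
      ∑ z ∈ (lv P (i + 2)).filter (fun z => (uc z).card = 2),
        ∑ F ∈ FFc P i (n - 2) (uc z), eps i F := by
  have hnot : ∀ z : P, lev z = i + 2 → ∀ F, Dj i F → z ∉ F := by
    intro z hz F hF hzF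
    have h1 := Dj_lev hF hzF
    omega
  have h : ((univ : Finset P).piAntidiag n).filter (T5 i) =
      (((lv P (i + 2)).filter (fun z => (uc z).card = 2)).sigma
        (fun z => FFc P i (n - 2) (uc z))).image (fun q => indK (insert q.1 q.2) + sg q.1) := by
    ext e
    rw [mem_filter, mem_anti, mem_image]
    constructor
    · rintro ⟨h1, z, F, hz, hz2, hzF, hF, rfl⟩
      rw [sum_ind_sg, card_insert_of_notMem (hnot z hz F hF)] at h1
      have h9 : F.card = n - 2 := by omega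
      exact ⟨⟨z, F⟩, mem_sigma.2 ⟨mem_filter.2 ⟨mem_lv.2 hz, hz2⟩, mem_FFc.2 ⟨hF, h9, hzF⟩⟩, rfl⟩
    · rintro ⟨⟨z, F⟩, hq, rfl⟩
      rw [mem_sigma, mem_FFc, mem_filter, mem_lv] at hq
      obtain ⟨⟨hz, hz2⟩, hF, hc, hzF⟩ := hq
      simp only at hz hF hc hzF hz2
      have h8 := card_le_card hzF
      exact ⟨by rw [sum_ind_sg, card_insert_of_notMem (hnot z hz F hF)]; omega, z, F, hz, hz2,
        hzF, hF, rfl⟩
  rw [h, sum_image, sum_sigma]
  · refine sum_congr rfl fun z hz => sum_congr rfl fun F hF => ?_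
    rw [mem_FFc] at hF
    rw [mem_filter, mem_lv] at hz
    have h8 := card_le_card hF.2.2
    exact KK_F5 H hi hF.1 hz.1 hz.2 hF.2.2 (by omega)
  · rintro ⟨v, G⟩ hq ⟨v', G'⟩ hq' he
    rw [mem_coe, mem_sigma, mem_FFc, mem_filter, mem_lv] at hq hq'
    obtain ⟨⟨hv, _⟩, hG, hc, _⟩ := hq
    obtain ⟨⟨hv', _⟩, hG', hc', _⟩ := hq'
    simp only at hv hG hc hv' hG' hc' he
    obtain ⟨h1, e1⟩ := F2_inj (mem_insert_self _ _) (mem_insert_self _ _) he
    subst e1
    have e2 : G = G' := by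
      rw [← erase_insert (hnot v hv G hG), h1, erase_insert (hnot v hv G' hG')]
    rw [e2]

open Classical in
lemma par6 (H : Gr P r) (hi : i ≤ r) {n : ℕ} (hn : 2 ≤ n) :
    ∑ e ∈ ((univ : Finset P).piAntidiag n).filter (T6 i), KK i n e =
      ∑ z ∈ (lU P i 2).filter (fun z => (dc z).card = 1),
        ∑ F ∈ FFc P i (n - 1) (dc z), eps i F := by
  have hnot : ∀ z : P, lev z + 2 = i → ∀ F, Dj i F → z ∉ F := by
    intro z hz F hF hzF
    have h1 := Dj_lev hF hzF
    omega
  have h : ((univ : Finset P).piAntidiag n).filter (T6 i) =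
      (((lU P i 2).filter (fun z => (dc z).card = 1)).sigma
        (fun z => FFc P i (n - 1) (dc z))).image (fun q => indK (insert q.1 q.2)) := by
    ext e
    rw [mem_filter, mem_anti, mem_image]
    constructor
    · rintro ⟨h1, z, F, hz, hz2, hzF, hF, rfl⟩
      rw [sum_indK, card_insert_of_notMem (hnot z hz F hF)] at h1
      have h9 : F.card = n - 1 := by omega
      exact ⟨⟨z, F⟩, mem_sigma.2 ⟨mem_filter.2 ⟨mem_lU.2 hz, hz2⟩, mem_FFc.2 ⟨hF, h9, hzF⟩⟩, rfl⟩
    · rintro ⟨⟨z, F⟩, hq, rfl⟩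
      rw [mem_sigma, mem_FFc, mem_filter, mem_lU] at hq
      obtain ⟨⟨hz, hz2⟩, hF, hc, hzF⟩ := hq
      simp only at hz hF hc hzF hz2
      exact ⟨by rw [sum_indK, card_insert_of_notMem (hnot z hz F hF)]; omega, z, F, hz, hz2,
        hzF, hF, rfl⟩
  rw [h, sum_image, sum_sigma]
  · refine sum_congr rfl fun z hz => sum_congr rfl fun F hF => ?_
    rw [mem_FFc] at hF
    rw [mem_filter, mem_lU] at hz
    unfold KK
    rw [trm_F6 H hi hF.1 hz.1 hF.2.2]
    refine KK_F1 H hi hF.1 (by omega) ?_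
    obtain ⟨y, hy⟩ := dc_nonempty H (x := z) (by omega)
    exact ⟨y, hF.2.2 hy⟩
  · rintro ⟨v, G⟩ hq ⟨v', G'⟩ hq' he
    rw [mem_coe, mem_sigma, mem_FFc, mem_filter, mem_lU] at hq hq'
    obtain ⟨⟨hv, _⟩, hG, hc, _⟩ := hq
    obtain ⟨⟨hv', _⟩, hG', hc', _⟩ := hq'
    simp only at hv hG hc hv' hG' hc' he
    have h1 := indK_inj he
    have e1 : v = v' := by
      have h2 : v ∈ insert v' G' := by
        rw [← h1]
        exact mem_insert_self _ _
      rcases mem_insert.1 h2 with h3 | h3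
      · exact h3
      · exact absurd h3 (hnot v hv G' hG')
    subst e1
    have e2 : G = G' := by
      rw [← erase_insert (hnot v hv G hG), h1, erase_insert (hnot v hv G' hG')]
    rw [e2]

end T6N
end Pool.Agent.GaussPoset.Win
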