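import Pool.Agent.W_448t6_h94.TsJ

/-! The first order identity at `s = -1`, raw form (MP_448cb3_co). -/

namespace Pool.Agent.GaussPoset.Win
namespace T6N

set_option linter.unusedSectionVars false

open Finset

universe u

variable {P : Type u} [Fintype P] [PartialOrder P] [DecidableEq P] {r : ℕ} {i : ℕ}

/-- the identity at energy `n` -/
theorem idn (H : Gr P r) (hi : i ≤ r) (h3 : ∀ x : P, lev x + 2 = i → dn i x ≤ 3) {n : ℕ}
    (hn : 2 ≤ n) :
    ∑ F ∈ FF P i n, eps i F * (3 * ((F ∩ dbU P i).card : ℤ) - 2 * n) +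
      ∑ h ∈ sgl P i, ∑ F ∈ FFa P i (n - 1) (ns i h), -eps i F +
      ∑ p ∈ OP P i, ∑ F ∈ FFa P i (n - 2) (p.biUnion (ns i)), osg i p * eps i F +
      ∑ v ∈ lv P i, ∑ G ∈ SV P i (n - 1) v, ∏ x ∈ G, sgv i v x +
      ∑ z ∈ lv P (i + 2), ∑ F ∈ FFc P i (n - 1) (uc z), eps i F +
      ∑ z ∈ (lv P (i + 2)).filter (fun z => (uc z).card = 2),
        ∑ F ∈ FFc P i (n - 2) (uc z), eps i F +
      ∑ z ∈ (lU P i 2).filter (fun z => (dc z).card = 1),
        ∑ F ∈ FFc P i (n - 1) (dc z), eps i F = 0 := by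
  classical
  by_cases hnb : n ≤ (lv P i).card
  · have h := total H hi h3 hn hnb
    rw [par1, par2 H hi hn, par3 H hi hn hnb, par4 H hi hn, par5 H hi hn, par6 H hi hn,
      near_sum H hi hn hnb] at h
    linarith
  · push Not at hnb
    have e1 : FF P i n = ∅ := by
      rw [eq_empty_iff_forall_notMem]
      intro F hF
      rw [mem_FF] at hF
      have := Dj_two_le H hF.1
      omega
    have hFFac : ∀ (k : ℕ) (T : Finset P), T ⊆ lv P i → ∀ F ∈ FFa P i k T,
        2 * k + T.card ≤ (lv P i).card := by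
      intro k T hT F hF
      rw [mem_FFa] at hF
      have h1 := Dj_bi_card hF.1 (Subset.refl F)
      have h2 : F.biUnion (ns i) ∪ T ⊆ lv P i := by
        refine union_subset (bi_sub H (hF.1.1.trans dbl_near)) hT
      have h3 := card_le_card h2
      rw [card_union_of_disjoint hF.2.2, h1, hF.2.1] at h3
      exact h3
    have e2 : ∀ h ∈ sgl P i, FFa P i (n - 1) (ns i h) = ∅ := by
      intro h hh
      rw [eq_empty_iff_forall_notMem]
      intro F hF
      rw [mem_sgl] at hh
      have h1 := hFFac (n - 1) (ns i h) (fun v hv => mem_lv.2 (ns_lv H hh.1 hv)) F hF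
      omega
    have e3 : ∀ p ∈ OP P i, FFa P i (n - 2) (p.biUnion (ns i)) = ∅ := by
      intro p hp
      rw [eq_empty_iff_forall_notMem]
      intro F hF
      rw [mem_OP] at hp
      have h1 := hFFac (n - 2) (p.biUnion (ns i)) (bi_sub H (by
        rcases hp.1 with h | h
        · exact (h.trans subset_union_left).trans dbl_near
        · exact (h.trans subset_union_right).trans dbl_near)) F hF
      omega
    have e4 : ∀ v ∈ lv P i, SV P i (n - 1) v = ∅ := by
      intro v hv
      rw [eq_empty_iff_forall_notMem]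
      intro G hG
      rw [mem_SV] at hG
      have h1 : (G.biUnion (fun x => ns i x \ {v})).card = ∑ x ∈ G, (ns i x \ {v}).card :=
        card_biUnion (fun x hx y hy hne => hG.1.2 x hx y hy hne)
      have h2 : G.biUnion (fun x => ns i x \ {v}) ⊆ (lv P i).erase v := by
        rw [biUnion_subset]
        intro x hx y hy
        rw [mem_sdiff, mem_singleton] at hy
        exact mem_erase.2 ⟨hy.2, mem_lv.2 (ns_lv H (dbl_near (hG.1.1 hx)) hy.1)⟩
      have h3 := card_le_card h2
      rw [card_erase_of_mem hv, h1] at h3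
      have h4 := sum_ns_sdiff hG.1.1 v
      have h5 : (G.filter (fun x => v ∈ ns i x)).card ≤ G.card := card_filter_le _ _
      have h6 := card_pos.2 ⟨v, hv⟩
      omega
    have e5 : ∀ z ∈ lv P (i + 2), FFc P i (n - 1) (uc z) = ∅ := by
      intro z hz
      rw [eq_empty_iff_forall_notMem]
      intro F hF
      rw [mem_FFc] at hF
      have := Dj_two_le H hF.1
      omega
    have e6 : ∀ z ∈ (lv P (i + 2)).filter (fun z => (uc z).card = 2),
        FFc P i (n - 2) (uc z) = ∅ := by
      intro z hz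
      rw [eq_empty_iff_forall_notMem]
      intro F hF
      rw [mem_FFc] at hF
      rw [mem_filter] at hz
      have := Dj_two_le H hF.1
      have := card_le_card hF.2.2
      omega
    have e7 : ∀ z ∈ (lU P i 2).filter (fun z => (dc z).card = 1),
        FFc P i (n - 1) (dc z) = ∅ := by
      intro z hz
      rw [eq_empty_iff_forall_notMem]
      intro F hF
      rw [mem_FFc] at hF
      have := Dj_two_le H hF.1
      omega
    have f2 : ∑ h ∈ sgl P i, ∑ F ∈ FFa P i (n - 1) (ns i h), -eps i F = 0 :=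
      sum_eq_zero fun h hh => by rw [e2 h hh, sum_empty]
    have f3 : ∑ p ∈ OP P i, ∑ F ∈ FFa P i (n - 2) (p.biUnion (ns i)), osg i p * eps i F = 0 :=
      sum_eq_zero fun h hh => by rw [e3 h hh, sum_empty]
    have f4 : ∑ v ∈ lv P i, ∑ G ∈ SV P i (n - 1) v, ∏ x ∈ G, sgv i v x = 0 :=
      sum_eq_zero fun h hh => by rw [e4 h hh, sum_empty]
    have f5 : ∑ z ∈ lv P (i + 2), ∑ F ∈ FFc P i (n - 1) (uc z), eps i F = 0 :=
      sum_eq_zero fun h hh => by rw [e5 h hh, sum_empty]
    have f6 : ∑ z ∈ (lv P (i + 2)).filter (fun z => (uc z).card = 2),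
        ∑ F ∈ FFc P i (n - 2) (uc z), eps i F = 0 :=
      sum_eq_zero fun h hh => by rw [e6 h hh, sum_empty]
    have f7 : ∑ z ∈ (lU P i 2).filter (fun z => (dc z).card = 1),
        ∑ F ∈ FFc P i (n - 1) (dc z), eps i F = 0 :=
      sum_eq_zero fun h hh => by rw [e7 h hh, sum_empty]
    rw [e1, f2, f3, f4, f5, f6, f7, sum_empty]
    ring

section layers

variable (X : Finset (Finset P)) (g : Finset P → ℤ) (K : ℕ)

lemma lay0 (hX : ∀ F ∈ X, F.card ≤ K) (j : ℕ) :
    ∑ m ∈ range (K + 1 + j), (-1 : ℤ) ^ m * ∑ F ∈ X.filter (fun F => F.card = m), g F =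
      ∑ F ∈ X, (-1 : ℤ) ^ F.card * g F := by
  rw [← sum_fiberwise_of_maps_to (s := X) (t := range (K + 1 + j)) (g := fun F => F.card)
    (fun F hF => mem_range.2 (by have := hX F hF; omega))]
  refine sum_congr rfl fun m _ => ?_
  rw [mul_sum]
  refine sum_congr rfl fun F hF => ?_
  rw [(mem_filter.1 hF).2]

lemma lay1 (hX : ∀ F ∈ X, F.card ≤ K) :
    ∑ m ∈ range (K + 1), (-1 : ℤ) ^ m * ∑ F ∈ X.filter (fun F => F.card = m + 1), g F =
      ∑ F ∈ X.filter (fun F => F.card = 0), g F - ∑ F ∈ X, (-1 : ℤ) ^ F.card * g F := by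
  rw [← lay0 X g K hX 1, sum_range_succ' _ (K + 1)]
  have h : ∑ m ∈ range (K + 1), (-1 : ℤ) ^ (m + 1) *
      ∑ F ∈ X.filter (fun F => F.card = m + 1), g F =
      - ∑ m ∈ range (K + 1), (-1 : ℤ) ^ m * ∑ F ∈ X.filter (fun F => F.card = m + 1), g F := by
    rw [← sum_neg_distrib]
    refine sum_congr rfl fun m _ => ?_
    rw [pow_succ]
    ring
  rw [h, pow_zero]
  ring

lemma lay2 (hX : ∀ F ∈ X, F.card ≤ K) :
    ∑ m ∈ range (K + 1), (-1 : ℤ) ^ m * ∑ F ∈ X.filter (fun F => F.card = m + 2), g F =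
      ∑ F ∈ X, (-1 : ℤ) ^ F.card * g F - ∑ F ∈ X.filter (fun F => F.card = 0), g F +
        ∑ F ∈ X.filter (fun F => F.card = 1), g F := by
  rw [← lay0 X g K hX 2, sum_range_succ' _ (K + 2), sum_range_succ' _ (K + 1)]
  have h : ∑ m ∈ range (K + 1), (-1 : ℤ) ^ (m + 1 + 1) *
      ∑ F ∈ X.filter (fun F => F.card = m + 1 + 1), g F =
      ∑ m ∈ range (K + 1), (-1 : ℤ) ^ m * ∑ F ∈ X.filter (fun F => F.card = m + 2), g F := by
    refine sum_congr rfl fun m _ => ?_
    rw [pow_succ, pow_succ]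
    ring
  rw [h, pow_zero, zero_add, pow_one]
  ring

end layers

open Classical in
/-- all disjoint families -/
noncomputable def FA (P : Type u) [Fintype P] [PartialOrder P] [DecidableEq P] (i : ℕ) :
    Finset (Finset P) := (dbL P i ∪ dbU P i).powerset.filter (fun F => Dj i F)

open Classical in
/-- all families with the site `v` removed -/
noncomputable def SA (P : Type u) [Fintype P] [PartialOrder P] [DecidableEq P] (i : ℕ) (v : P) :
    Finset (Finset P) := (dbL P i ∪ dbU P i).powerset.filter (fun F => SvF i v F)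

lemma mem_FA {F : Finset P} : F ∈ FA P i ↔ Dj i F := by
  classical
  unfold FA
  rw [mem_filter, mem_powerset]
  exact ⟨fun h => h.2, fun h => ⟨h.1, h⟩⟩

lemma mem_SA {v : P} {F : Finset P} : F ∈ SA P i v ↔ SvF i v F := by
  classical
  unfold SA
  rw [mem_filter, mem_powerset]
  exact ⟨fun h => h.2, fun h => ⟨h.1, h⟩⟩

/-- weight of a family at `s = -1` -/
noncomputable def om (i : ℕ) (F : Finset P) : ℤ := (-1) ^ F.card * eps i F

/-- families avoiding the sites `T` at `s = -1` -/
noncomputable def ph (i : ℕ) (T : Finset P) : ℤ :=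
  ∑ F ∈ (FA P i).filter (fun F => Disjoint (F.biUnion (ns i)) T), om i F

/-- families containing `T` at `s = -1` -/
noncomputable def ps (i : ℕ) (T : Finset P) : ℤ := ∑ F ∈ (FA P i).filter (fun F => T ⊆ F), om i F

/-- the site sum at `s = -1` -/
noncomputable def GG (i : ℕ) (v : P) : ℤ := ∑ G ∈ SA P i v, (-1) ^ G.card * ∏ x ∈ G, sgv i v x

lemma FF_eq (k : ℕ) : FF P i k = (FA P i).filter (fun F => F.card = k) := by
  ext F
  rw [mem_FF, mem_filter, mem_FA]

lemma FFa_eq (k : ℕ) (T : Finset P) : FFa P i k T =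
    ((FA P i).filter (fun F => Disjoint (F.biUnion (ns i)) T)).filter (fun F => F.card = k) := by
  ext F
  rw [mem_FFa, mem_filter, mem_filter, mem_FA]
  tauto

lemma FFc_eq (k : ℕ) (T : Finset P) : FFc P i k T =
    ((FA P i).filter (fun F => T ⊆ F)).filter (fun F => F.card = k) := by
  ext F
  rw [mem_FFc, mem_filter, mem_filter, mem_FA]
  tauto

lemma SV_eq (k : ℕ) (v : P) : SV P i k v = (SA P i v).filter (fun F => F.card = k) := by
  ext F
  rw [mem_SV, mem_filter, mem_SA]

end T6N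
end Pool.Agent.GaussPoset.Win
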