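import Pool.Agent.W_448t6_h94.TsK

/-! The first order identity at `s = -1`, raw form, summation (MP_448cb3_co). -/

namespace Pool.Agent.GaussPoset.Win
namespace T6N

set_option linter.unusedSectionVars false

open Finset

universe u

variable {P : Type u} [Fintype P] [PartialOrder P] [DecidableEq P] {r : ℕ} {i : ℕ}

lemma FA_card {F : Finset P} (h : F ∈ FA P i) : F.card ≤ (dbL P i ∪ dbU P i).card :=
  card_le_card (mem_FA.1 h).1

lemma SA_card {v : P} {F : Finset P} (h : F ∈ SA P i v) : F.card ≤ (dbL P i ∪ dbU P i).card :=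
  card_le_card (mem_SA.1 h).1

lemma Dj_empty : Dj i (∅ : Finset P) :=
  ⟨empty_subset _, fun x hx => absurd hx (notMem_empty x)⟩

lemma SvF_empty (v : P) : SvF i v (∅ : Finset P) :=
  ⟨empty_subset _, fun x hx => absurd hx (notMem_empty x)⟩

lemma zero_fib {X : Finset (Finset P)} (h : ∅ ∈ X) (g : Finset P → ℤ) :
    ∑ F ∈ X.filter (fun F => F.card = 0), g F = g ∅ := by
  have h1 : X.filter (fun F => F.card = 0) = {∅} := by
    ext F
    rw [mem_filter, mem_singleton, card_eq_zero]
    constructor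
    · exact fun h2 => h2.2
    · rintro rfl
      exact ⟨h, rfl⟩
  rw [h1, sum_singleton]

lemma zero_fib' {X : Finset (Finset P)} (h : ∅ ∉ X) (g : Finset P → ℤ) :
    ∑ F ∈ X.filter (fun F => F.card = 0), g F = 0 := by
  have h1 : X.filter (fun F => F.card = 0) = ∅ := by
    rw [filter_eq_empty_iff]
    intro F hF h2
    rw [card_eq_zero] at h2
    subst h2
    exact h hF
  rw [h1, sum_empty]

lemma eps_empty : eps i (∅ : Finset P) = 1 := by
  unfold eps
  exact prod_empty

/-- sum of a layer identity -/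
lemma lsum (K : ℕ) (f : ℕ → ℤ) (h : ∀ m, f m = 0) : ∑ m ∈ range (K + 1), (-1 : ℤ) ^ m * f m = 0 :=
  sum_eq_zero fun m _ => by rw [h m, mul_zero]

/-- the part `A` -/
lemma partA (H : Gr P r) (hi : i ≤ r) :
    ∑ m ∈ range ((dbL P i ∪ dbU P i).card + 1), (-1 : ℤ) ^ m *
      ∑ F ∈ FF P i (m + 2), eps i F * (3 * ((F ∩ dbU P i).card : ℤ) - 2 * ((m + 2 : ℕ) : ℤ)) =
    3 * ∑ F ∈ FA P i, om i F * ((F ∩ dbU P i).card : ℤ) - 3 * ((dbU P i).card : ℤ) := by
  have h1 : ∀ m, ∑ F ∈ FF P i (m + 2), eps i F * (3 * ((F ∩ dbU P i).card : ℤ) -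
      2 * ((m + 2 : ℕ) : ℤ)) =
      ∑ F ∈ (FA P i).filter (fun F => F.card = m + 2), 3 * (eps i F * (F ∩ dbU P i).card) := by
    intro m
    rw [← FF_eq]
    have h2 := kk H hi (k := m + 2) (by omega)
    have h3 : ∑ F ∈ FF P i (m + 2), eps i F * (3 * ((F ∩ dbU P i).card : ℤ) -
        2 * ((m + 2 : ℕ) : ℤ)) = ∑ F ∈ FF P i (m + 2), 3 * (eps i F * (F ∩ dbU P i).card) -
        2 * ((m + 2 : ℕ) : ℤ) * ∑ F ∈ FF P i (m + 2), (-1 : ℤ) ^ (F ∩ dbU P i).card := by
      rw [mul_sum, ← sum_sub_distrib]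
      refine sum_congr rfl fun F _ => ?_
      rw [← eps_eq]
      ring
    rw [h3, h2, mul_zero, sub_zero]
  simp only [h1]
  rw [lay2 (FA P i) (fun F => 3 * (eps i F * (F ∩ dbU P i).card)) _ (fun F hF => FA_card hF),
    zero_fib (mem_FA.2 Dj_empty)]
  have h4 : ∑ F ∈ FA P i, (-1 : ℤ) ^ F.card * (3 * (eps i F * (F ∩ dbU P i).card)) =
      3 * ∑ F ∈ FA P i, om i F * ((F ∩ dbU P i).card : ℤ) := by
    rw [mul_sum]
    refine sum_congr rfl fun F _ => ?_
    unfold om
    ring
  have h5 : ∑ F ∈ (FA P i).filter (fun F => F.card = 1), 3 * (eps i F * (F ∩ dbU P i).card) =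
      -3 * ((dbU P i).card : ℤ) := by
    have h6 : (FA P i).filter (fun F => F.card = 1) = (dbL P i ∪ dbU P i).image (fun x => {x}) := by
      ext F
      rw [mem_filter, mem_FA, mem_image]
      constructor
      · rintro ⟨h7, h8⟩
        obtain ⟨x, rfl⟩ := card_eq_one.1 h8
        exact ⟨x, h7.1 (mem_singleton_self x), rfl⟩
      · rintro ⟨x, hx, rfl⟩
        refine ⟨⟨singleton_subset_iff.2 hx, ?_⟩, card_singleton x⟩
        intro a ha b hb hne
        rw [mem_singleton] at ha hb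
        exact absurd (ha.trans hb.symm) hne
    rw [h6, sum_image (fun a _ b _ h => singleton_injective h)]
    have h7 : ∀ x ∈ dbL P i ∪ dbU P i, 3 * (eps i {x} * (({x} : Finset P) ∩ dbU P i).card) =
        if x ∈ dbU P i then (-3 : ℤ) else 0 := by
      intro x hx
      split_ifs with h8
      · rw [eps_eq, inter_eq_left.2 (singleton_subset_iff.2 h8), card_singleton]
        norm_num
      · rw [singleton_inter_of_notMem h8, card_empty]
        norm_num
    rw [sum_congr rfl h7, ← sum_filter, sum_const, nsmul_eq_mul]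
    have h8 : (dbL P i ∪ dbU P i).filter (fun x => x ∈ dbU P i) = dbU P i := by
      ext x
      rw [mem_filter, mem_union]
      tauto
    rw [h8]
    ring
  rw [h4, h5, empty_inter, card_empty]
  push_cast
  ring

/-- RAW IDENTITY at `s = -1` -/
theorem raw0 (H : Gr P r) (hi : i ≤ r) (h3 : ∀ x : P, lev x + 2 = i → dn i x ≤ 3) :
    (3 * ∑ F ∈ FA P i, om i F * ((F ∩ dbU P i).card : ℤ) - 3 * ((dbU P i).card : ℤ)) +
      ∑ h ∈ sgl P i, (ph i (ns i h) - 1) +
      ∑ p ∈ OP P i, osg i p * ph i (p.biUnion (ns i)) -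
      ∑ v ∈ lv P i, (GG i v - 1) -
      ∑ z ∈ lv P (i + 2), ps i (uc z) +
      ∑ z ∈ (lv P (i + 2)).filter (fun z => (uc z).card = 2), ps i (uc z) -
      ∑ z ∈ (lU P i 2).filter (fun z => (dc z).card = 1), ps i (dc z) = 0 := by
  set K := (dbL P i ∪ dbU P i).card with hK
  have hid := lsum K _ (fun m => idn H hi h3 (n := m + 2) (by omega))
  simp only [mul_add, sum_add_distrib, show ∀ m, m + 2 - 1 = m + 1 from fun m => by omega,
    show ∀ m, m + 2 - 2 = m from fun m => by omega] at hid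
  have hA := partA H hi (P := P) (i := i)
  rw [← hK] at hA
  have hB : ∑ m ∈ range (K + 1), (-1 : ℤ) ^ m * ∑ h ∈ sgl P i, ∑ F ∈ FFa P i (m + 1) (ns i h),
      -eps i F = ∑ h ∈ sgl P i, (ph i (ns i h) - 1) := by
    simp only [mul_sum (sgl P i)]
    rw [sum_comm]
    refine sum_congr rfl fun h _ => ?_
    simp only [FFa_eq]
    rw [lay1 _ (fun F => -eps i F) K (fun F hF => FA_card (mem_filter.1 hF).1), zero_fib, eps_empty]
    · unfold ph om
      have : ∑ F ∈ (FA P i).filter (fun F => Disjoint (F.biUnion (ns i)) (ns i h)),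
          (-1 : ℤ) ^ F.card * -eps i F = - ∑ F ∈ (FA P i).filter
            (fun F => Disjoint (F.biUnion (ns i)) (ns i h)), (-1 : ℤ) ^ F.card * eps i F := by
        rw [← sum_neg_distrib]
        exact sum_congr rfl fun F _ => by ring
      rw [this]
      ring
    · rw [mem_filter, mem_FA, biUnion_empty]
      exact ⟨Dj_empty, disjoint_empty_left _⟩
  have hC : ∑ m ∈ range (K + 1), (-1 : ℤ) ^ m * ∑ p ∈ OP P i,
      ∑ F ∈ FFa P i m (p.biUnion (ns i)), osg i p * eps i F =
      ∑ p ∈ OP P i, osg i p * ph i (p.biUnion (ns i)) := by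
    simp only [mul_sum (OP P i)]
    rw [sum_comm]
    refine sum_congr rfl fun p _ => ?_
    simp only [FFa_eq]
    have h := lay0 ((FA P i).filter (fun F => Disjoint (F.biUnion (ns i)) (p.biUnion (ns i))))
      (fun F => osg i p * eps i F) K (fun F hF => FA_card (mem_filter.1 hF).1) 0
    rw [add_zero] at h
    rw [h]
    unfold ph om
    rw [mul_sum]
    exact sum_congr rfl fun F _ => by ring
  have hD : ∑ m ∈ range (K + 1), (-1 : ℤ) ^ m * ∑ v ∈ lv P i,
      ∑ G ∈ SV P i (m + 1) v, ∏ x ∈ G, sgv i v x = - ∑ v ∈ lv P i, (GG i v - 1) := by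
    simp only [mul_sum (lv P i)]
    rw [sum_comm, ← sum_neg_distrib]
    refine sum_congr rfl fun v _ => ?_
    simp only [SV_eq]
    rw [lay1 _ (fun G => ∏ x ∈ G, sgv i v x) K (fun F hF => SA_card hF), zero_fib, prod_empty]
    · unfold GG
      ring
    · exact mem_SA.2 (SvF_empty v)
  have hne : ∀ z : P, z ∈ lv P (i + 2) → ∅ ∉ (FA P i).filter (fun F => uc z ⊆ F) := by
    intro z hz h
    rw [mem_filter, subset_empty] at h
    rw [mem_lv] at hz
    have := uc_nonempty H (x := z) (by omega)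
    rw [h.2] at this
    exact not_nonempty_empty this
  have hE4 : ∑ m ∈ range (K + 1), (-1 : ℤ) ^ m * ∑ z ∈ lv P (i + 2),
      ∑ F ∈ FFc P i (m + 1) (uc z), eps i F = - ∑ z ∈ lv P (i + 2), ps i (uc z) := by
    simp only [mul_sum (lv P (i + 2))]
    rw [sum_comm, ← sum_neg_distrib]
    refine sum_congr rfl fun z hz => ?_
    simp only [FFc_eq]
    rw [lay1 _ (fun F => eps i F) K (fun F hF => FA_card (mem_filter.1 hF).1), zero_fib' (hne z hz)]
    unfold ps om
    ring
  have hE5 : ∑ m ∈ range (K + 1), (-1 : ℤ) ^ m *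
      ∑ z ∈ (lv P (i + 2)).filter (fun z => (uc z).card = 2),
      ∑ F ∈ FFc P i m (uc z), eps i F =
      ∑ z ∈ (lv P (i + 2)).filter (fun z => (uc z).card = 2), ps i (uc z) := by
    simp only [mul_sum ((lv P (i + 2)).filter (fun z => (uc z).card = 2))]
    rw [sum_comm]
    refine sum_congr rfl fun z hz => ?_
    simp only [FFc_eq]
    have h := lay0 ((FA P i).filter (fun F => uc z ⊆ F))
      (fun F => eps i F) K (fun F hF => FA_card (mem_filter.1 hF).1) 0
    rw [add_zero] at h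
    rw [h]
    rfl
  have hE6 : ∑ m ∈ range (K + 1), (-1 : ℤ) ^ m *
      ∑ z ∈ (lU P i 2).filter (fun z => (dc z).card = 1),
      ∑ F ∈ FFc P i (m + 1) (dc z), eps i F =
      - ∑ z ∈ (lU P i 2).filter (fun z => (dc z).card = 1), ps i (dc z) := by
    simp only [mul_sum ((lU P i 2).filter (fun z => (dc z).card = 1))]
    rw [sum_comm, ← sum_neg_distrib]
    refine sum_congr rfl fun z hz => ?_
    simp only [FFc_eq]
    rw [lay1 _ (fun F => eps i F) K (fun F hF => FA_card (mem_filter.1 hF).1), zero_fib']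
    · unfold ps om
      ring
    · intro h
      rw [mem_filter, subset_empty] at h
      rw [mem_filter, h.2, card_empty] at hz
      exact absurd hz.2 (by norm_num)
  rw [hA, hB, hC, hD, hE4, hE5, hE6] at hid
  linarith

end T6N
end Pool.Agent.GaussPoset.Win
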