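import Pool.Agent.W_448t6_h94.TsL

/-! The first order identity at `s = -1`, element form (MP_448cb3_co). -/

namespace Pool.Agent.GaussPoset.Win
namespace T6N

set_option linter.unusedSectionVars false

open Finset

universe u

variable {P : Type u} [Fintype P] [PartialOrder P] [DecidableEq P] {r : ℕ} {i : ℕ}

lemma om_empty : om i (∅ : Finset P) = 1 := by
  unfold om
  rw [eps_empty, card_empty]
  norm_num

lemma om_insert {w : P} {F : Finset P} (h : w ∉ F) : om i (insert w F) = -sgn i w * om i F := by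
  unfold om eps
  rw [card_insert_of_notMem h, prod_insert h, pow_succ]
  ring

/-- families avoiding `T` which contain `w` -/
lemma contains (H : Gr P r) {w : P} (hw : w ∈ dbL P i ∪ dbU P i) {T : Finset P}
    (hT : Disjoint (ns i w) T) :
    ∑ F ∈ ((FA P i).filter (fun F => Disjoint (F.biUnion (ns i)) T)).filter (fun F => w ∈ F),
      om i F = -sgn i w * ph i (T ∪ ns i w) := by
  unfold ph
  rw [mul_sum]
  symm
  refine sum_nbij' (fun F => insert w F) (fun F => F.erase w) ?_ ?_ ?_ ?_ ?_
  · intro F hF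
    rw [mem_filter, mem_FA, disjoint_union_right] at hF
    rw [mem_filter, mem_filter, mem_FA, biUnion_insert, disjoint_union_left]
    refine ⟨⟨⟨insert_subset hw hF.1.1, ?_⟩, hT, hF.2.1⟩, mem_insert_self _ _⟩
    intro x hx y hy hne
    have key : ∀ z ∈ F, Disjoint (ns i z) (ns i w) := fun z hz =>
      disjoint_of_subset_left (subset_biUnion_of_mem (ns i) hz) hF.2.2
    rcases mem_insert.1 hx with rfl | hx1 <;> rcases mem_insert.1 hy with rfl | hy1
    · exact absurd rfl hne
    · exact (key y hy1).symm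
    · exact key x hx1
    · exact hF.1.2 x hx1 y hy1 hne
  · intro F hF
    rw [mem_filter, mem_filter, mem_FA] at hF
    rw [mem_filter, mem_FA, disjoint_union_right]
    refine ⟨Dj_sub hF.1.1 (erase_subset _ _), ?_, ?_⟩
    · exact disjoint_of_subset_left (biUnion_subset_biUnion_of_subset_left _ (erase_subset _ _))
        hF.1.2
    · rw [disjoint_biUnion_left]
      intro x hx
      rw [mem_erase] at hx
      exact hF.1.1.2 x hx.2 w hF.2 hx.1
  · intro F hF
    rw [mem_filter, mem_FA, disjoint_union_right] at hF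
    refine erase_insert (fun h => ?_)
    obtain ⟨v, hv⟩ : (ns i w).Nonempty := by
      rw [← card_pos, ns_card hw]
      norm_num
    exact disjoint_left.1 hF.2.2 (mem_biUnion.2 ⟨w, h, hv⟩) hv
  · intro F hF
    rw [mem_filter] at hF
    exact insert_erase hF.2
  · intro F hF
    rw [mem_filter, mem_FA, disjoint_union_right] at hF
    refine (om_insert (fun h => ?_)).symm
    obtain ⟨v, hv⟩ : (ns i w).Nonempty := by
      rw [← card_pos, ns_card hw]
      norm_num
    exact disjoint_left.1 hF.2.2 (mem_biUnion.2 ⟨w, h, hv⟩) hv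

lemma filt_empty : (FA P i).filter (fun F => Disjoint (F.biUnion (ns i)) (∅ : Finset P)) =
    FA P i := filter_true_of_mem (fun _ _ => disjoint_empty_right _)

lemma ps_one (H : Gr P r) {w : P} (hw : w ∈ dbL P i ∪ dbU P i) :
    ps i {w} = -sgn i w * ph i (ns i w) := by
  have h := contains H hw (disjoint_empty_right (ns i w))
  rw [filt_empty, empty_union] at h
  rw [← h]
  unfold ps
  refine sum_congr ?_ fun _ _ => rfl
  ext F
  simp only [mem_filter, singleton_subset_iff]

lemma ps_zero {w : P} (hw : w ∉ dbL P i ∪ dbU P i) : ps i {w} = 0 := by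
  unfold ps
  rw [filter_eq_empty_iff.2, sum_empty]
  intro F hF h
  exact hw ((mem_FA.1 hF).1 (singleton_subset_iff.1 h))

lemma ph_empty_eq : ph i (∅ : Finset P) = ∑ F ∈ FA P i, om i F := by
  unfold ph
  rw [filt_empty]

/-- `kk` for all `k`: the total is one -/
lemma ph_empty (H : Gr P r) (hi : i ≤ r) : ph i (∅ : Finset P) = 1 := by
  rw [ph_empty_eq]
  have h := lay0 (FA P i) (fun F => eps i F) _ (fun F hF => FA_card hF) 0
  rw [add_zero, sum_range_succ'] at h
  unfold om
  rw [← h, zero_fib (mem_FA.2 Dj_empty), eps_empty]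
  have h1 : ∑ k ∈ range (dbL P i ∪ dbU P i).card, (-1 : ℤ) ^ (k + 1) *
      ∑ F ∈ (FA P i).filter (fun F => F.card = k + 1), eps i F = 0 := by
    refine sum_eq_zero fun k _ => ?_
    rw [← FF_eq]
    simp only [eps_eq]
    rw [kk H hi (by omega), mul_zero]
  rw [h1]
  norm_num

/-- sum over the families of a function of the size -/
lemma sum_card_mul (H : Gr P r) (hi : i ≤ r) : ∑ F ∈ FA P i, om i F * (F.card : ℤ) = 0 := by
  have h := lay0 (FA P i) (fun F => eps i F * (F.card : ℤ)) _ (fun F hF => FA_card hF) 0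
  rw [add_zero] at h
  have h0 : ∑ F ∈ FA P i, om i F * (F.card : ℤ) =
      ∑ F ∈ FA P i, (-1 : ℤ) ^ F.card * (eps i F * (F.card : ℤ)) := by
    refine sum_congr rfl fun F _ => ?_
    unfold om
    ring
  rw [h0, ← h]
  refine sum_eq_zero fun k _ => ?_
  rw [← FF_eq]
  rcases Nat.eq_zero_or_pos k with h1 | h1
  · subst h1
    have h2 : ∑ F ∈ FF P i 0, eps i F * (F.card : ℤ) = 0 := by
      refine sum_eq_zero fun F hF => ?_
      rw [mem_FF] at hF
      rw [hF.2]
      norm_num
    rw [h2, mul_zero]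
  · have h2 : ∑ F ∈ FF P i k, eps i F * (F.card : ℤ) = (k : ℤ) * ∑ F ∈ FF P i k, eps i F := by
      rw [mul_sum]
      refine sum_congr rfl fun F hF => ?_
      rw [mem_FF] at hF
      rw [hF.2]
      ring
    rw [h2]
    simp only [eps_eq]
    rw [kk H hi h1, mul_zero, mul_zero]

/-- counting the elements of a set `W` in the families -/
lemma sum_inter (W : Finset P) : ∑ F ∈ FA P i, om i F * ((F ∩ W).card : ℤ) =
    ∑ w ∈ W, ps i {w} := by
  have h1 : ∀ F ∈ FA P i, om i F * ((F ∩ W).card : ℤ) = ∑ w ∈ W, if w ∈ F then om i F else 0 := by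
    intro F _
    rw [← sum_filter, sum_const, nsmul_eq_mul, filter_mem_eq_inter, inter_comm]
    ring
  rw [sum_congr rfl h1, sum_comm]
  refine sum_congr rfl fun w _ => ?_
  unfold ps
  rw [← sum_filter]
  refine sum_congr ?_ fun _ _ => rfl
  ext F
  simp only [mem_filter, singleton_subset_iff]

lemma sum_dbU (H : Gr P r) : ∑ F ∈ FA P i, om i F * ((F ∩ dbU P i).card : ℤ) =
    ∑ u ∈ dbU P i, ph i (ns i u) := by
  rw [sum_inter]
  refine sum_congr rfl fun u hu => ?_
  rw [ps_one H (mem_union_right _ hu)]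
  unfold sgn
  rw [if_pos hu]
  ring

lemma dis_LU : Disjoint (dbL P i) (dbU P i) := by
  rw [disjoint_left]
  intro x h1 h2
  have := (mem_dbL.1 h1).1
  have := (mem_dbU.1 h2).1
  omega

/-- the two sides have the same sum -/
lemma sides_eq (H : Gr P r) (hi : i ≤ r) :
    ∑ w ∈ dbL P i, ph i (ns i w) = ∑ u ∈ dbU P i, ph i (ns i u) := by
  have h1 := sum_card_mul H hi (P := P) (i := i)
  have h2 := sum_inter (i := i) (dbL P i ∪ dbU P i)
  have h3 : ∑ F ∈ FA P i, om i F * ((F ∩ (dbL P i ∪ dbU P i)).card : ℤ) =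
      ∑ F ∈ FA P i, om i F * (F.card : ℤ) := by
    refine sum_congr rfl fun F hF => ?_
    rw [inter_eq_left.2 (mem_FA.1 hF).1]
  rw [← h3, h2, sum_union dis_LU] at h1
  have h4 : ∑ w ∈ dbL P i, ps i {w} = - ∑ w ∈ dbL P i, ph i (ns i w) := by
    rw [← sum_neg_distrib]
    refine sum_congr rfl fun w hw => ?_
    rw [ps_one H (mem_union_left _ hw)]
    unfold sgn
    rw [if_neg (disjoint_left.1 dis_LU hw)]
    ring
  have h5 : ∑ w ∈ dbU P i, ps i {w} = ∑ w ∈ dbU P i, ph i (ns i w) := by
    refine sum_congr rfl fun w hw => ?_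
    rw [ps_one H (mem_union_right _ hw)]
    unfold sgn
    rw [if_pos hw]
    ring
  rw [h4, h5] at h1
  linarith

lemma card_sides (H : Gr P r) (hi : i ≤ r) : ((dbL P i).card : ℤ) = (dbU P i).card := by
  have h1 := kk H hi (k := 1) le_rfl
  have h6 : FF P i 1 = (dbL P i ∪ dbU P i).image (fun x => {x}) := by
    ext F
    rw [mem_FF, mem_image]
    constructor
    · rintro ⟨h7, h8⟩
      obtain ⟨x, rfl⟩ := card_eq_one.1 h8
      exact ⟨x, h7.1 (mem_singleton_self x), rfl⟩
    · rintro ⟨x, hx, rfl⟩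
      refine ⟨⟨singleton_subset_iff.2 hx, ?_⟩, card_singleton x⟩
      intro a ha b hb hne
      rw [mem_singleton] at ha hb
      exact absurd (ha.trans hb.symm) hne
  rw [h6, sum_image (fun a _ b _ h => singleton_injective h), sum_union dis_LU] at h1
  have h7 : ∑ x ∈ dbL P i, (-1 : ℤ) ^ (({x} : Finset P) ∩ dbU P i).card = (dbL P i).card := by
    have : ∀ x ∈ dbL P i, (-1 : ℤ) ^ (({x} : Finset P) ∩ dbU P i).card = 1 := by
      intro x hx
      rw [singleton_inter_of_notMem (disjoint_left.1 dis_LU hx), card_empty, pow_zero]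
    rw [sum_congr rfl this, sum_const, nsmul_eq_mul, mul_one]
  have h8 : ∑ x ∈ dbU P i, (-1 : ℤ) ^ (({x} : Finset P) ∩ dbU P i).card = -(dbU P i).card := by
    have : ∀ x ∈ dbU P i, (-1 : ℤ) ^ (({x} : Finset P) ∩ dbU P i).card = -1 := by
      intro x hx
      rw [inter_eq_left.2 (singleton_subset_iff.2 hx), card_singleton, pow_one]
    rw [sum_congr rfl this, sum_const, nsmul_eq_mul]
    ring
  rw [h7, h8] at h1
  linarith

/-- vertex expansion -/
theorem expand (H : Gr P r) {T : Finset P} {u : P} :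
    ph i T = ph i (insert u T) + ∑ y ∈ (dbL P i ∪ dbU P i).filter
      (fun y => u ∈ ns i y ∧ Disjoint (ns i y) T), -sgn i y * ph i (T ∪ ns i y) := by
  classical
  set X := (FA P i).filter (fun F => Disjoint (F.biUnion (ns i)) T) with hX
  have h1 : ph i T = ∑ F ∈ X.filter (fun F => u ∉ F.biUnion (ns i)), om i F +
      ∑ F ∈ X.filter (fun F => ¬ u ∉ F.biUnion (ns i)), om i F :=
    (sum_filter_add_sum_filter_not X _ _).symm
  have h2 : ∑ F ∈ X.filter (fun F => u ∉ F.biUnion (ns i)), om i F = ph i (insert u T) := by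
    unfold ph
    refine sum_congr ?_ fun _ _ => rfl
    ext F
    rw [hX, mem_filter, mem_filter, mem_filter, disjoint_insert_right]
    tauto
  have h3 : ∑ F ∈ X.filter (fun F => ¬ u ∉ F.biUnion (ns i)), om i F =
      ∑ y ∈ (dbL P i ∪ dbU P i).filter (fun y => u ∈ ns i y),
        ∑ F ∈ X.filter (fun F => y ∈ F), om i F := by
    have h4 : ∀ F ∈ X.filter (fun F => ¬ u ∉ F.biUnion (ns i)), om i F =
        ∑ y ∈ (dbL P i ∪ dbU P i).filter (fun y => u ∈ ns i y), if y ∈ F then om i F else 0 := by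
      intro F hF
      rw [mem_filter, not_not, mem_biUnion, hX, mem_filter, mem_FA] at hF
      obtain ⟨⟨hF1, hF2⟩, y, hy, huy⟩ := hF
      rw [sum_eq_single y]
      · rw [if_pos hy]
      · intro z hz hne
        rw [mem_filter] at hz
        rw [if_neg]
        intro hzF
        exact disjoint_left.1 (hF1.2 z hzF y hy hne) hz.2 huy
      · intro h5
        exact absurd (mem_filter.2 ⟨hF1.1 hy, huy⟩) h5
    rw [sum_congr rfl h4, sum_comm]
    refine sum_congr rfl fun y hy => ?_
    rw [mem_filter] at hy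
    rw [← sum_filter]
    refine sum_congr ?_ fun _ _ => rfl
    ext F
    rw [mem_filter, mem_filter (p := fun F => y ∈ F), mem_filter, not_not, mem_biUnion]
    constructor
    · exact fun h => ⟨h.1.1, h.2⟩
    · exact fun h => ⟨⟨h.1, y, h.2, hy.2⟩, h.2⟩
  rw [h1, h2, h3]
  congr 1
  rw [← filter_filter]
  rw [sum_filter (s := (dbL P i ∪ dbU P i).filter (fun y => u ∈ ns i y))
    (p := fun y => Disjoint (ns i y) T)]
  refine sum_congr rfl fun y hy => ?_
  rw [mem_filter] at hy
  split_ifs with h5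
  · exact contains H hy.1 h5
  · rw [filter_eq_empty_iff.2, sum_empty]
    intro F hF hyF
    rw [hX, mem_filter] at hF
    exact h5 (disjoint_of_subset_left (subset_biUnion_of_mem (ns i) hyF) hF.2)

end T6N
end Pool.Agent.GaussPoset.Win
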