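import Pool.Agent.W_448t6_h94.TsM

/-! The first order identity at `s = -1`, element form (MP_448cb3_co). -/

namespace Pool.Agent.GaussPoset.Win
namespace T6N

set_option linter.unusedSectionVars false

open Finset

universe u

variable {P : Type u} [Fintype P] [PartialOrder P] [DecidableEq P] {r : ℕ} {i : ℕ}

/-- near double elements with exactly one site in common with `x` -/
noncomputable def Rr (i : ℕ) (x : P) : Finset P :=
  (dbL P i ∪ dbU P i).filter (fun y => (ns i x ∩ ns i y).card = 1)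

lemma mem_Rr {x y : P} : y ∈ Rr i x ↔ y ∈ dbL P i ∪ dbU P i ∧ (ns i x ∩ ns i y).card = 1 := by
  unfold Rr; rw [mem_filter]

lemma pair_inter_card {a u : P} (hau : a ≠ u) (S : Finset P) :
    (({a, u} : Finset P) ∩ S).card = 1 ↔ (u ∈ S ∧ a ∉ S) ∨ (a ∈ S ∧ u ∉ S) := by
  by_cases ha : a ∈ S <;> by_cases hu : u ∈ S
  · have h : ({a, u} : Finset P) ∩ S = {a, u} := by
      rw [inter_eq_left]
      intro z hz
      rw [mem_insert, mem_singleton] at hz
      rcases hz with rfl | rfl <;> assumption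
    rw [h, card_pair hau]
    constructor
    · intro h1
      omega
    · rintro (h1 | h1)
      · exact absurd ha h1.2
      · exact absurd hu h1.2
  · have h : ({a, u} : Finset P) ∩ S = {a} := by
      ext z
      simp only [mem_inter, mem_insert, mem_singleton]
      constructor
      · rintro ⟨rfl | rfl, h2⟩
        · rfl
        · exact absurd h2 hu
      · rintro rfl
        exact ⟨Or.inl rfl, ha⟩
    rw [h, card_singleton]
    tauto
  · have h : ({a, u} : Finset P) ∩ S = {u} := by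
      ext z
      simp only [mem_inter, mem_insert, mem_singleton]
      constructor
      · rintro ⟨rfl | rfl, h2⟩
        · exact absurd h2 ha
        · rfl
      · rintro rfl
        exact ⟨Or.inr rfl, hu⟩
    rw [h, card_singleton]
    tauto
  · have h : ({a, u} : Finset P) ∩ S = ∅ := by
      rw [eq_empty_iff_forall_notMem]
      intro z hz
      simp only [mem_inter, mem_insert, mem_singleton] at hz
      rcases hz with ⟨rfl | rfl, h2⟩
      · exact ha h2
      · exact hu h2
    rw [h, card_empty]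
    tauto

/-- the sum around one near double element -/
lemma around (H : Gr P r) {x : P} (hx : x ∈ dbL P i ∪ dbU P i) :
    ∑ y ∈ Rr i x, -sgn i y * ph i (ns i x ∪ ns i y) =
      ∑ a ∈ ns i x, ph i {a} - 2 * ph i (ns i x) := by
  obtain ⟨a, u, hau, hns⟩ := card_eq_two.1 (ns_card hx)
  have hR : Rr i x = (dbL P i ∪ dbU P i).filter (fun y => u ∈ ns i y ∧ Disjoint (ns i y) {a}) ∪
      (dbL P i ∪ dbU P i).filter (fun y => a ∈ ns i y ∧ Disjoint (ns i y) {u}) := by
    ext y
    simp only [mem_Rr, mem_union, mem_filter, disjoint_singleton_right]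
    rw [hns, pair_inter_card hau]
    tauto
  have hdis : Disjoint ((dbL P i ∪ dbU P i).filter (fun y => u ∈ ns i y ∧ Disjoint (ns i y) {a}))
      ((dbL P i ∪ dbU P i).filter (fun y => a ∈ ns i y ∧ Disjoint (ns i y) {u})) := by
    rw [disjoint_left]
    intro y h1 h2
    rw [mem_filter, disjoint_singleton_right] at h1 h2
    exact h2.2.2 h1.2.1
  have e1 := expand H (i := i) (T := {a}) (u := u)
  have e2 := expand H (i := i) (T := {u}) (u := a)
  have s1 : ∑ y ∈ (dbL P i ∪ dbU P i).filter (fun y => u ∈ ns i y ∧ Disjoint (ns i y) {a}),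
      -sgn i y * ph i ({a} ∪ ns i y) =
      ∑ y ∈ (dbL P i ∪ dbU P i).filter (fun y => u ∈ ns i y ∧ Disjoint (ns i y) {a}),
      -sgn i y * ph i (ns i x ∪ ns i y) := by
    refine sum_congr rfl fun y hy => ?_
    rw [mem_filter] at hy
    congr 2
    rw [hns]
    ext z
    simp only [mem_union, mem_insert, mem_singleton]
    constructor
    · tauto
    · rintro ((h | h) | h)
      · exact Or.inl h
      · subst h
        exact Or.inr hy.2.1
      · exact Or.inr h
  have s2 : ∑ y ∈ (dbL P i ∪ dbU P i).filter (fun y => a ∈ ns i y ∧ Disjoint (ns i y) {u}),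
      -sgn i y * ph i ({u} ∪ ns i y) =
      ∑ y ∈ (dbL P i ∪ dbU P i).filter (fun y => a ∈ ns i y ∧ Disjoint (ns i y) {u}),
      -sgn i y * ph i (ns i x ∪ ns i y) := by
    refine sum_congr rfl fun y hy => ?_
    rw [mem_filter] at hy
    congr 2
    rw [hns]
    ext z
    simp only [mem_union, mem_insert, mem_singleton]
    constructor
    · tauto
    · rintro ((h | h) | h)
      · subst h
        exact Or.inr hy.2.1
      · exact Or.inl h
      · exact Or.inr h
  rw [hR, sum_union hdis, ← s1, ← s2]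
  have h3 : ph i (insert u {a}) = ph i (ns i x) := by rw [hns, pair_comm]
  have h4 : ph i (insert a {u}) = ph i (ns i x) := by rw [hns]
  rw [h3] at e1
  rw [h4] at e2
  have h5 : ∑ b ∈ ns i x, ph i {b} = ph i {a} + ph i {u} := by rw [hns, sum_pair hau]
  rw [h5]
  linarith

/-- same side -/
def Sm (i : ℕ) (x y : P) : Prop := (x ∈ dbL P i ∧ y ∈ dbL P i) ∨ (x ∈ dbU P i ∧ y ∈ dbU P i)

lemma sgn_L {x : P} (h : x ∈ dbL P i) : sgn i x = 1 := by
  unfold sgn
  rw [if_neg (disjoint_left.1 dis_LU h)]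

lemma sgn_U {x : P} (h : x ∈ dbU P i) : sgn i x = -1 := by
  unfold sgn
  rw [if_pos h]

open Classical in
/-- the sum over the pairs of one side -/
lemma pairs_sum (H : Gr P r) :
    2 * ∑ p ∈ OP P i, osg i p * ph i (p.biUnion (ns i)) =
      ∑ x ∈ dbL P i ∪ dbU P i, (∑ a ∈ ns i x, ph i {a} - 2 * ph i (ns i x)) := by
  set W := dbL P i ∪ dbU P i with hW
  set Q := (W ×ˢ W).filter (fun q => (ns i q.1 ∩ ns i q.2).card = 1) with hQ
  have h1 : ∑ x ∈ W, (∑ a ∈ ns i x, ph i {a} - 2 * ph i (ns i x)) =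
      ∑ q ∈ Q, -sgn i q.2 * ph i (ns i q.1 ∪ ns i q.2) := by
    rw [hQ, sum_filter, sum_product]
    refine sum_congr rfl fun x hx => ?_
    rw [← around H hx]
    unfold Rr
    rw [sum_filter]
  have h2 : ∑ q ∈ Q, -sgn i q.2 * ph i (ns i q.1 ∪ ns i q.2) =
      ∑ q ∈ Q, -sgn i q.1 * ph i (ns i q.1 ∪ ns i q.2) := by
    refine sum_nbij' (fun q => (q.2, q.1)) (fun q => (q.2, q.1)) ?_ ?_ ?_ ?_ ?_
    · intro q hq
      rw [hQ, mem_filter, mem_product] at hq ⊢
      exact ⟨⟨hq.1.2, hq.1.1⟩, by rw [inter_comm]; exact hq.2⟩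
    · intro q hq
      rw [hQ, mem_filter, mem_product] at hq ⊢
      exact ⟨⟨hq.1.2, hq.1.1⟩, by rw [inter_comm]; exact hq.2⟩
    · intro q _
      rfl
    · intro q _
      rfl
    · intro q _
      simp only
      rw [union_comm (ns i q.2)]
  have h3 : ∑ q ∈ Q, -sgn i q.2 * ph i (ns i q.1 ∪ ns i q.2) =
      ∑ q ∈ Q.filter (fun q => Sm i q.1 q.2), -sgn i q.1 * ph i (ns i q.1 ∪ ns i q.2) := by
    have h4 : 2 * ∑ q ∈ Q, -sgn i q.2 * ph i (ns i q.1 ∪ ns i q.2) =
        2 * ∑ q ∈ Q.filter (fun q => Sm i q.1 q.2), -sgn i q.1 * ph i (ns i q.1 ∪ ns i q.2) := by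
      have h5 : 2 * ∑ q ∈ Q, -sgn i q.2 * ph i (ns i q.1 ∪ ns i q.2) =
          ∑ q ∈ Q, -sgn i q.2 * ph i (ns i q.1 ∪ ns i q.2) +
            ∑ q ∈ Q, -sgn i q.1 * ph i (ns i q.1 ∪ ns i q.2) := by
        rw [← h2]
        ring
      rw [h5, ← sum_add_distrib, mul_sum, sum_filter (s := Q) (p := fun q => Sm i q.1 q.2)]
      refine sum_congr rfl fun q hq => ?_
      rw [hQ, mem_filter, mem_product, hW, mem_union, mem_union] at hq
      obtain ⟨⟨hx, hy⟩, _⟩ := hq
      rcases hx with hx | hx <;> rcases hy with hy | hy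
      · have hsm : Sm i q.1 q.2 := Or.inl ⟨hx, hy⟩
        rw [if_pos hsm, sgn_L hx, sgn_L hy]
        ring
      · rw [if_neg, sgn_L hx, sgn_U hy]
        · ring
        · rintro (h | h)
          · exact disjoint_left.1 dis_LU h.2 hy
          · exact disjoint_left.1 dis_LU hx h.1
      · rw [if_neg, sgn_U hx, sgn_L hy]
        · ring
        · rintro (h | h)
          · exact disjoint_left.1 dis_LU h.1 hx
          · exact disjoint_left.1 dis_LU hy h.2
      · have hsm : Sm i q.1 q.2 := Or.inr ⟨hx, hy⟩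
        rw [if_pos hsm, sgn_U hx, sgn_U hy]
        ring
    linarith
  rw [h1, h3, mul_sum]
  have hmem : ∀ q ∈ Q.filter (fun q => Sm i q.1 q.2), ({q.1, q.2} : Finset P) ∈ OP P i := by
    rintro ⟨x, y⟩ hq
    rw [mem_filter, hQ, mem_filter, mem_product] at hq
    obtain ⟨⟨⟨hx, hy⟩, hc⟩, hs⟩ := hq
    simp only at hx hy hc hs
    have hne : x ≠ y := by
      rintro rfl
      rw [inter_self, ns_card hx] at hc
      omega
    rw [mem_OP]
    refine ⟨?_, card_pair hne, ?_⟩
    · rcases hs with h | h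
      · left
        intro z hz
        rw [mem_insert, mem_singleton] at hz
        rcases hz with rfl | rfl
        · exact h.1
        · exact h.2
      · right
        intro z hz
        rw [mem_insert, mem_singleton] at hz
        rcases hz with rfl | rfl
        · exact h.1
        · exact h.2
    · rw [biUnion_insert, singleton_biUnion]
      have h5 := card_union_add_card_inter (ns i x) (ns i y)
      have h6 := ns_card hx
      have h7 := ns_card hy
      show (ns i x ∪ ns i y).card = 3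
      omega
  rw [← sum_fiberwise_of_maps_to hmem]
  refine sum_congr rfl fun p hp => ?_
  have hp' := mem_OP.1 hp
  obtain ⟨x, y, hne, rfl⟩ := card_eq_two.1 hp'.2.1
  have hside : (x ∈ dbL P i ∧ y ∈ dbL P i) ∨ (x ∈ dbU P i ∧ y ∈ dbU P i) := by
    rcases hp'.1 with h | h
    · exact Or.inl ⟨h (by simp), h (by simp)⟩
    · exact Or.inr ⟨h (by simp), h (by simp)⟩
  have hxW : x ∈ W := by
    rw [hW, mem_union]
    tauto
  have hyW : y ∈ W := by
    rw [hW, mem_union]
    tauto
  have hc : (ns i x ∩ ns i y).card = 1 := by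
    have h5 := card_union_add_card_inter (ns i x) (ns i y)
    have h6 := ns_card hxW
    have h7 := ns_card hyW
    have h8 := hp'.2.2
    rw [biUnion_insert, singleton_biUnion] at h8
    omega
  have hfib : (Q.filter (fun q => Sm i q.1 q.2)).filter
      (fun q => ({q.1, q.2} : Finset P) = {x, y}) = {(x, y), (y, x)} := by
    ext ⟨a, b⟩
    rw [mem_filter, mem_filter, hQ, mem_filter, mem_product, mem_insert, mem_singleton,
      Prod.mk.injEq, Prod.mk.injEq]
    simp only
    constructor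
    · rintro ⟨⟨⟨⟨ha, hb⟩, hab⟩, _⟩, he⟩
      have hne2 : a ≠ b := by
        rintro rfl
        rw [inter_self, ns_card ha] at hab
        omega
      have h5 : a ∈ ({x, y} : Finset P) := by rw [← he]; simp
      have h6 : b ∈ ({x, y} : Finset P) := by rw [← he]; simp
      rw [mem_insert, mem_singleton] at h5 h6
      rcases h5 with rfl | rfl <;> rcases h6 with rfl | rfl
      · exact absurd rfl hne2
      · exact Or.inl ⟨rfl, rfl⟩
      · exact Or.inr ⟨rfl, rfl⟩
      · exact absurd rfl hne2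
    · rintro (⟨rfl, rfl⟩ | ⟨rfl, rfl⟩)
      · exact ⟨⟨⟨⟨hxW, hyW⟩, hc⟩, hside⟩, rfl⟩
      · refine ⟨⟨⟨⟨hyW, hxW⟩, by rw [inter_comm]; exact hc⟩, ?_⟩, pair_comm _ _⟩
        rcases hside with h | h
        · exact Or.inl ⟨h.2, h.1⟩
        · exact Or.inr ⟨h.2, h.1⟩
  have hne3 : (x, y) ≠ (y, x) := by
    intro h
    rw [Prod.mk.injEq] at h
    exact hne h.1
  rw [hfib, sum_pair hne3, biUnion_insert, singleton_biUnion]
  simp only
  rw [union_comm (ns i y)]
  unfold osg
  rcases hside with h | h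
  · rw [if_neg, sgn_L h.1, sgn_L h.2]
    · ring
    · intro h9
      exact disjoint_left.1 dis_LU h.1 (h9 (by simp))
  · rw [if_pos, sgn_U h.1, sgn_U h.2]
    · ring
    · intro z hz
      rw [mem_insert, mem_singleton] at hz
      rcases hz with rfl | rfl
      · exact h.1
      · exact h.2

lemma mem_PD {z : P} : z ∈ PD P i ↔ lev z = i + 2 ∧ (uc z).card = 1 ∧
    ∃ w, z ⋖ w ∧ (uc w).card = 2 := by
  classical
  unfold PD
  rw [mem_filter]
  simp

lemma mem_PU {x : P} : x ∈ PU P i ↔ lev x + 2 = i ∧ (dc x).card = 1 ∧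
    ∃ u, u ⋖ x ∧ (dc u).card = 2 := by
  classical
  unfold PU
  rw [mem_filter]
  simp

/-- far lower elements -/
lemma far_L (H : Gr P r) : ∑ z ∈ lv P (i + 2), ps i (uc z) -
    ∑ z ∈ (lv P (i + 2)).filter (fun z => (uc z).card = 2), ps i (uc z) =
    - ∑ z ∈ PD P i, ph i ((uc z).biUnion (ns i)) := by
  classical
  rw [← sum_filter_add_sum_filter_not (lv P (i + 2)) (fun z => (uc z).card = 2),
    add_sub_cancel_left, ← sum_neg_distrib]
  symm
  refine sum_subset_zero_on_sdiff ?_ ?_ ?_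
  · intro z hz
    rw [mem_PD] at hz
    rw [mem_filter, mem_lv]
    refine ⟨hz.1, ?_⟩
    rw [hz.2.1]
    norm_num
  · intro z hz
    rw [mem_sdiff, mem_filter, mem_lv, mem_PD] at hz
    obtain ⟨⟨h1, h2⟩, h3⟩ := hz
    have h4 := uc_card_le H z
    have h5 := card_pos.2 (uc_nonempty H (x := z) (by omega))
    obtain ⟨w, hw⟩ := card_eq_one.1 (show (uc z).card = 1 by omega)
    rw [hw]
    refine ps_zero (fun h6 => h3 ⟨h1, by omega, w, ?_, ?_⟩)
    · rw [← mem_uc, hw]
      exact mem_singleton_self w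
    · have h7 : w ∈ uc z := by
        rw [hw]
        exact mem_singleton_self w
      have h8 := lev_uc H h7
      rcases mem_union.1 h6 with h9 | h9
      · exact (mem_dbL.1 h9).2
      · have := (mem_dbU.1 h9).1
        omega
  · intro z hz
    rw [mem_PD] at hz
    obtain ⟨h1, h2, w, h3, h4⟩ := hz
    obtain ⟨w', hw'⟩ := card_eq_one.1 h2
    have h5 : w = w' := by
      rw [← mem_uc, hw', mem_singleton] at h3
      exact h3
    subst h5
    have h6 : w ∈ dbL P i := by
      have := (H.covBy_iff.1 h3).2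
      exact mem_dbL.2 ⟨by omega, h4⟩
    rw [hw', ps_one H (mem_union_left _ h6), sgn_L h6, singleton_biUnion]
    ring

/-- far upper elements -/
lemma far_U (H : Gr P r) : ∑ z ∈ (lU P i 2).filter (fun z => (dc z).card = 1), ps i (dc z) =
    ∑ z ∈ PU P i, ph i ((dc z).biUnion (ns i)) := by
  classical
  symm
  refine sum_subset_zero_on_sdiff ?_ ?_ ?_
  · intro z hz
    rw [mem_PU] at hz
    rw [mem_filter, mem_lU]
    exact ⟨hz.1, hz.2.1⟩
  · intro z hz
    rw [mem_sdiff, mem_filter, mem_lU, mem_PU] at hz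
    obtain ⟨⟨h1, h2⟩, h3⟩ := hz
    obtain ⟨w, hw⟩ := card_eq_one.1 h2
    rw [hw]
    have h7 : w ∈ dc z := by
      rw [hw]
      exact mem_singleton_self w
    refine ps_zero (fun h6 => h3 ⟨h1, h2, w, mem_dc.1 h7, ?_⟩)
    have h8 := lev_dc H h7
    rcases mem_union.1 h6 with h9 | h9
    · have := (mem_dbL.1 h9).1
      omega
    · exact (mem_dbU.1 h9).2
  · intro z hz
    rw [mem_PU] at hz
    obtain ⟨h1, h2, w, h3, h4⟩ := hz
    obtain ⟨w', hw'⟩ := card_eq_one.1 h2
    have h5 : w = w' := by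
      rw [← mem_dc, hw', mem_singleton] at h3
      exact h3
    subst h5
    have h6 : w ∈ dbU P i := by
      have := (H.covBy_iff.1 h3).2
      exact mem_dbU.2 ⟨by omega, h4⟩
    rw [hw', ps_one H (mem_union_right _ h6), sgn_U h6, singleton_biUnion]
    ring

/-- T6, ELEMENT FORM: the first order identity at `s = -1` -/
theorem T6elem (H : Gr P r) (hi : i ≤ r) (h3 : ∀ x : P, lev x + 2 = i → dn i x ≤ 3) :
    ∑ x ∈ dbL P i ∪ dbU P i, (∑ a ∈ ns i x, ph i {a} + ph i (ns i x) - 3) +
      2 * ∑ h ∈ sgl P i, (ph i (ns i h) - 1) - 2 * ∑ v ∈ lv P i, (GG i v - 1) +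
      2 * ∑ z ∈ PD P i, ph i ((uc z).biUnion (ns i)) -
      2 * ∑ z ∈ PU P i, ph i ((dc z).biUnion (ns i)) = 0 := by
  have h := raw0 H hi h3
  have hp := pairs_sum H (P := P) (i := i)
  have hL := far_L H (P := P) (i := i)
  have hU := far_U H (P := P) (i := i)
  have hd := sum_dbU H (P := P) (i := i)
  have hs := sides_eq H hi (P := P)
  have hc := card_sides H hi (P := P)
  have e1 : ∑ x ∈ dbL P i ∪ dbU P i, (∑ a ∈ ns i x, ph i {a} + ph i (ns i x) - 3) =
      ∑ x ∈ dbL P i ∪ dbU P i, (∑ a ∈ ns i x, ph i {a} - 2 * ph i (ns i x)) +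
      3 * (∑ x ∈ dbL P i, ph i (ns i x) + ∑ x ∈ dbU P i, ph i (ns i x)) -
      3 * ((dbL P i).card + (dbU P i).card) := by
    have e2 : ∑ x ∈ dbL P i, ph i (ns i x) + ∑ x ∈ dbU P i, ph i (ns i x) =
        ∑ x ∈ dbL P i ∪ dbU P i, ph i (ns i x) := (sum_union dis_LU).symm
    have e3 : ((dbL P i).card : ℤ) + (dbU P i).card = ∑ x ∈ dbL P i ∪ dbU P i, (1 : ℤ) := by
      rw [sum_const, card_union_of_disjoint dis_LU, nsmul_eq_mul, mul_one]
      push_cast
      ring
    rw [e2, e3, mul_sum, mul_sum, ← sum_add_distrib, ← sum_sub_distrib]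
    refine sum_congr rfl fun x _ => ?_
    ring
  rw [e1]
  linarith

end T6N
end Pool.Agent.GaussPoset.Win
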