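import Pool.Agent.W_448t6_h94.TsN
import Pool.Agent.W_448st_h88.MgC

/-! The first order identity at `s = -1`, matching form (MP_448cb3_co). -/

namespace Pool.Agent.GaussPoset.Win
namespace T6N

set_option linter.unusedSectionVars false

open Finset

universe u

variable {P : Type u} [Fintype P] [PartialOrder P] [DecidableEq P] {r : ℕ} {i : ℕ}

lemma om_prod (F : Finset P) : om i F = ∏ x ∈ F, -sgn i x := by
  unfold om eps
  rw [prod_neg]

lemma Fm_eval (A : Finset P → ℤ) (V T : Finset P) :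
    St.Fm A V T = ∑ M ∈ St.MS (V \ T), ∏ e ∈ M, -A e := by
  unfold St.Fm St.mp
  rw [Polynomial.eval_finsetSum]
  refine sum_congr rfl fun M _ => ?_
  rw [Polynomial.eval_prod]
  refine prod_congr rfl fun e _ => ?_
  rw [Polynomial.eval_mul, Polynomial.eval_C, Polynomial.eval_X]
  ring

lemma prod_neg_Df (M : Finset (Finset P)) : ∏ T ∈ M, -Df i T =
    ∑ F ∈ SR (dbL P i ∪ dbU P i) (ns i) M, ∏ x ∈ F, -sgn i x := by
  rw [← prod_fib (dbL P i ∪ dbU P i) (ns i) (fun x => -sgn i x) M]
  refine prod_congr rfl fun T _ => ?_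
  rw [← sum_fib, sum_neg_distrib]

lemma Dj_inj {F : Finset P} (h : Dj i F) : Set.InjOn (ns i) (F : Set P) := by
  intro a ha b hb hab
  by_contra hne
  have h4 := h.2 a (mem_coe.1 ha) b (mem_coe.1 hb) hne
  rw [hab, disjoint_self] at h4
  have h5 := ns_card (h.1 (mem_coe.1 hb))
  rw [show ns i b = ∅ from h4, card_empty] at h5
  omega

/-- the families avoiding `T` in matching form -/
theorem ph_eq (H : Gr P r) (T : Finset P) : ph i T = St.Fm (Df i) (lv P i) T := by
  classical
  rw [Fm_eval]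
  unfold ph
  have hmaps : ∀ F ∈ (FA P i).filter (fun F => Disjoint (F.biUnion (ns i)) T),
      F.image (ns i) ∈ St.MS (lv P i \ T) := by
    intro F hF
    rw [mem_filter, mem_FA] at hF
    rw [St.mem_MS]
    constructor
    · intro S hS
      obtain ⟨x, hx, rfl⟩ := mem_image.1 hS
      refine ⟨?_, ns_card (hF.1.1 hx)⟩
      intro v hv
      rw [mem_sdiff]
      exact ⟨ns_sub H (hF.1.1 hx) hv,
        fun h => disjoint_left.1 hF.2 (mem_biUnion.2 ⟨x, hx, hv⟩) h⟩
    · intro S hS S' hS' hne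
      obtain ⟨x, hx, rfl⟩ := mem_image.1 (mem_coe.1 hS)
      obtain ⟨y, hy, rfl⟩ := mem_image.1 (mem_coe.1 hS')
      exact hF.1.2 x hx y hy (fun h => hne (by rw [h]))
  rw [← sum_fiberwise_of_maps_to hmaps]
  refine sum_congr rfl fun M hM => ?_
  rw [prod_neg_Df]
  refine sum_congr ?_ fun F _ => om_prod F
  rw [St.mem_MS] at hM
  ext F
  rw [mem_filter, mem_filter, mem_FA, mem_SR]
  constructor
  · rintro ⟨⟨h1, _⟩, h3⟩
    exact ⟨h1.1, Dj_inj h1, h3⟩
  · rintro ⟨h1, h2, h3⟩
    have hm : ∀ x ∈ F, ns i x ∈ M := fun x hx => by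
      rw [← h3]
      exact mem_image_of_mem _ hx
    refine ⟨⟨⟨h1, ?_⟩, ?_⟩, h3⟩
    · intro x hx y hy hne
      exact hM.2 (mem_coe.2 (hm x hx)) (mem_coe.2 (hm y hy))
        (fun h => hne (h2 (mem_coe.2 hx) (mem_coe.2 hy) h))
    · rw [disjoint_biUnion_left]
      intro x hx
      rw [disjoint_left]
      intro v hv hvT
      exact (mem_sdiff.1 ((hM.1 _ (hm x hx)).1 hv)).2 hvT

/-- product of the defects at `v` -/
lemma prod_Df_star (v : P) {S : Finset P} (hv : v ∉ S) : ∏ y ∈ S, Df i {v, y} =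
    ∑ J ∈ SR (dbL P i ∪ dbU P i) (ns i) (S.image (fun y => ({v, y} : Finset P))),
      ∏ x ∈ J, sgn i x := by
  rw [← prod_fib (dbL P i ∪ dbU P i) (ns i) (fun x => sgn i x), prod_image]
  · exact prod_congr rfl fun y _ => (sum_fib _).symm
  · intro a ha b hb hab
    have h1 : a ∈ ({v, b} : Finset P) := by
      rw [← show ({v, a} : Finset P) = {v, b} from hab]
      simp
    rw [mem_insert, mem_singleton] at h1
    rcases h1 with h1 | h1
    · exact absurd (h1 ▸ ha) hv
    · exact h1

lemma SvF_inj {v : P} {G : Finset P} (h : SvF i v G) : Set.InjOn (ns i) (G : Set P) := by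
  intro a ha b hb hab
  by_contra hne
  have h4 := h.2 a (mem_coe.1 ha) b (mem_coe.1 hb) hne
  rw [hab, disjoint_self] at h4
  have h5 := ns_sdiff_card (h.1 (mem_coe.1 hb)) v
  rw [show ns i b \ {v} = ∅ from h4, card_empty] at h5
  split_ifs at h5 <;> omega

/-- the site sum in matching form -/
theorem GG_eq (H : Gr P r) {v : P} (hv : v ∈ lv P i) : GG i v = St.gg (Df i) (lv P i) v := by
  classical
  unfold St.gg
  have h1 : ∀ S ∈ ((lv P i).erase v).powerset, (∏ y ∈ S, Df i {v, y}) *
      St.Fm (Df i) (lv P i) (insert v S) =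
      ∑ q ∈ (SR (dbL P i ∪ dbU P i) (ns i) (S.image (fun y => ({v, y} : Finset P)))) ×ˢ
        ((FA P i).filter (fun F => Disjoint (F.biUnion (ns i)) (insert v S))),
        (∏ x ∈ q.1, sgn i x) * ∏ x ∈ q.2, -sgn i x := by
    intro S hS
    rw [mem_powerset] at hS
    have hvS : v ∉ S := fun h => by
      have := mem_erase.1 (hS h)
      exact this.1 rfl
    rw [prod_Df_star v hvS, ← ph_eq H]
    unfold ph
    rw [sum_mul_sum, ← sum_product']
    refine sum_congr rfl fun q _ => ?_
    rw [om_prod]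
  rw [sum_congr rfl h1, sum_sigma']
  unfold GG
  symm
  -- the other ends
  have hpair : ∀ x ∈ dbL P i ∪ dbU P i, v ∈ ns i x → ∃ y, y ∈ (lv P i).erase v ∧
      ns i x = {v, y} := by
    intro x hx hvx
    obtain ⟨a, b, hab, hns⟩ := card_eq_two.1 (ns_card hx)
    have hsub := ns_sub H hx
    rw [hns, mem_insert, mem_singleton] at hvx
    rcases hvx with rfl | rfl
    · exact ⟨b, mem_erase.2 ⟨hab.symm, hsub (by rw [hns]; simp)⟩, hns⟩
    · exact ⟨a, mem_erase.2 ⟨hab, hsub (by rw [hns]; simp)⟩, by rw [hns, pair_comm]⟩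
  refine sum_bij' (fun p _ => p.2.1 ∪ p.2.2)
    (fun G _ => ⟨((G.filter (fun x => v ∈ ns i x)).biUnion (ns i)).erase v,
      (G.filter (fun x => v ∈ ns i x), G.filter (fun x => v ∉ ns i x))⟩) ?_ ?_ ?_ ?_ ?_
  · rintro ⟨S, J, F⟩ hp
    rw [mem_sigma, mem_product, mem_powerset, mem_SR, mem_filter, mem_FA,
      disjoint_insert_right] at hp
    obtain ⟨hS, ⟨hJ, hJi, hJS⟩, hF, hFv, hFS⟩ := hp
    simp only at hS hJ hJi hJS hF hFv hFS
    rw [mem_SA]
    have hJx : ∀ x ∈ J, ∃ y ∈ S, ns i x = {v, y} := by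
      intro x hx
      have : ns i x ∈ S.image (fun y => ({v, y} : Finset P)) := by
        rw [← hJS]
        exact mem_image_of_mem _ hx
      obtain ⟨y, hy, hxy⟩ := mem_image.1 this
      exact ⟨y, hy, hxy.symm⟩
    have hcross : ∀ x ∈ J, ∀ z ∈ F, Disjoint (ns i x \ {v}) (ns i z \ {v}) := by
      intro x hx z hz
      obtain ⟨y, hy, hxy⟩ := hJx x hx
      rw [disjoint_left]
      intro w hw hw2
      rw [mem_sdiff, hxy, mem_insert, mem_singleton] at hw
      rw [mem_sdiff] at hw2
      have h5 : w = y := by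
        rcases hw.1 with h5 | h5
        · exact absurd (mem_singleton.2 h5) hw.2
        · exact h5
      subst h5
      exact disjoint_left.1 hFS (mem_biUnion.2 ⟨z, hz, hw2.1⟩) hy
    refine ⟨union_subset hJ hF.1, ?_⟩
    intro x hx z hz hne
    rcases mem_union.1 hx with hx1 | hx1 <;> rcases mem_union.1 hz with hz1 | hz1
    · obtain ⟨y, hy, hxy⟩ := hJx x hx1
      obtain ⟨y', hy', hzy⟩ := hJx z hz1
      have hyy : y ≠ y' := by
        rintro rfl
        exact hne (hJi (mem_coe.2 hx1) (mem_coe.2 hz1) (hxy.trans hzy.symm))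
      rw [hxy, hzy, disjoint_left]
      intro w hw hw2
      simp only [mem_sdiff, mem_insert, mem_singleton] at hw hw2
      rcases hw.1 with h5 | h5
      · exact hw.2 h5
      · rcases hw2.1 with h6 | h6
        · exact hw.2 h6
        · exact hyy (h5.symm.trans h6)
    · exact hcross x hx1 z hz1
    · exact (hcross z hz1 x hx1).symm
    · exact disjoint_of_subset_left sdiff_subset
        (disjoint_of_subset_right sdiff_subset (hF.2 x hx1 z hz1 hne))
  · intro G hG
    rw [mem_SA] at hG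
    have hGf : ∀ x ∈ G.filter (fun x => v ∈ ns i x), x ∈ dbL P i ∪ dbU P i ∧ v ∈ ns i x :=
      fun x hx => ⟨hG.1 (mem_filter.1 hx).1, (mem_filter.1 hx).2⟩
    rw [mem_sigma, mem_product, mem_powerset, mem_SR, mem_filter, mem_FA]
    refine ⟨?_, ⟨(filter_subset _ _).trans hG.1, ?_, ?_⟩, ⟨(filter_subset _ _).trans hG.1, ?_⟩, ?_⟩
    · intro w hw
      rw [mem_erase, mem_biUnion] at hw
      obtain ⟨hne, x, hx, hwx⟩ := hw
      exact mem_erase.2 ⟨hne, ns_sub H (hGf x hx).1 hwx⟩
    · exact (SvF_inj hG).mono (fun x hx => (mem_filter.1 (mem_coe.1 hx)).1)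
    · ext T
      rw [mem_image, mem_image]
      constructor
      · rintro ⟨x, hx, rfl⟩
        obtain ⟨y, hy, hxy⟩ := hpair x (hGf x hx).1 (hGf x hx).2
        refine ⟨y, mem_erase.2 ⟨(mem_erase.1 hy).1, mem_biUnion.2 ⟨x, hx, ?_⟩⟩, hxy.symm⟩
        rw [hxy]
        simp
      · rintro ⟨y, hy, rfl⟩
        rw [mem_erase, mem_biUnion] at hy
        obtain ⟨hne, x, hx, hyx⟩ := hy
        obtain ⟨y', hy', hxy⟩ := hpair x (hGf x hx).1 (hGf x hx).2
        refine ⟨x, hx, ?_⟩
        rw [hxy, mem_insert, mem_singleton] at hyx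
        rcases hyx with h5 | h5
        · exact absurd h5 hne
        · rw [hxy, h5]
    · intro x hx y hy hne
      rw [mem_filter] at hx hy
      have h5 := hG.2 x hx.1 y hy.1 hne
      rwa [sdiff_singleton_eq_erase, erase_eq_of_notMem hx.2, sdiff_singleton_eq_erase,
        erase_eq_of_notMem hy.2] at h5
    · rw [disjoint_left]
      intro w hw hw2
      rw [mem_biUnion] at hw
      obtain ⟨z, hz, hwz⟩ := hw
      rw [mem_filter] at hz
      rcases mem_insert.1 hw2 with h5 | h5
      · subst h5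
        exact hz.2 hwz
      · rw [mem_erase, mem_biUnion] at h5
        obtain ⟨hne, x, hx, hwx⟩ := h5
        rw [mem_filter] at hx
        have hxz : x ≠ z := by
          rintro rfl
          exact hz.2 hx.2
        exact disjoint_left.1 (hG.2 x hx.1 z hz.1 hxz)
          (mem_sdiff.2 ⟨hwx, fun h => hne (mem_singleton.1 h)⟩)
          (mem_sdiff.2 ⟨hwz, fun h => hne (mem_singleton.1 h)⟩)
  · rintro ⟨S, J, F⟩ hp
    rw [mem_sigma, mem_product, mem_powerset, mem_SR, mem_filter, mem_FA,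
      disjoint_insert_right] at hp
    obtain ⟨hS, ⟨hJ, hJi, hJS⟩, hF, hFv, hFS⟩ := hp
    simp only at hS hJ hJi hJS hF hFv hFS
    have hJx : ∀ x ∈ J, ∃ y ∈ S, ns i x = {v, y} := by
      intro x hx
      have : ns i x ∈ S.image (fun y => ({v, y} : Finset P)) := by
        rw [← hJS]
        exact mem_image_of_mem _ hx
      obtain ⟨y, hy, hxy⟩ := mem_image.1 this
      exact ⟨y, hy, hxy.symm⟩
    have hJv : ∀ x ∈ J, v ∈ ns i x := by
      intro x hx
      obtain ⟨y, _, hxy⟩ := hJx x hx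
      rw [hxy]
      simp
    have hFv' : ∀ x ∈ F, v ∉ ns i x := fun x hx h => hFv (mem_biUnion.2 ⟨x, hx, h⟩)
    have e1 : (J ∪ F).filter (fun x => v ∈ ns i x) = J := by
      rw [filter_union, filter_true_of_mem hJv, filter_false_of_mem hFv', union_empty]
    have e2 : (J ∪ F).filter (fun x => v ∉ ns i x) = F := by
      rw [filter_union, filter_true_of_mem hFv', filter_false_of_mem (fun x hx h => h (hJv x hx)),
        empty_union]
    have e3 : (J.biUnion (ns i)).erase v = S := by
      ext y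
      rw [mem_erase, mem_biUnion]
      constructor
      · rintro ⟨hne, x, hx, hyx⟩
        obtain ⟨y', hy', hxy⟩ := hJx x hx
        rw [hxy, mem_insert, mem_singleton] at hyx
        rcases hyx with h5 | h5
        · exact absurd h5 hne
        · rw [h5]
          exact hy'
      · intro hy
        refine ⟨(mem_erase.1 (hS hy)).1, ?_⟩
        have : ({v, y} : Finset P) ∈ J.image (ns i) := by
          rw [hJS]
          exact mem_image_of_mem _ hy
        obtain ⟨x, hx, hxy⟩ := mem_image.1 this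
        refine ⟨x, hx, ?_⟩
        rw [hxy]
        simp
    simp only [e1, e2, e3]
  · intro G hG
    simp only
    exact filter_union_filter_not_eq _ _
  · rintro ⟨S, J, F⟩ hp
    rw [mem_sigma, mem_product, mem_powerset, mem_SR, mem_filter, mem_FA,
      disjoint_insert_right] at hp
    obtain ⟨hS, ⟨hJ, hJi, hJS⟩, hF, hFv, hFS⟩ := hp
    simp only at hS hJ hJi hJS hF hFv hFS
    have hJv : ∀ x ∈ J, v ∈ ns i x := by
      intro x hx
      have : ns i x ∈ S.image (fun y => ({v, y} : Finset P)) := by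
        rw [← hJS]
        exact mem_image_of_mem _ hx
      obtain ⟨y, hy, hxy⟩ := mem_image.1 this
      rw [← hxy]
      simp
    have hFv' : ∀ x ∈ F, v ∉ ns i x := fun x hx h => hFv (mem_biUnion.2 ⟨x, hx, h⟩)
    have hdis : Disjoint J F := by
      rw [disjoint_left]
      intro x hx hx2
      exact hFv' x hx2 (hJv x hx)
    have e1 : ∏ x ∈ J, sgn i x = ∏ x ∈ J, -sgv i v x := by
      refine prod_congr rfl fun x hx => ?_
      unfold sgv
      rw [if_pos (hJv x hx), neg_neg]
    have e2 : ∏ x ∈ F, -sgn i x = ∏ x ∈ F, -sgv i v x := by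
      refine prod_congr rfl fun x hx => ?_
      unfold sgv
      rw [if_neg (hFv' x hx)]
    simp only
    rw [e1, e2, ← prod_union hdis, prod_neg]

end T6N
end Pool.Agent.GaussPoset.Win
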